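import Pool.Agent.Run7.h698.VonP

set_option autoImplicit false
open Matrix

namespace Pool.Agent.Run7.h698.FiveChordalOld

open Pool.Agent.K7.H30.Vo Pool.Agent.Run7.h698.Von

/-- The value `A[x] = xᵀ A x` at an integral vector `x`. -/
noncomputable def formVal {n : ℕ} (A : Matrix (Fin n) (Fin n) ℝ) (x : Fin n → ℤ) : ℝ :=
  dotProduct (fun i => (x i : ℝ)) (A.mulVec (fun i => (x i : ℝ)))

/-- `tcvp(A, v)` for `v` the vector with entry `1/2` on `S` and `0` off `S`: the minimum over
integral `x` of `A[x - v]`. -/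
noncomputable def tcvp {n : ℕ} (A : Matrix (Fin n) (Fin n) ℝ) (S : Finset (Fin n)) : ℝ :=
  ⨅ x : Fin n → ℤ,
    dotProduct (fun i => (x i : ℝ) - (if i ∈ S then (1/2 : ℝ) else 0))
      (A.mulVec (fun i => (x i : ℝ) - (if i ∈ S then (1/2 : ℝ) else 0)))

/-- The integral vector `x` lies in the class `c` of `ℤⁿ / 2ℤⁿ`. -/
def InClass {n : ℕ} (x : Fin n → ℤ) (c : Fin n → ZMod 2) : Prop :=
  ∀ i, ((x i : ℤ) : ZMod 2) = c i

/-- In the class `c` of `ℤⁿ / 2ℤⁿ` the vectors of least value `A[·]` are a single pair `±x`. -/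
def UniquePair {n : ℕ} (A : Matrix (Fin n) (Fin n) ℝ) (c : Fin n → ZMod 2) : Prop :=
  ∀ x y : Fin n → ℤ, InClass x c → InClass y c →
    (∀ z : Fin n → ℤ, InClass z c → formVal A x ≤ formVal A z ∧ formVal A y ≤ formVal A z) →
    y = x ∨ y = -x

/-- A circuit of classes: a nonempty finite set of classes with sum zero, none of whose proper
nonempty subsets has sum zero. -/
def IsCircuit {n : ℕ} (r : Finset (Fin n → ZMod 2)) : Prop :=
  r.Nonempty ∧ ∑ c ∈ r, c = 0 ∧ ∀ s ⊆ r, ∑ c ∈ s, c = 0 → s = ∅ ∨ s = r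

/-- Chordality: every circuit of at least five classes with unique pairs of minimal vectors has a
chord, a partial sum of between `2` and `|r| - 2` of its classes which again has a unique pair of
minimal vectors. -/
def FiveChordal {n : ℕ} (A : Matrix (Fin n) (Fin n) ℝ) : Prop :=
  ∀ r : Finset (Fin n → ZMod 2), 5 ≤ r.card → IsCircuit r → (∀ c ∈ r, UniquePair A c) →
    ∃ s ⊆ r, 2 ≤ s.card ∧ s.card + 2 ≤ r.card ∧ UniquePair A (∑ c ∈ s, c)

/-- Forms with at most nine classes without a unique pair satisfy the chord condition. -/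
theorem fiveChordal_of_few {n : ℕ} {A : Matrix (Fin n) (Fin n) ℝ}
    (h : {c : Fin n → ZMod 2 | ¬ UniquePair A c}.ncard ≤ 9) : FiveChordal A := by
  classical
  intro r hr hcirc hu
  by_contra hno
  push Not at hno
  have hinj : ∀ s ∈ r.powersetCard 2, ∀ t ∈ r.powersetCard 2,
      ∑ c ∈ s, c = ∑ c ∈ t, c → s = t := by
    intro s hs t ht hst
    rw [Finset.mem_powersetCard] at hs ht
    have h1 : sm (symmDiff s t) = 0 := by
      rw [sm_symmDiff]
      have : sm s = sm t := hst
      rw [this]
      exact self_add _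
    have h2 : symmDiff s t ⊆ r := by
      intro x hx
      rw [Finset.mem_symmDiff] at hx
      rcases hx with hx | hx
      · exact hs.1 hx.1
      · exact ht.1 hx.1
    rcases hcirc.2.2 _ h2 h1 with h3 | h3
    · exact symmDiff_eq_bot.mp h3
    · exfalso
      have h4 : (symmDiff s t).card ≤ s.card + t.card := by
        have h5 : symmDiff s t ⊆ s ∪ t := by
          intro x hx
          rw [Finset.mem_symmDiff] at hx
          rw [Finset.mem_union]
          tauto
        exact (Finset.card_le_card h5).trans (Finset.card_union_le _ _)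
      rw [h3, hs.2, ht.2] at h4
      omega
  have hsub : (((r.powersetCard 2).image (fun s => ∑ c ∈ s, c) :
      Finset (Fin n → ZMod 2)) : Set (Fin n → ZMod 2)) ⊆ {c | ¬ UniquePair A c} := by
    intro c hc
    rw [Finset.mem_coe, Finset.mem_image] at hc
    obtain ⟨s, hs, rfl⟩ := hc
    rw [Finset.mem_powersetCard] at hs
    exact hno s hs.1 (by omega) (by omega)
  have h1 := Set.ncard_le_ncard hsub (Set.toFinite _)
  rw [Set.ncard_coe_finset, Finset.card_image_of_injOn
    (fun s hs t ht => hinj s (Finset.mem_coe.mp hs) t (Finset.mem_coe.mp ht)),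
    Finset.card_powersetCard] at h1
  have h2 : Nat.choose 5 2 ≤ r.card.choose 2 := Nat.choose_le_choose 2 hr
  have h3 : Nat.choose 5 2 = 10 := by decide
  omega

/-- A positive definite form whose circuits of at least five classes with unique pairs of minimal
vectors have chords is determined among all positive definite forms, up to integral equivalence,
by its vonorms. There is no condition on circuits of three or four classes. -/
theorem result (n : ℕ) (A B : Matrix (Fin n) (Fin n) ℝ) (hA : A.PosDef) (hB : B.PosDef)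
    (hch : FiveChordal A) (h : ∀ S : Finset (Fin n), S.Nonempty → tcvp A S = tcvp B S) :
    ∃ U : Matrix (Fin n) (Fin n) ℤ, IsUnit U.det ∧
      B = (U.map (Int.cast : ℤ → ℝ))ᵀ * A * U.map (Int.cast : ℤ → ℝ) := by
  obtain ⟨M⟩ := (latOf hA).exists_minSys
  obtain ⟨N⟩ := (latOf hB).exists_minSys
  have hf := f_eq_of_tcvp hA hB M N h
  apply matrix_of_isometry hA hB
  apply isometry_of_chordal5 M N hf
  intro r hr hst hcirc
  obtain ⟨s, hs, hs2, hs3, hu⟩ := hch r hr ⟨hcirc.1, hcirc.2.1, fun s hs h0 => hcirc.2.2 s hs h0⟩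
    (fun c hc => (St_iff_uniq hA M (hst c hc).1).mp (hst c hc))
  refine ⟨s, hs, hs2, hs3, ?_⟩
  have hne : sm s ≠ 0 := by
    intro h0
    rcases hcirc.2.2 s hs h0 with h1 | h1
    · rw [h1, Finset.card_empty] at hs2; omega
    · rw [h1] at hs3; omega
  exact (St_iff_uniq hA M hne).mpr hu

end Pool.Agent.Run7.h698.FiveChordalOld
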