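import Pool.Agent.Run7.h698.VonB

set_option autoImplicit false

open scoped symmDiff

namespace Pool.Agent.Run7.h698.Von

open Pool.Agent.K7.H30.Vo

/-- strict classes of a subadditive function -/
def St {V : Type} [AddCommGroup V] (f : V → ℝ) (a : V) : Prop :=
  a ≠ 0 ∧ ∀ u, u ≠ 0 → u ≠ a → f a < f u + f (a + u)

section strict

variable {L V : Type} [AddCommGroup L] [AddCommGroup V] [Module (ZMod 2) V] {Λ : Lat L V}
  (M : Λ.MinSys)

lemma pr_neg (x : L) : Λ.pr (-x) = Λ.pr x := by rw [map_neg, neg_eq]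

lemma f_sub (a b : V) : M.f (a + b) ≤ M.f a + M.f b := by
  have p1 : Λ.pr (M.y a + M.y b) = a + b := by rw [map_add, M.pr_y, M.pr_y]
  have p2 : Λ.pr (M.y a - M.y b) = a + b := by rw [map_sub, M.pr_y, M.pr_y, sub_eq_add']
  have h1 := M.f_le' p1
  have h2 := M.f_le' p2
  rw [Λ.q_add] at h1
  rw [Λ.q_sub] at h2
  have e1 : Λ.q (M.y a) = M.f a := rfl
  have e2 : Λ.q (M.y b) = M.f b := rfl
  linarith

lemma f_sm [DecidableEq V] (S : Finset V) : M.f (sm S) ≤ ∑ a ∈ S, M.f a := by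
  induction S using Finset.induction_on with
  | empty => rw [sm_empty, M.f_zero, Finset.sum_empty]
  | insert a S ha ih =>
    have h1 : sm (insert a S) = a + sm S := by
      unfold sm; rw [Finset.sum_insert ha]
    rw [h1, Finset.sum_insert ha]
    have := f_sub M a (sm S)
    linarith

lemma St.uniq {M : Λ.MinSys} {a : V} (h : St M.f a) {z : L} (hz : Λ.pr z = a)
    (hq : Λ.q z ≤ M.f a) : z = M.y a ∨ z = - M.y a := by
  by_contra hne
  push Not at hne
  obtain ⟨hne1, hne2⟩ := hne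
  have p1 : Λ.pr (z + M.y a) = 0 := by rw [map_add, M.pr_y, hz, self_add]
  set r := Lat.half (z + M.y a) with hr
  have hr2 : r + r = z + M.y a := Λ.half_add p1
  set s := r - M.y a with hs
  have hxrs : r + s = z := by
    rw [hs]
    have : r + (r - M.y a) = (r + r) - M.y a := by abel
    rw [this, hr2]; abel
  have hyrs : r - s = M.y a := by rw [hs]; abel
  have hr0 : r ≠ 0 := by
    intro h0
    apply hne2
    rw [h0, add_zero] at hr2
    exact eq_neg_of_add_eq_zero_left hr2.symm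
  have hs0 : s ≠ 0 := by
    intro h0
    apply hne1
    rw [h0, add_zero] at hxrs
    rw [h0, sub_zero] at hyrs
    rw [← hxrs, hyrs]
  have hq2 : Λ.q z + Λ.q (M.y a) = 2 * Λ.q r + 2 * Λ.q s := by
    have e1 : Λ.q z = Λ.q r + Λ.q s + 2 * Λ.b r s := by rw [← Λ.q_add, hxrs]
    have e2 : Λ.q (M.y a) = Λ.q r + Λ.q s - 2 * Λ.b r s := by rw [← Λ.q_sub, hyrs]
    rw [e1, e2]; ring
  have hfc : M.f a = Λ.q (M.y a) := rfl
  have hsum : Λ.q r + Λ.q s ≤ M.f a := by linarith
  have prs : Λ.pr r + Λ.pr s = a := by rw [← map_add, hxrs, hz]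
  have q1 := M.f_le r
  have q2 := M.f_le s
  have qr := Λ.q_pos hr0
  have qs := Λ.q_pos hs0
  by_cases h1 : Λ.pr r = 0
  · rw [h1, zero_add] at prs
    rw [prs] at q2
    linarith
  by_cases h2 : Λ.pr r = a
  · rw [h2] at q1
    linarith
  have h3 := h.2 _ h1 h2
  have h4 : a + Λ.pr r = Λ.pr s := by
    rw [← prs, add_comm (Λ.pr r), add_assoc, self_add, add_zero]
  rw [h4] at h3
  linarith

/-- strict classes have strictly shortest vectors -/
lemma St.lt {M : Λ.MinSys} {a : V} (h : St M.f a) {z : L} (hz : Λ.pr z = a)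
    (h1 : z ≠ M.y a) (h2 : z ≠ - M.y a) : M.f a < Λ.q z := by
  by_contra hlt
  rcases h.uniq hz (not_lt.mp hlt) with h3 | h3
  · exact h1 h3
  · exact h2 h3

lemma not_St {a : V} (h0 : a ≠ 0) (h : ¬ St M.f a) :
    ∃ u, u ≠ 0 ∧ u ≠ a ∧ M.f u + M.f (a + u) ≤ M.f a := by
  unfold St at h
  push Not at h
  exact h h0

/-- if a class has a unique pair of minimal vectors then it is strict -/
lemma St_of_uniq {a : V} (h0 : a ≠ 0)
    (h : ∀ z, Λ.pr z = a → Λ.q z ≤ M.f a → z = M.y a ∨ z = - M.y a) : St M.f a := by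
  refine ⟨h0, fun u hu hua => ?_⟩
  by_contra hlt
  push Not at hlt
  have hau : a + u ≠ 0 := fun h1 => hua (add_eq_zero_iff'.mp h1).symm
  set x := M.y u + M.y (a + u) with hx
  set z := M.y u - M.y (a + u) with hz
  have hq : Λ.q x + Λ.q z = 2 * M.f u + 2 * M.f (a + u) := by
    rw [hx, hz, Λ.q_add, Λ.q_sub]; unfold Lat.MinSys.f; ring
  have e0 : u + (a + u) = a := by
    rw [add_comm a u, add_add_cancel']
  have px : Λ.pr x = a := by rw [hx, map_add, M.pr_y, M.pr_y, e0]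
  have pz : Λ.pr z = a := by rw [hz, map_sub, M.pr_y, M.pr_y, sub_eq_add', e0]
  have h1 := M.f_le' px
  have h2 := M.f_le' pz
  have ex : Λ.q x ≤ M.f a := by linarith
  have ez : Λ.q z ≤ M.f a := by linarith
  have hyb : M.y (a + u) ≠ 0 := M.y_ne hau
  have hya : M.y u ≠ 0 := M.y_ne hu
  have contra1 : x = z → False := by
    intro h
    apply hyb
    apply Λ.double_eq_zero
    have : M.y (a + u) + M.y (a + u) = x - z := by rw [hx, hz]; abel
    rw [this, h, sub_self]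
  have contra2 : x = -z → False := by
    intro h
    apply hya
    apply Λ.double_eq_zero
    have : M.y u + M.y u = x + z := by rw [hx, hz]; abel
    rw [this, h, neg_add_cancel]
  rcases h x px ex with h3 | h3 <;> rcases h z pz ez with h4 | h4
  · exact contra1 (h3.trans h4.symm)
  · exact contra2 (by rw [h3, h4, neg_neg])
  · exact contra2 (by rw [h3, h4])
  · exact contra1 (h3.trans h4.symm)

end strict

section TT

variable {L V : Type} [AddCommGroup L] [AddCommGroup V] [Module (ZMod 2) V] [DecidableEq V]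
  {Λ : Lat L V} (M : Λ.MinSys)

/-- class of the half sum -/
noncomputable def TT (S : Finset V) : V := Λ.pr (Lat.half (∑ a ∈ S, M.y a))

lemma pr_sum (S : Finset V) : Λ.pr (∑ a ∈ S, M.y a) = sm S := by
  rw [map_sum]
  unfold sm
  exact Finset.sum_congr rfl (fun a _ => M.pr_y a)

lemma half_sum {S : Finset V} (h : sm S = 0) :
    Lat.half (∑ a ∈ S, M.y a) + Lat.half (∑ a ∈ S, M.y a) = ∑ a ∈ S, M.y a :=
  Λ.half_add (by rw [pr_sum, h])

lemma TT_eq {S : Finset V} {x : L} (h : x + x = ∑ a ∈ S, M.y a) : TT M S = Λ.pr x := by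
  unfold TT; rw [Λ.half_eq h]

lemma TT_symmDiff {S S' : Finset V} (h : sm S = 0) (h' : sm S' = 0) :
    TT M (S ∆ S') = TT M S + TT M S' + sm (S ∩ S') := by
  have h1 := half_sum M h
  have h2 := half_sum M h'
  have hsum : ∑ a ∈ S ∆ S', M.y a + (∑ a ∈ S ∩ S', M.y a + ∑ a ∈ S ∩ S', M.y a) =
      ∑ a ∈ S, M.y a + ∑ a ∈ S', M.y a := by
    have e1 : S ∆ S' = (S \ (S ∩ S')) ∪ (S' \ (S ∩ S')) := by
      ext x
      simp only [Finset.mem_symmDiff, Finset.mem_union, Finset.mem_sdiff, Finset.mem_inter]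
      tauto
    have e2 : Disjoint (S \ (S ∩ S')) (S' \ (S ∩ S')) := by
      rw [Finset.disjoint_left]
      intro x hx hy
      simp only [Finset.mem_sdiff, Finset.mem_inter] at hx hy
      exact hx.2 ⟨hx.1, hy.1⟩
    rw [e1, Finset.sum_union e2, ← Finset.sum_sdiff (Finset.inter_subset_left (s₁ := S) (s₂ := S')),
      ← Finset.sum_sdiff (Finset.inter_subset_right (s₁ := S) (s₂ := S'))]
    abel
  have h3 : (Lat.half (∑ a ∈ S, M.y a) + Lat.half (∑ a ∈ S', M.y a) - ∑ a ∈ S ∩ S', M.y a) +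
      (Lat.half (∑ a ∈ S, M.y a) + Lat.half (∑ a ∈ S', M.y a) - ∑ a ∈ S ∩ S', M.y a) =
      ∑ a ∈ S ∆ S', M.y a := by
    have e3 : (Lat.half (∑ a ∈ S, M.y a) + Lat.half (∑ a ∈ S', M.y a) - ∑ a ∈ S ∩ S', M.y a) +
      (Lat.half (∑ a ∈ S, M.y a) + Lat.half (∑ a ∈ S', M.y a) - ∑ a ∈ S ∩ S', M.y a) =
      (Lat.half (∑ a ∈ S, M.y a) + Lat.half (∑ a ∈ S, M.y a)) +
      (Lat.half (∑ a ∈ S', M.y a) + Lat.half (∑ a ∈ S', M.y a)) -
      (∑ a ∈ S ∩ S', M.y a + ∑ a ∈ S ∩ S', M.y a) := by abel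
    rw [e3, h1, h2, ← hsum]; abel
  rw [TT_eq M h3, map_sub, map_add, pr_sum, sub_eq_add']
  rfl

lemma TT_flip (s : V → ZMod 2) {S : Finset V} (h : sm S = 0) :
    TT (M.flip s) S = TT M S + ∑ a ∈ S, s a • a := by
  have key : ∀ v : V, ∃ z : L, (M.flip s).y v = M.y v - (z + z) ∧ Λ.pr z = s v • v := by
    intro v
    rw [flip_y]
    rcases zmod2_cases (s v) with h | h
    · exact ⟨0, by rw [if_pos h]; abel, by rw [h, map_zero, zero_smul]⟩
    · refine ⟨M.y v, ?_, ?_⟩
      · rw [if_neg (by rw [h]; decide)]; abel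
      · rw [h, one_smul, M.pr_y]
  choose z hz1 hz2 using key
  have h1 := half_sum M h
  have h3 : (Lat.half (∑ a ∈ S, M.y a) - ∑ a ∈ S, z a) +
      (Lat.half (∑ a ∈ S, M.y a) - ∑ a ∈ S, z a) = ∑ a ∈ S, (M.flip s).y a := by
    have e1 : ∑ a ∈ S, (M.flip s).y a = ∑ a ∈ S, M.y a - (∑ a ∈ S, z a + ∑ a ∈ S, z a) := by
      rw [← Finset.sum_add_distrib, ← Finset.sum_sub_distrib]
      exact Finset.sum_congr rfl (fun a _ => hz1 a)
    have e2 : (Lat.half (∑ a ∈ S, M.y a) - ∑ a ∈ S, z a) +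
      (Lat.half (∑ a ∈ S, M.y a) - ∑ a ∈ S, z a) =
      (Lat.half (∑ a ∈ S, M.y a) + Lat.half (∑ a ∈ S, M.y a)) -
      (∑ a ∈ S, z a + ∑ a ∈ S, z a) := by abel
    rw [e1, e2, h1]
  rw [TT_eq _ h3, map_sub, sub_eq_add', map_sum]
  congr 1
  exact Finset.sum_congr rfl (fun a _ => hz2 a)

end TT

section KK

variable {L L' V : Type} [AddCommGroup L] [AddCommGroup L'] [AddCommGroup V] [Module (ZMod 2) V]
  [DecidableEq V] {Λ : Lat L V} {Λ' : Lat L' V} (M : Λ.MinSys) (M' : Λ'.MinSys)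

/-- the defect of a cycle -/
noncomputable def KK (S : Finset V) : V := TT M S + TT M' S

lemma KK_symmDiff {S S' : Finset V} (h : sm S = 0) (h' : sm S' = 0) :
    KK M M' (S ∆ S') = KK M M' S + KK M M' S' := by
  unfold KK
  rw [TT_symmDiff M h h', TT_symmDiff M' h h']
  have : TT M S + TT M S' + sm (S ∩ S') + (TT M' S + TT M' S' + sm (S ∩ S')) =
    TT M S + TT M' S + (TT M S' + TT M' S') + (sm (S ∩ S') + sm (S ∩ S')) := by abel
  rw [this, self_add, add_zero]

/-- after flipping signs the half sums agree on all cycles of strict classes -/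
theorem matched_of_good [Fintype V]
    (hgood : ∀ S : Finset V, (∀ a ∈ S, St M.f a) → sm S = 0 → ∃ X ⊆ S, KK M M' S = sm X) :
    ∃ N : Λ'.MinSys, (∀ v, N.f v = M'.f v) ∧
      ∀ S : Finset V, (∀ a ∈ S, St M.f a) → sm S = 0 → TT N S = TT M S := by
  classical
  obtain ⟨T, hT⟩ := sign_lemma (KK M M') (Finset.univ.filter (fun a => St M.f a))
    (fun S S' _ _ h h' => KK_symmDiff M M' h h')
    (fun S hS h0 => hgood S (fun a ha => (Finset.mem_filter.mp (hS ha)).2) h0)
  refine ⟨M'.flip (fun a => if a ∈ T then 1 else 0), fun v => flip_f M' _ v, ?_⟩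
  intro S hS h0
  rw [TT_flip M' _ h0]
  have h1 := hT S (fun a ha => Finset.mem_filter.mpr ⟨Finset.mem_univ _, hS a ha⟩) h0
  have h2 : ∑ a ∈ S, (if a ∈ T then (1 : ZMod 2) else 0) • a = sm (S ∩ T) := by
    unfold sm
    rw [← Finset.filter_mem_eq_inter, Finset.sum_filter]
    apply Finset.sum_congr rfl
    intro a _
    by_cases h : a ∈ T
    · rw [if_pos h, if_pos h, one_smul]
    · rw [if_neg h, if_neg h, zero_smul]
  rw [h2, ← h1]
  unfold KK
  have : TT M' S + (TT M S + TT M' S) = TT M S + (TT M' S + TT M' S) := by abel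
  rw [this, self_add, add_zero]

end KK

end Pool.Agent.Run7.h698.Von
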