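import Pool.Agent.K7.H30.VoE

set_option autoImplicit false

open scoped symmDiff

namespace Pool.Agent.Run7.h698.Von

open Pool.Agent.K7.H30.Vo

section comb

variable {V : Type} [AddCommGroup V] [Module (ZMod 2) V] [DecidableEq V]

/-- sum of the elements of a finite set of classes -/
def sm (S : Finset V) : V := ∑ a ∈ S, a

lemma sm_empty : sm (∅ : Finset V) = 0 := Finset.sum_empty

lemma sm_union {A B : Finset V} (h : Disjoint A B) : sm (A ∪ B) = sm A + sm B :=
  Finset.sum_union h

lemma sm_sdiff {A B : Finset V} (h : A ⊆ B) : sm (B \ A) = sm B + sm A := by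
  have h1 : sm (B \ A) + sm A = sm B := Finset.sum_sdiff h
  rw [← h1, add_assoc, self_add, add_zero]

lemma sm_symmDiff (A B : Finset V) : sm (A ∆ B) = sm A + sm B := by
  have h1 : A ∆ B = (A \ (A ∩ B)) ∪ (B \ (A ∩ B)) := by
    ext x
    simp only [Finset.mem_symmDiff, Finset.mem_union, Finset.mem_sdiff, Finset.mem_inter]
    tauto
  have h2 : Disjoint (A \ (A ∩ B)) (B \ (A ∩ B)) := by
    rw [Finset.disjoint_left]
    intro x hx hy
    simp only [Finset.mem_sdiff, Finset.mem_inter] at hx hy
    exact hx.2 ⟨hx.1, hy.1⟩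
  rw [h1, sm_union h2, sm_sdiff Finset.inter_subset_left, sm_sdiff Finset.inter_subset_right]
  have : sm A + sm (A ∩ B) + (sm B + sm (A ∩ B)) =
      sm A + sm B + (sm (A ∩ B) + sm (A ∩ B)) := by abel
  rw [this, self_add, add_zero]

/-- `A` is a minimal set with sum `P` -/
def MP (P : V) (A : Finset V) : Prop := sm A = P ∧ ∀ X ⊆ A, sm X = P → X = A

lemma exists_MP {P : V} (A : Finset V) (h : sm A = P) : ∃ X ⊆ A, MP P X := by
  induction A using Finset.strongInduction with
  | H A ih =>
    by_cases h1 : ∀ X ⊆ A, sm X = P → X = A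
    · exact ⟨A, Finset.Subset.refl _, h, h1⟩
    · push Not at h1
      obtain ⟨X, hX, hP, hne⟩ := h1
      obtain ⟨Y, hY, hYP⟩ := ih X (Finset.ssubset_iff_subset_ne.mpr ⟨hX, hne⟩) hP
      exact ⟨Y, hY.trans hX, hYP⟩

lemma MP.indep {P : V} {A : Finset V} (h : MP P A) {X : Finset V} (hX : X ⊆ A) (h0 : sm X = 0) :
    X = ∅ := by
  have h1 : sm (A \ X) = P := by rw [sm_sdiff hX, h0, add_zero, h.1]
  have h2 := h.2 _ Finset.sdiff_subset h1
  have h3 : Disjoint X A := by
    rw [← h2]; exact Finset.disjoint_sdiff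
  rw [Finset.eq_empty_iff_forall_notMem]
  intro x hx
  exact (Finset.disjoint_left.mp h3 hx) (hX hx)

/-- a circuit: a minimal nonempty set with zero sum -/
def Circ (C : Finset V) : Prop := C.Nonempty ∧ sm C = 0 ∧ ∀ X ⊆ C, sm X = 0 → X = ∅ ∨ X = C

lemma exists_circ (Z : Finset V) (h : sm Z = 0) {c : V} (hc : c ∈ Z) :
    ∃ C ⊆ Z, c ∈ C ∧ Circ C := by
  induction Z using Finset.strongInduction with
  | H Z ih =>
    by_cases h1 : ∀ X ⊆ Z, sm X = 0 → X = ∅ ∨ X = Z
    · exact ⟨Z, Finset.Subset.refl _, hc, ⟨c, hc⟩, h, h1⟩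
    · push Not at h1
      obtain ⟨X, hX, h0, hne, hne'⟩ := h1
      by_cases hcX : c ∈ X
      · obtain ⟨C, hC, h2⟩ := ih X (Finset.ssubset_iff_subset_ne.mpr ⟨hX, hne'⟩) h0 hcX
        exact ⟨C, hC.trans hX, h2⟩
      · have h3 : sm (Z \ X) = 0 := by rw [sm_sdiff hX, h0, h, add_zero]
        have h4 : Z \ X ⊂ Z := by
          apply Finset.ssubset_iff_subset_ne.mpr
          refine ⟨Finset.sdiff_subset, fun h5 => ?_⟩
          obtain ⟨x, hx⟩ := hne
          have := hX hx
          rw [← h5] at this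
          exact (Finset.mem_sdiff.mp this).2 hx
        obtain ⟨C, hC, h2⟩ := ih (Z \ X) h4 h3 (Finset.mem_sdiff.mpr ⟨hc, hcX⟩)
        exact ⟨C, hC.trans Finset.sdiff_subset, h2⟩

/-- minimal `P`-sets and minimal `P+e`-sets are disjoint -/
lemma disj_PQ {Ω : Finset V} {e P : V} (hP : ∀ A ⊆ Ω, sm A = e → ∃ X ⊆ A, sm X = P) :
    ∀ (n : ℕ) (A B : Finset V), A ⊆ Ω → B ⊆ Ω → MP P A → MP (P + e) B → (A \ B).card = n →
      Disjoint A B := by
  intro n
  induction n using Nat.strong_induction_on with
  | _ n ih =>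
    intro A B hA hB hAP hBQ hn
    by_contra hnd
    have hsm : sm (A ∆ B) = e := by
      rw [sm_symmDiff, hAP.1, hBQ.1, ← add_assoc, self_add, zero_add]
    have hsub : A ∆ B ⊆ Ω := by
      intro x hx
      rw [Finset.mem_symmDiff] at hx
      rcases hx with hx | hx
      · exact hA hx.1
      · exact hB hx.1
    obtain ⟨Y0, hY0, hY0P⟩ := hP _ hsub hsm
    obtain ⟨Y, hY, hYP⟩ := exists_MP Y0 hY0P
    have hYD : Y ⊆ A ∆ B := hY.trans hY0
    -- Y meets B
    have hYB : ¬ Disjoint Y B := by
      intro hd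
      have h1 : Y ⊆ A := by
        intro x hx
        have := hYD hx
        rw [Finset.mem_symmDiff] at this
        rcases this with h | h
        · exact h.1
        · exact absurd h.1 (Finset.disjoint_left.mp hd hx)
      have h2 := hAP.2 Y h1 hYP.1
      rw [h2] at hd
      exact hnd hd
    have hYA : Y \ B ⊆ A \ B := by
      intro x hx
      rw [Finset.mem_sdiff] at hx ⊢
      have := hYD hx.1
      rw [Finset.mem_symmDiff] at this
      rcases this with h | h
      · exact h
      · exact absurd h.1 hx.2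
    have hcard : (A \ B).card ≤ (Y \ B).card := by
      by_contra hlt
      push Not at hlt
      exact hYB (ih _ (hn ▸ hlt) Y B (hYD.trans hsub) hB hYP hBQ rfl)
    have heq : Y \ B = A \ B := Finset.eq_of_subset_of_card_le hYA hcard
    -- sums
    have h1 : sm A = sm (A \ B) + sm (A ∩ B) := by
      rw [← sm_union (Finset.disjoint_sdiff_inter A B), Finset.sdiff_union_inter]
    have h2 : sm Y = sm (Y \ B) + sm (Y ∩ B) := by
      rw [← sm_union (Finset.disjoint_sdiff_inter Y B), Finset.sdiff_union_inter]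
    have h3 : sm (A ∩ B) = sm (Y ∩ B) := by
      rw [hAP.1] at h1
      rw [hYP.1, heq] at h2
      exact add_left_cancel (h1.symm.trans h2)
    have h4 : Disjoint (A ∩ B) (Y ∩ B) := by
      rw [Finset.disjoint_left]
      intro x hx hy
      rw [Finset.mem_inter] at hx hy
      have := hYD hy.1
      rw [Finset.mem_symmDiff] at this
      rcases this with h | h
      · exact h.2 hx.2
      · exact h.2 hx.1
    have h5 : sm ((A ∩ B) ∪ (Y ∩ B)) = 0 := by
      rw [sm_union h4, h3, self_add]
    have h6 := hBQ.indep (Finset.union_subset Finset.inter_subset_right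
      Finset.inter_subset_right) h5
    apply hnd
    rw [Finset.disjoint_iff_inter_eq_empty]
    rw [Finset.union_eq_empty] at h6
    exact h6.1

/-- a circuit meeting a minimal `P`-set consists of elements of minimal `P`-sets -/
lemma circ_mem {Ω : Finset V} {P : V} :
    ∀ (n : ℕ) (A C : Finset V) (c : V), A ⊆ Ω → C ⊆ Ω → MP P A → Circ C → ¬ Disjoint A C →
      c ∈ C → (C \ A).card = n → ∃ A' ⊆ Ω, MP P A' ∧ c ∈ A' := by
  intro n
  induction n using Nat.strong_induction_on with
  | _ n ih =>
    intro A C c hA hC hAP hCC hnd hc hn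
    by_cases hcA : c ∈ A
    · exact ⟨A, hA, hAP, hcA⟩
    have hsm : sm (A ∆ C) = P := by
      rw [sm_symmDiff, hAP.1, hCC.2.1, add_zero]
    have hsub : A ∆ C ⊆ Ω := by
      intro x hx
      rw [Finset.mem_symmDiff] at hx
      rcases hx with hx | hx
      · exact hA hx.1
      · exact hC hx.1
    obtain ⟨A', hA', hA'P⟩ := exists_MP _ hsm
    by_cases hcA' : c ∈ A'
    · exact ⟨A', hA'.trans hsub, hA'P, hcA'⟩
    have h0 : sm ((A ∆ C) \ A') = 0 := by
      rw [sm_sdiff hA', hsm, hA'P.1, self_add]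
    have hcD : c ∈ (A ∆ C) \ A' := by
      rw [Finset.mem_sdiff, Finset.mem_symmDiff]
      exact ⟨Or.inr ⟨hc, hcA⟩, hcA'⟩
    obtain ⟨C', hC', hcC', hC'C⟩ := exists_circ _ h0 hcD
    have hC'D : C' ⊆ A ∆ C := hC'.trans Finset.sdiff_subset
    -- C' meets A
    have hne : C' ≠ C := by
      intro h
      apply hnd
      rw [Finset.disjoint_left]
      intro x hx hxC
      rw [← h] at hxC
      have h2 := hC'D hxC
      rw [h] at hxC
      rw [Finset.mem_symmDiff] at h2
      rcases h2 with h3 | h3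
      · exact h3.2 hxC
      · exact h3.2 hx
    have hnd' : ¬ Disjoint A C' := by
      intro hd
      have h1 : C' ⊆ C := by
        intro x hx
        have := hC'D hx
        rw [Finset.mem_symmDiff] at this
        rcases this with h | h
        · exact absurd hx (Finset.disjoint_left.mp hd h.1)
        · exact h.1
      rcases hCC.2.2 C' h1 hC'C.2.1 with h2 | h2
      · rw [h2] at hcC'; exact absurd hcC' (Finset.notMem_empty _)
      · exact hne h2
    have hss : C' \ A ⊆ C \ A := by
      intro x hx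
      rw [Finset.mem_sdiff] at hx ⊢
      have := hC'D hx.1
      rw [Finset.mem_symmDiff] at this
      rcases this with h | h
      · exact absurd h.1 hx.2
      · exact h
    have hcard : (C' \ A).card < n := by
      rw [← hn]
      apply Finset.card_lt_card
      apply Finset.ssubset_iff_subset_ne.mpr
      refine ⟨hss, fun h => ?_⟩
      apply hne
      have h1 : C' ∆ C ⊆ A := by
        intro x hx
        rw [Finset.mem_symmDiff] at hx
        by_contra hxA
        rcases hx with hx | hx
        · have : x ∈ C' \ A := Finset.mem_sdiff.mpr ⟨hx.1, hxA⟩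
          rw [h] at this
          exact hx.2 (Finset.mem_sdiff.mp this).1
        · have : x ∈ C \ A := Finset.mem_sdiff.mpr ⟨hx.1, hxA⟩
          rw [← h] at this
          exact hx.2 (Finset.mem_sdiff.mp this).1
      have h2 : sm (C' ∆ C) = 0 := by rw [sm_symmDiff, hC'C.2.1, hCC.2.1, add_zero]
      have h3 := hAP.indep h1 h2
      exact symmDiff_eq_bot.mp h3
    exact ih _ hcard A C' c hA (hC'D.trans hsub) hAP hC'C hnd' hcC' rfl

/-- one step of the sign lemma -/
theorem sign_step (Ω : Finset V) (e P : V) (hP : ∀ A ⊆ Ω, sm A = e → ∃ X ⊆ A, sm X = P) :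
    ∃ S : Finset V, (∀ A ⊆ Ω, sm A = e → sm (A ∩ S) = P) ∧
      (∀ C ⊆ Ω, sm C = 0 → sm (C ∩ S) = 0) := by
  classical
  set S : Finset V := Ω.filter (fun x => ∃ A ⊆ Ω, MP P A ∧ x ∈ A) with hS
  have memS : ∀ x, x ∈ S ↔ x ∈ Ω ∧ ∃ A ⊆ Ω, MP P A ∧ x ∈ A := by
    intro x; rw [hS, Finset.mem_filter]
  have hcirc : ∀ C ⊆ Ω, Circ C → C ∩ S = ∅ ∨ C ∩ S = C := by
    intro C hC hCC
    by_cases h : C ∩ S = ∅
    · exact Or.inl h
    · right
      obtain ⟨x, hx⟩ := Finset.nonempty_iff_ne_empty.mpr h
      rw [Finset.mem_inter, memS] at hx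
      obtain ⟨hxC, hxΩ, A, hA, hAP, hxA⟩ := hx
      apply Finset.inter_eq_left.mpr
      intro c hc
      rw [memS]
      refine ⟨hC hc, ?_⟩
      exact circ_mem _ A C c hA hC hAP hCC
        (fun hd => Finset.disjoint_left.mp hd hxA hxC) hc rfl
  have hzero : ∀ C ⊆ Ω, sm C = 0 → sm (C ∩ S) = 0 := by
    intro C
    induction C using Finset.strongInduction with
    | H C ih =>
      intro hC h0
      rcases Finset.eq_empty_or_nonempty C with h | ⟨c, hc⟩
      · rw [h, Finset.empty_inter, sm_empty]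
      obtain ⟨C1, hC1, hcC1, hC1C⟩ := exists_circ C h0 hc
      have h1 : sm (C \ C1) = 0 := by rw [sm_sdiff hC1, h0, hC1C.2.1, add_zero]
      have h2 : C \ C1 ⊂ C := by
        apply Finset.ssubset_iff_subset_ne.mpr
        refine ⟨Finset.sdiff_subset, fun h5 => ?_⟩
        have := hc
        rw [← h5] at this
        exact (Finset.mem_sdiff.mp this).2 hcC1
      have h3 := ih _ h2 (Finset.sdiff_subset.trans hC) h1
      have h4 : C ∩ S = ((C \ C1) ∩ S) ∪ (C1 ∩ S) := by
        ext x
        simp only [Finset.mem_inter, Finset.mem_union, Finset.mem_sdiff]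
        constructor
        · rintro ⟨h5, h6⟩
          by_cases h7 : x ∈ C1
          · exact Or.inr ⟨h7, h6⟩
          · exact Or.inl ⟨⟨h5, h7⟩, h6⟩
        · rintro (⟨⟨h5, -⟩, h6⟩ | ⟨h5, h6⟩)
          · exact ⟨h5, h6⟩
          · exact ⟨hC1 h5, h6⟩
      have h5 : Disjoint ((C \ C1) ∩ S) (C1 ∩ S) := by
        rw [Finset.disjoint_left]
        intro x hx hy
        rw [Finset.mem_inter, Finset.mem_sdiff] at hx
        rw [Finset.mem_inter] at hy
        exact hx.1.2 hy.1
      rw [h4, sm_union h5, h3, zero_add]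
      rcases hcirc C1 (hC1.trans hC) hC1C with h6 | h6
      · rw [h6, sm_empty]
      · rw [h6, hC1C.2.1]
  refine ⟨S, ?_, hzero⟩
  intro A hA hAe
  obtain ⟨X0, hX0, hX0P⟩ := hP A hA hAe
  obtain ⟨X, hX, hXP⟩ := exists_MP X0 hX0P
  have hXA := hX.trans hX0
  have hQ : sm (A \ X) = P + e := by rw [sm_sdiff hXA, hAe, hXP.1, add_comm]
  obtain ⟨Y, hY, hYQ⟩ := exists_MP _ hQ
  have hZ : sm ((A \ X) \ Y) = 0 := by rw [sm_sdiff hY, hQ, hYQ.1, self_add]
  have hXS : X ∩ S = X := by
    apply Finset.inter_eq_left.mpr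
    intro x hx
    rw [memS]
    exact ⟨hA (hXA hx), X, hXA.trans hA, hXP, hx⟩
  have hYS : Y ∩ S = ∅ := by
    rw [Finset.eq_empty_iff_forall_notMem]
    intro x hx
    rw [Finset.mem_inter, memS] at hx
    obtain ⟨hxY, -, A', hA', hA'P, hxA'⟩ := hx
    have := disj_PQ hP _ A' Y hA' ((hY.trans Finset.sdiff_subset).trans hA) hA'P hYQ rfl
    exact Finset.disjoint_left.mp this hxA' hxY
  have h1 : A ∩ S = (X ∩ S) ∪ ((Y ∩ S) ∪ (((A \ X) \ Y) ∩ S)) := by
    ext x
    simp only [Finset.mem_inter, Finset.mem_union, Finset.mem_sdiff]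
    constructor
    · rintro ⟨h5, h6⟩
      by_cases h7 : x ∈ X
      · exact Or.inl ⟨h7, h6⟩
      · by_cases h8 : x ∈ Y
        · exact Or.inr (Or.inl ⟨h8, h6⟩)
        · exact Or.inr (Or.inr ⟨⟨⟨h5, h7⟩, h8⟩, h6⟩)
    · rintro (⟨h5, h6⟩ | ⟨h5, h6⟩ | ⟨⟨⟨h5, -⟩, -⟩, h6⟩)
      · exact ⟨hXA h5, h6⟩
      · exact ⟨(Finset.mem_sdiff.mp (hY h5)).1, h6⟩
      · exact ⟨h5, h6⟩
  have h2 : Disjoint (X ∩ S) ((Y ∩ S) ∪ (((A \ X) \ Y) ∩ S)) := by
    rw [Finset.disjoint_left]
    intro x hx hy
    simp only [Finset.mem_inter, Finset.mem_union, Finset.mem_sdiff] at hx hy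
    rcases hy with hy | hy
    · exact (Finset.mem_sdiff.mp (hY hy.1)).2 hx.1
    · exact hy.1.1.2 hx.1
  rw [h1, sm_union h2, hXS, hYS, Finset.empty_union, hXP.1,
    hzero _ ((Finset.sdiff_subset.trans Finset.sdiff_subset).trans hA) hZ, add_zero]

/-- the sign lemma -/
theorem sign_lemma (κ : Finset V → V) (Ω : Finset V)
    (hadd : ∀ S S' : Finset V, S ⊆ Ω → S' ⊆ Ω → sm S = 0 → sm S' = 0 → κ (S ∆ S') = κ S + κ S')
    (hgood : ∀ S : Finset V, S ⊆ Ω → sm S = 0 → ∃ X ⊆ S, κ S = sm X) :
    ∃ T : Finset V, ∀ S : Finset V, S ⊆ Ω → sm S = 0 → κ S = sm (S ∩ T) := by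
  classical
  induction Ω using Finset.induction_on generalizing κ with
  | empty =>
    refine ⟨∅, ?_⟩
    intro S hS h0
    obtain ⟨X, hX, hX2⟩ := hgood S hS h0
    have h1 : S = ∅ := Finset.subset_empty.mp hS
    have h2 : X = ∅ := Finset.subset_empty.mp (hX.trans hS)
    rw [hX2, h2, h1, Finset.empty_inter]
  | insert e Ω he ih =>
    have hsub : Ω ⊆ insert e Ω := Finset.subset_insert _ _
    obtain ⟨T0, hT0⟩ := ih κ (fun S S' hS hS' => hadd S S' (hS.trans hsub) (hS'.trans hsub))
      (fun S hS => hgood S (hS.trans hsub))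
    set κ' : Finset V → V := fun S => κ S + sm (S ∩ T0) with hκ'
    have hadd' : ∀ S S' : Finset V, S ⊆ insert e Ω → S' ⊆ insert e Ω → sm S = 0 → sm S' = 0 →
        κ' (S ∆ S') = κ' S + κ' S' := by
      intro S S' hS hS' h0 h0'
      simp only [hκ']
      rw [hadd S S' hS hS' h0 h0']
      have h1 : (S ∆ S') ∩ T0 = (S ∩ T0) ∆ (S' ∩ T0) := by
        ext x
        simp only [Finset.mem_inter, Finset.mem_symmDiff]
        tauto
      rw [h1, sm_symmDiff]; abel
    have hgood' : ∀ S : Finset V, S ⊆ insert e Ω → sm S = 0 → ∃ X ⊆ S, κ' S = sm X := by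
      intro S hS h0
      obtain ⟨X, hX, hX2⟩ := hgood S hS h0
      refine ⟨X ∆ (S ∩ T0), ?_, ?_⟩
      · intro x hx
        rw [Finset.mem_symmDiff] at hx
        rcases hx with h | h
        · exact hX h.1
        · exact (Finset.mem_inter.mp h.1).1
      · simp only [hκ']
        rw [hX2, sm_symmDiff]
    have hz : ∀ S : Finset V, S ⊆ Ω → sm S = 0 → κ' S = 0 := by
      intro S hS h0
      simp only [hκ']
      rw [hT0 S hS h0, self_add]
    -- the constant value
    obtain ⟨P, hPall⟩ : ∃ P : V, ∀ A ⊆ Ω, sm A = e → κ' (insert e A) = P := by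
      by_cases hex : ∃ A ⊆ Ω, sm A = e
      · obtain ⟨A0, hA0, hA0e⟩ := hex
        refine ⟨κ' (insert e A0), ?_⟩
        intro A hA hAe
        have heA : e ∉ A := fun h => he (hA h)
        have heA0 : e ∉ A0 := fun h => he (hA0 h)
        have hs : sm (insert e A) = 0 := by
          unfold sm
          rw [Finset.sum_insert heA]
          have : ∑ a ∈ A, a = e := hAe
          rw [this, self_add]
        have hs0 : sm (insert e A0) = 0 := by
          unfold sm
          rw [Finset.sum_insert heA0]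
          have : ∑ a ∈ A0, a = e := hA0e
          rw [this, self_add]
        have h1 := hadd' (insert e A) (insert e A0) (Finset.insert_subset_insert _ hA)
          (Finset.insert_subset_insert _ hA0) hs hs0
        have h2 : (insert e A) ∆ (insert e A0) ⊆ Ω := by
          intro x hx
          rw [Finset.mem_symmDiff, Finset.mem_insert, Finset.mem_insert] at hx
          rcases hx with ⟨h3, h4⟩ | ⟨h3, h4⟩
          · rcases h3 with h3 | h3
            · exact absurd (Or.inl h3) h4
            · exact hA h3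
          · rcases h3 with h3 | h3
            · exact absurd (Or.inl h3) h4
            · exact hA0 h3
        rw [hz _ h2 (by rw [sm_symmDiff, hs, hs0, add_zero])] at h1
        exact add_eq_zero_iff'.mp h1.symm
      · push Not at hex
        exact ⟨0, fun A hA hAe => absurd hAe (hex A hA)⟩
    have hP : ∀ A ⊆ Ω, sm A = e → ∃ X ⊆ A, sm X = P := by
      intro A hA hAe
      have heA : e ∉ A := fun h => he (hA h)
      have hs : sm (insert e A) = 0 := by
        unfold sm
        rw [Finset.sum_insert heA]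
        have : ∑ a ∈ A, a = e := hAe
        rw [this, self_add]
      obtain ⟨X, hX, hX2⟩ := hgood' (insert e A) (Finset.insert_subset_insert _ hA) hs
      rw [hPall A hA hAe] at hX2
      by_cases hex : e ∈ X
      · refine ⟨A \ (X.erase e), Finset.sdiff_subset, ?_⟩
        have h1 : X.erase e ⊆ A := by
          intro x hx
          rw [Finset.mem_erase] at hx
          rcases Finset.mem_insert.mp (hX hx.2) with h | h
          · exact absurd h hx.1
          · exact h
        rw [sm_sdiff h1, hAe]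
        have h2 : e + sm (X.erase e) = sm X := by
          unfold sm
          exact Finset.add_sum_erase X (fun a => a) hex
        rw [h2, hX2]
      · refine ⟨X, ?_, hX2.symm⟩
        intro x hx
        rcases Finset.mem_insert.mp (hX hx) with h | h
        · rw [h] at hx; exact absurd hx hex
        · exact h
    obtain ⟨S, hS1, hS2⟩ := sign_step Ω e P hP
    -- final set
    refine ⟨T0 ∆ (S.erase e), ?_⟩
    have hinter : ∀ Z : Finset V, Z ∩ (T0 ∆ (S.erase e)) = (Z ∩ T0) ∆ (Z ∩ (S.erase e)) := by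
      intro Z
      ext x
      simp only [Finset.mem_inter, Finset.mem_symmDiff]
      tauto
    intro Z hZ h0
    rw [hinter, sm_symmDiff]
    have key : κ' Z = sm (Z ∩ (S.erase e)) := by
      by_cases heZ : e ∈ Z
      · have hA : Z.erase e ⊆ Ω := by
          intro x hx
          rw [Finset.mem_erase] at hx
          rcases Finset.mem_insert.mp (hZ hx.2) with h | h
          · exact absurd h hx.1
          · exact h
        have hAe : sm (Z.erase e) = e := by
          have h2 : e + sm (Z.erase e) = sm Z := by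
            unfold sm
            exact Finset.add_sum_erase Z (fun a => a) heZ
          rw [h0] at h2
          exact (add_eq_zero_iff'.mp h2).symm
        have h1 := hPall _ hA hAe
        rw [Finset.insert_erase heZ] at h1
        rw [h1, ← hS1 _ hA hAe]
        congr 1
        ext x
        simp only [Finset.mem_inter, Finset.mem_erase]
        tauto
      · have hA : Z ⊆ Ω := by
          intro x hx
          rcases Finset.mem_insert.mp (hZ hx) with h | h
          · rw [h] at hx; exact absurd hx heZ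
          · exact h
        rw [hz Z hA h0, ← hS2 Z hA h0]
        congr 1
        ext x
        simp only [Finset.mem_inter, Finset.mem_erase]
        constructor
        · rintro ⟨h1, h2⟩
          exact ⟨h1, fun h3 => heZ (h3 ▸ h1), h2⟩
        · rintro ⟨h1, -, h2⟩
          exact ⟨h1, h2⟩
    rw [← key]
    simp only [hκ']
    have : sm (Z ∩ T0) + (κ Z + sm (Z ∩ T0)) = κ Z + (sm (Z ∩ T0) + sm (Z ∩ T0)) := by abel
    rw [this, self_add, add_zero]

end comb

end Pool.Agent.Run7.h698.Von
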