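import Pool.Agent.Run7.h698.VonD

set_option autoImplicit false

open scoped symmDiff

namespace Pool.Agent.Run7.h698.Von

open Pool.Agent.K7.H30.Vo

section split

variable {L V : Type} [AddCommGroup L] [AddCommGroup V] [Module (ZMod 2) V]
  {Λ : Lat L V} (M : Λ.MinSys)

/-- vectors that are not strict minimal vectors split -/
lemma exists_split {z : L} (hz0 : z ≠ 0) (h : ¬ (St M.f (Λ.pr z) ∧ Λ.q z ≤ M.f (Λ.pr z))) :
    ∃ r s : L, r ≠ 0 ∧ s ≠ 0 ∧ r + s = z ∧ Λ.q r + Λ.q s ≤ Λ.q z := by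
  by_cases hlt : M.f (Λ.pr z) < Λ.q z
  · have h1 := w_q M z
    refine ⟨w1 M z, w2 M z, ?_, ?_, w_sum M z, by linarith⟩
    · intro h2
      have h3 := w_sum M z
      rw [h2, zero_add] at h3
      rw [h2, h3, Λ.q_zero] at h1
      linarith
    · intro h2
      have h3 := w_sum M z
      rw [h2, add_zero] at h3
      rw [h2, h3, Λ.q_zero] at h1
      linarith
  have hz := not_lt.mp hlt
  have hst : ¬ St M.f (Λ.pr z) := fun h1 => h ⟨h1, hz⟩
  have hc0 : Λ.pr z ≠ 0 := by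
    intro hc0
    rw [hc0, M.f_zero] at hz
    exact hz0 (Λ.eq_zero_of_q hz)
  obtain ⟨x, hx, hxq, hx1, hx2⟩ : ∃ x, Λ.pr x = Λ.pr z ∧ Λ.q x ≤ M.f (Λ.pr z) ∧ x ≠ z ∧ x ≠ -z := by
    by_contra hno
    push Not at hno
    apply hst
    apply St_of_uniq M hc0
    intro x hx hxq
    have h1 : M.y (Λ.pr z) = z ∨ M.y (Λ.pr z) = -z := by
      by_contra h
      push Not at h
      exact h.2 (hno _ (M.pr_y _) (le_refl _) h.1)
    have h2 : x = z ∨ x = -z := by
      by_contra h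
      push Not at h
      exact h.2 (hno x hx hxq h.1)
    rcases h1 with h1 | h1 <;> rcases h2 with h2 | h2
    · left; rw [h1, h2]
    · right; rw [h1, h2]
    · right; rw [h1, h2, neg_neg]
    · left; rw [h1, h2]
  have p1 : Λ.pr (z + x) = 0 := by rw [map_add, hx, self_add]
  set r := Lat.half (z + x) with hr
  have hr2 : r + r = z + x := Λ.half_add p1
  set s := r - x with hs
  have hxrs : r + s = z := by
    rw [hs]
    have : r + (r - x) = (r + r) - x := by abel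
    rw [this, hr2]; abel
  have hyrs : r - s = x := by rw [hs]; abel
  have hr0 : r ≠ 0 := by
    intro h0
    apply hx2
    rw [h0, add_zero] at hr2
    rw [← add_eq_zero_iff_eq_neg, add_comm]; exact hr2.symm
  have hs0 : s ≠ 0 := by
    intro h0
    apply hx1
    rw [h0, add_zero] at hxrs
    rw [h0, sub_zero] at hyrs
    rw [← hxrs, hyrs]
  have hq2 : Λ.q z + Λ.q x = 2 * Λ.q r + 2 * Λ.q s := by
    have e1 : Λ.q z = Λ.q r + Λ.q s + 2 * Λ.b r s := by rw [← Λ.q_add, hxrs]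
    have e2 : Λ.q x = Λ.q r + Λ.q s - 2 * Λ.b r s := by rw [← Λ.q_sub, hyrs]
    rw [e1, e2]; ring
  have qz : M.f (Λ.pr z) ≤ Λ.q z := M.f_le z
  exact ⟨r, s, hr0, hs0, hxrs, by linarith⟩

/-- splitting a strict minimal vector costs energy -/
lemma St.split {M : Λ.MinSys} {a : V} (h : St M.f a) {r s : L} (hrs : r + s = M.y a)
    (hq : Λ.q r + Λ.q s ≤ M.f a) : r = 0 ∨ s = 0 := by
  by_contra hne
  push Not at hne
  obtain ⟨hr0, hs0⟩ := hne
  have prs : Λ.pr r + Λ.pr s = a := by rw [← map_add, hrs, M.pr_y]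
  have q1 := M.f_le r
  have q2 := M.f_le s
  have qr := Λ.q_pos hr0
  have qs := Λ.q_pos hs0
  by_cases h1 : Λ.pr r = 0
  · rw [h1, zero_add] at prs
    rw [prs] at q2
    linarith
  by_cases h2 : Λ.pr r = a
  · rw [h2] at q1
    linarith
  have h3 := h.2 _ h1 h2
  have h4 : a + Λ.pr r = Λ.pr s := by
    rw [← prs, add_comm (Λ.pr r), add_assoc, self_add, add_zero]
  rw [h4] at h3
  linarith

/-- a class-minimal vector is at most any splitting -/
lemma min_split {z : L} (hz : Λ.q z ≤ M.f (Λ.pr z)) {r s : L} (hrs : r + s = z) :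
    Λ.q z ≤ Λ.q r + Λ.q s := by
  have h1 := M.f_le r
  have h2 := M.f_le s
  have h3 := f_sub M (Λ.pr r) (Λ.pr s)
  rw [← map_add, hrs] at h3
  linarith

end split

section dec

variable {L V : Type} [AddCommGroup L] [AddCommGroup V] [Module (ZMod 2) V] [Fintype V]
  [DecidableEq V] {Λ : Lat L V} (M : Λ.MinSys)

/-- energy of an integral combination -/
noncomputable def en (m : V → ℤ) : ℝ := ∑ a, |(m a : ℝ)| * M.f a

/-- supported on strict classes -/
def Sup (m : V → ℤ) : Prop := ∀ a, m a ≠ 0 → St M.f a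

lemma Sup.add {M : Λ.MinSys} {m m' : V → ℤ} (h : Sup M m) (h' : Sup M m') : Sup M (m + m') := by
  intro a ha
  by_contra hns
  apply ha
  have k1 : m a = 0 := by by_contra hh; exact hns (h a hh)
  have k2 : m' a = 0 := by by_contra hh; exact hns (h' a hh)
  rw [Pi.add_apply, k1, k2]; rfl

lemma en_add_le (m m' : V → ℤ) : en M (m + m') ≤ en M m + en M m' := by
  unfold en
  rw [← Finset.sum_add_distrib]
  apply Finset.sum_le_sum
  intro a _
  rw [Pi.add_apply]
  push_cast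
  have h1 := abs_add_le (m a : ℝ) (m' a : ℝ)
  have h2 := M.f_nonneg a
  nlinarith

lemma en_nonneg (m : V → ℤ) : 0 ≤ en M m := by
  unfold en
  apply Finset.sum_nonneg
  intro a _
  exact mul_nonneg (abs_nonneg _) (M.f_nonneg a)

lemma en_zero : en M 0 = 0 := by
  unfold en
  apply Finset.sum_eq_zero
  intro a _
  simp

lemma en_single (a : V) (k : ℤ) : en M (Pi.single a k) = |(k : ℝ)| * M.f a := by
  unfold en
  rw [Finset.sum_eq_single a]
  · rw [Pi.single_eq_same]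
  · intro b _ hb
    rw [Pi.single_eq_of_ne hb]; simp
  · intro h; exact absurd (Finset.mem_univ a) h

lemma en_eq_zero {m : V → ℤ} (hm : Sup M m) (h : en M m ≤ 0) : m = 0 := by
  funext a
  by_contra ha
  have ha' : m a ≠ 0 := ha
  have h1 := (hm a ha').1
  have h2 := M.f_pos h1
  have h3 : |(m a : ℝ)| * M.f a ≤ en M m := by
    unfold en
    exact Finset.single_le_sum (f := fun a => |(m a : ℝ)| * M.f a)
      (fun b _ => mul_nonneg (abs_nonneg _) (M.f_nonneg b)) (Finset.mem_univ a)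
  have h4 : 0 < |(m a : ℝ)| := abs_pos.mpr (by exact_mod_cast ha')
  have := mul_pos h4 h2
  linarith

lemma exists_dec : ∀ v : L, ∃ m : V → ℤ, Sup M m ∧ cmb M m = v ∧ en M m ≤ Λ.q v := by
  apply Λ.induction_q (P := fun v => ∃ m : V → ℤ, Sup M m ∧ cmb M m = v ∧ en M m ≤ Λ.q v)
  intro v ih
  by_cases hv0 : v = 0
  · refine ⟨0, fun a ha => absurd rfl ha, ?_, ?_⟩
    · rw [cmb_zero, hv0]
    · rw [en_zero, hv0, Λ.q_zero]
  by_cases hst : St M.f (Λ.pr v) ∧ Λ.q v ≤ M.f (Λ.pr v)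
  · have hsup : ∀ k : ℤ, Sup M (Pi.single (Λ.pr v) k) := by
      intro k b hb
      by_cases h : b = Λ.pr v
      · rw [h]; exact hst.1
      · rw [Pi.single_eq_of_ne h] at hb; exact absurd rfl hb
    have hle := M.f_le v
    rcases hst.1.uniq rfl hst.2 with h | h
    · refine ⟨Pi.single (Λ.pr v) 1, hsup 1, ?_, ?_⟩
      · rw [cmb_single, one_zsmul]; exact h.symm
      · rw [en_single]; simpa using hle
    · refine ⟨Pi.single (Λ.pr v) (-1), hsup (-1), ?_, ?_⟩
      · rw [cmb_single, neg_one_zsmul]; exact h.symm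
      · rw [en_single]; simpa using hle
  · obtain ⟨r, s, hr0, hs0, hrs, hq⟩ := exists_split M hv0 hst
    have qr := Λ.q_pos hr0
    have qs := Λ.q_pos hs0
    obtain ⟨m1, a1, b1, c1⟩ := ih r (by linarith)
    obtain ⟨m2, a2, b2, c2⟩ := ih s (by linarith)
    refine ⟨m1 + m2, a1.add a2, ?_, ?_⟩
    · rw [cmb_add, b1, b2, hrs]
    · have := en_add_le M m1 m2
      linarith

/-- decomposition of minimal energy -/
def MinDec (v : L) (m : V → ℤ) : Prop :=
  Sup M m ∧ cmb M m = v ∧ ∀ m' : V → ℤ, Sup M m' → cmb M m' = v → en M m ≤ en M m'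

lemma exists_minDec (v : L) : ∃ m, MinDec M v m := by
  obtain ⟨m0, h1, h2, h3⟩ := exists_dec M v
  set A : Set (V → ℤ) := {m | Sup M m ∧ cmb M m = v ∧ en M m ≤ en M m0} with hA
  have hfin : A.Finite := by
    have hK : ∀ a : V, ∃ K : ℕ, a ≠ 0 → en M m0 / M.f a ≤ K := by
      intro a
      obtain ⟨K, hK⟩ := exists_nat_ge (en M m0 / M.f a)
      exact ⟨K, fun _ => hK⟩
    choose K hK using hK
    apply Set.Finite.subset (Set.finite_Icc (fun a : V => -(K a : ℤ)) (fun a => (K a : ℤ)))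
    intro m hm
    simp only [hA, Set.mem_ofPred_eq] at hm
    have key : ∀ a, |m a| ≤ (K a : ℤ) := by
      intro a
      by_cases ha : m a = 0
      · rw [ha, abs_zero]; exact Int.natCast_nonneg _
      have hst := hm.1 a ha
      have hpos := M.f_pos hst.1
      have h4 : |(m a : ℝ)| * M.f a ≤ en M m := by
        unfold en
        exact Finset.single_le_sum (f := fun a => |(m a : ℝ)| * M.f a)
          (fun b _ => mul_nonneg (abs_nonneg _) (M.f_nonneg b)) (Finset.mem_univ a)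
      have h5 : |(m a : ℝ)| ≤ en M m0 / M.f a := by
        rw [le_div_iff₀ hpos]; linarith [hm.2.2]
      have h6 : |(m a : ℝ)| ≤ (K a : ℝ) := le_trans h5 (hK a hst.1)
      exact_mod_cast h6
    rw [Set.mem_Icc]
    exact ⟨fun a => (abs_le.mp (key a)).1, fun a => (abs_le.mp (key a)).2⟩
  obtain ⟨m, hmA, hmin⟩ := Set.exists_min_image A (en M) hfin ⟨m0, h1, h2, le_refl _⟩
  refine ⟨m, hmA.1, hmA.2.1, ?_⟩
  intro m' hs hc
  by_cases h : en M m' ≤ en M m0
  · exact hmin m' ⟨hs, hc, h⟩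
  · exact le_trans hmA.2.2 (not_le.mp h).le

lemma MinDec.le {M : Λ.MinSys} {v : L} {m : V → ℤ} (h : MinDec M v m) : en M m ≤ Λ.q v := by
  obtain ⟨m0, h1, h2, h3⟩ := exists_dec M v
  exact le_trans (h.2.2 m0 h1 h2) h3

/-- `n` lies between `0` and `m` -/
def Sub (n m : V → ℤ) : Prop := ∀ a, (0 ≤ n a ∧ n a ≤ m a) ∨ (m a ≤ n a ∧ n a ≤ 0)

omit [AddCommGroup V] [Module (ZMod 2) V] [Fintype V] [DecidableEq V] in
lemma Sub.abs {n m : V → ℤ} (h : Sub n m) (a : V) : |m a - n a| = |m a| - |n a| := by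
  rcases h a with ⟨h1, h2⟩ | ⟨h1, h2⟩
  · rw [abs_of_nonneg (by omega), abs_of_nonneg (by omega), abs_of_nonneg h1]
  · rw [abs_of_nonpos (by omega), abs_of_nonpos (by omega), abs_of_nonpos h2]; ring

omit [AddCommGroup V] [Module (ZMod 2) V] [Fintype V] [DecidableEq V] in
lemma Sub.ne {n m : V → ℤ} (h : Sub n m) {a : V} (ha : n a ≠ 0) : m a ≠ 0 := by
  rcases h a with ⟨h1, h2⟩ | ⟨h1, h2⟩ <;> omega

omit [AddCommGroup V] [Module (ZMod 2) V] [Fintype V] [DecidableEq V] in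
lemma Sub.ne' {n m : V → ℤ} (h : Sub n m) {a : V} (ha : m a - n a ≠ 0) : m a ≠ 0 := by
  rcases h a with ⟨h1, h2⟩ | ⟨h1, h2⟩ <;> omega

lemma en_sub {n m : V → ℤ} (h : Sub n m) : en M (m - n) = en M m - en M n := by
  unfold en
  rw [← Finset.sum_sub_distrib]
  apply Finset.sum_congr rfl
  intro a _
  rw [Pi.sub_apply]
  have h1 := h.abs a
  have h2 : |((m a - n a : ℤ) : ℝ)| = |(m a : ℝ)| - |(n a : ℝ)| := by
    rw [← Int.cast_abs, h1]; push_cast; rfl
  rw [h2]; ring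

/-- additive map `b(·, x)` -/
noncomputable def bl (Λ : Lat L V) (x : L) : L →+ ℝ where
  toFun := fun z => Λ.b z x
  map_zero' := Λ.zero_left x
  map_add' := fun u v => Λ.add_left u v x

omit [Module (ZMod 2) V] [Fintype V] [DecidableEq V] in
lemma b_zsmul (k : ℤ) (z x : L) : Λ.b (k • z) x = (k : ℝ) * Λ.b z x := by
  have := map_zsmul (bl Λ x) k z
  simp only [bl, AddMonoidHom.coe_mk, ZeroHom.coe_mk, zsmul_eq_mul] at this
  exact this

lemma b_cmb (n : V → ℤ) (x : L) : Λ.b (cmb M n) x = ∑ a, (n a : ℝ) * Λ.b (M.y a) x := by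
  have := map_sum (bl Λ x) (fun a => n a • M.y a) Finset.univ
  simp only [bl, AddMonoidHom.coe_mk, ZeroHom.coe_mk] at this
  unfold cmb
  rw [this]
  apply Finset.sum_congr rfl
  intro a _
  rw [b_zsmul]

lemma b_cmb_cmb (n m : V → ℤ) : Λ.b (cmb M n) (cmb M m) =
    ∑ a, ∑ c, (n a : ℝ) * ((m c : ℝ) * Λ.b (M.y c) (M.y a)) := by
  rw [b_cmb]
  apply Finset.sum_congr rfl
  intro a _
  rw [Λ.symm, b_cmb, Finset.mul_sum]

/-- the two parts of a minimal decomposition pair nonnegatively -/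
lemma MinDec.nonneg {M : Λ.MinSys} {v : L} {m n : V → ℤ} (h : MinDec M v m) (hn : Sub n m) :
    0 ≤ Λ.b (cmb M n) (cmb M (m - n)) := by
  rw [b_cmb_cmb]
  apply Finset.sum_nonneg
  intro a _
  apply Finset.sum_nonneg
  intro c _
  by_contra hneg
  push Not at hneg
  have na0 : n a ≠ 0 := by
    intro h0; rw [h0] at hneg; simp at hneg
  have mc0 : (m - n) c ≠ 0 := by
    intro h0; rw [h0] at hneg; simp at hneg
  have mc0' : m c - n c ≠ 0 := mc0
  have hac : a ≠ c := by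
    rintro rfl
    have h1 : 0 ≤ Λ.b (M.y a) (M.y a) := Λ.q_nonneg _
    have h2 : 0 ≤ (n a : ℝ) * ((m - n) a : ℝ) := by
      rw [Pi.sub_apply]
      rcases hn a with ⟨h3, h4⟩ | ⟨h3, h4⟩
      · have h5 : (0 : ℝ) ≤ (n a : ℝ) := by exact_mod_cast h3
        have h6 : (0 : ℝ) ≤ ((m a - n a : ℤ) : ℝ) := by exact_mod_cast (by omega)
        exact mul_nonneg h5 h6
      · have h5 : (n a : ℝ) ≤ 0 := by exact_mod_cast h4
        have h6 : ((m a - n a : ℤ) : ℝ) ≤ 0 := by exact_mod_cast (by omega)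
        exact mul_nonneg_of_nonpos_of_nonpos h5 h6
    have h7 := mul_nonneg h2 h1
    rw [mul_assoc] at h7
    linarith
  have ma0 : m a ≠ 0 := hn.ne na0
  have mcc : m c ≠ 0 := hn.ne' mc0'
  -- signs
  obtain ⟨σ, hσ1, hσ2, hσ3⟩ : ∃ σ : ℤ, |σ| = 1 ∧ ((0 ≤ σ ∧ σ ≤ m a) ∨ (m a ≤ σ ∧ σ ≤ 0)) ∧
      0 < σ * n a := by
    rcases lt_or_gt_of_ne na0 with h1 | h1
    · refine ⟨-1, by norm_num, Or.inr ⟨?_, by norm_num⟩, by omega⟩
      rcases hn a with h2 | h2 <;> omega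
    · refine ⟨1, by norm_num, Or.inl ⟨by norm_num, ?_⟩, by omega⟩
      rcases hn a with h2 | h2 <;> omega
  obtain ⟨τ, hτ1, hτ2, hτ3⟩ : ∃ τ : ℤ, |τ| = 1 ∧ ((0 ≤ τ ∧ τ ≤ m c) ∨ (m c ≤ τ ∧ τ ≤ 0)) ∧
      0 < τ * (m - n) c := by
    rw [Pi.sub_apply]
    rcases lt_or_gt_of_ne mc0' with h1 | h1
    · refine ⟨-1, by norm_num, Or.inr ⟨?_, by norm_num⟩, by omega⟩
      rcases hn c with h2 | h2 <;> omega
    · refine ⟨1, by norm_num, Or.inl ⟨by norm_num, ?_⟩, by omega⟩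
      rcases hn c with h2 | h2 <;> omega
  set n' : V → ℤ := Pi.single a σ + Pi.single c τ with hn'
  have hn'a : n' a = σ := by
    rw [hn', Pi.add_apply, Pi.single_eq_same, Pi.single_eq_of_ne hac, add_zero]
  have hn'c : n' c = τ := by
    rw [hn', Pi.add_apply, Pi.single_eq_same, Pi.single_eq_of_ne (Ne.symm hac), zero_add]
  have hn'o : ∀ x, x ≠ a → x ≠ c → n' x = 0 := by
    intro x h1 h2
    rw [hn', Pi.add_apply, Pi.single_eq_of_ne h1, Pi.single_eq_of_ne h2, add_zero]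
  have hsub' : Sub n' m := by
    intro x
    by_cases h1 : x = a
    · rw [h1, hn'a]; exact hσ2
    by_cases h2 : x = c
    · rw [h2, hn'c]; exact hτ2
    rw [hn'o x h1 h2]
    omega
  have hen' : en M n' ≤ M.f a + M.f c := by
    have h1 := en_add_le M (Pi.single a σ) (Pi.single c τ)
    rw [en_single, en_single, ← Int.cast_abs, ← Int.cast_abs, hσ1, hτ1] at h1
    push_cast at h1
    linarith
  have hen'' : M.f a + M.f c ≤ en M n' := by
    unfold en
    have h1 : ∑ x ∈ ({a, c} : Finset V), |(n' x : ℝ)| * M.f x ≤ ∑ x, |(n' x : ℝ)| * M.f x :=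
      Finset.sum_le_sum_of_subset_of_nonneg (Finset.subset_univ _)
        (fun x _ _ => mul_nonneg (abs_nonneg _) (M.f_nonneg x))
    rw [Finset.sum_pair hac, hn'a, hn'c, ← Int.cast_abs, ← Int.cast_abs, hσ1, hτ1] at h1
    push_cast at h1
    linarith
  set x := cmb M n' with hx
  have hxe : x = σ • M.y a + τ • M.y c := by
    rw [hx, hn', cmb_add, cmb_single, cmb_single]
  have hσR : (σ : ℝ) * σ = 1 := by
    have h1 : |(σ : ℝ)| = 1 := by rw [← Int.cast_abs, hσ1]; norm_num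
    have h2 := abs_mul_abs_self (σ : ℝ)
    rw [h1] at h2; linarith
  have hτR : (τ : ℝ) * τ = 1 := by
    have h1 : |(τ : ℝ)| = 1 := by rw [← Int.cast_abs, hτ1]; norm_num
    have h2 := abs_mul_abs_self (τ : ℝ)
    rw [h1] at h2; linarith
  have hqx : Λ.q x = M.f a + M.f c + 2 * (σ * τ * Λ.b (M.y a) (M.y c)) := by
    rw [hxe, Λ.q_add]
    have e1 : Λ.q (σ • M.y a) = M.f a := by
      unfold Lat.q
      rw [b_zsmul, Λ.symm, b_zsmul, ← mul_assoc, hσR, one_mul]; rfl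
    have e2 : Λ.q (τ • M.y c) = M.f c := by
      unfold Lat.q
      rw [b_zsmul, Λ.symm, b_zsmul, ← mul_assoc, hτR, one_mul]; rfl
    have e3 : Λ.b (σ • M.y a) (τ • M.y c) = σ * τ * Λ.b (M.y a) (M.y c) := by
      rw [b_zsmul, Λ.symm, b_zsmul, Λ.symm]; ring
    rw [e1, e2, e3]
  have hbneg : (σ : ℝ) * τ * Λ.b (M.y a) (M.y c) < 0 := by
    have h1 : (0 : ℝ) < (σ : ℝ) * (n a : ℝ) := by exact_mod_cast hσ3
    have h2 : (0 : ℝ) < (τ : ℝ) * ((m - n) c : ℝ) := by exact_mod_cast hτ3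
    have h3 : Λ.b (M.y c) (M.y a) = Λ.b (M.y a) (M.y c) := Λ.symm _ _
    rw [h3] at hneg
    have h4 := mul_pos h1 h2
    -- multiply
    by_contra hge
    push Not at hge
    have h5 := mul_nonneg h4.le hge
    have h6 : (σ : ℝ) * (n a : ℝ) * ((τ : ℝ) * ((m - n) c : ℝ)) *
        ((σ : ℝ) * τ * Λ.b (M.y a) (M.y c)) =
        ((σ : ℝ) * σ) * ((τ : ℝ) * τ) * ((n a : ℝ) * (((m - n) c : ℝ) * Λ.b (M.y a) (M.y c))) := by
      ring
    rw [h6, hσR, hτR, one_mul, one_mul] at h5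
    linarith
  obtain ⟨m', k1, k2, k3⟩ := exists_dec M x
  have hsup2 : Sup M (m - n' + m') := by
    apply Sup.add _ k1
    intro y hy
    exact h.1 y (hsub'.ne' hy)
  have hc2 : cmb M (m - n' + m') = v := by
    rw [cmb_add, cmb_sub, k2, h.2.1, ← hx]; abel
  have h3 := h.2.2 _ hsup2 hc2
  have h4 := en_add_le M (m - n') m'
  rw [en_sub M hsub'] at h4
  linarith

lemma MinDec.q_le {M : Λ.MinSys} {v : L} {m n : V → ℤ} (h : MinDec M v m) (hn : Sub n m) :
    Λ.q (cmb M n) + Λ.q (cmb M (m - n)) ≤ Λ.q v := by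
  have h1 := h.nonneg hn
  have h2 : v = cmb M n + cmb M (m - n) := by
    rw [← cmb_add, ← h.2.1]; congr 1; abel
  rw [h2, Λ.q_add]
  linarith

lemma MinDec.zero_of {M : Λ.MinSys} {v : L} {m n : V → ℤ} (h : MinDec M v m) (hn : Sub n m)
    (h0 : cmb M n = 0) : n = 0 := by
  have h1 : Sup M (m - n) := fun a ha => h.1 a (hn.ne' ha)
  have h2 := h.2.2 _ h1 (by rw [cmb_sub, h0, sub_zero, h.2.1])
  rw [en_sub M hn] at h2
  exact en_eq_zero M (fun a ha => h.1 a (hn.ne ha)) (by linarith)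

omit [AddCommGroup V] [Module (ZMod 2) V] [Fintype V] [DecidableEq V] in
lemma Sub.compl {n m : V → ℤ} (h : Sub n m) : Sub (m - n) m := by
  intro a
  rw [Pi.sub_apply]
  rcases h a with ⟨h1, h2⟩ | ⟨h1, h2⟩ <;> omega

lemma MinDec.eq_of {M : Λ.MinSys} {v : L} {m n : V → ℤ} (h : MinDec M v m) (hn : Sub n m)
    (h0 : cmb M (m - n) = 0) : n = m := by
  have := h.zero_of hn.compl h0
  exact (sub_eq_zero.mp this).symm

end dec

end Pool.Agent.Run7.h698.Von
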