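import Pool.Agent.Run7.h698.VonA

set_option autoImplicit false

open scoped symmDiff

namespace Pool.Agent.Run7.h698.Von

open Pool.Agent.K7.H30.Vo

section cmb

variable {L V : Type} [AddCommGroup L] [AddCommGroup V] [Module (ZMod 2) V] [Fintype V]
  {Λ : Lat L V} (M : Λ.MinSys)

/-- integral combination of the minimal vectors -/
noncomputable def cmb (m : V → ℤ) : L := ∑ a, m a • M.y a

lemma pr_cmb (m : V → ℤ) : Λ.pr (cmb M m) = ∑ a, m a • a := by
  unfold cmb
  rw [map_sum]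
  apply Finset.sum_congr rfl
  intro a _
  rw [map_zsmul, M.pr_y]

lemma cmb_add (m m' : V → ℤ) : cmb M (m + m') = cmb M m + cmb M m' := by
  unfold cmb
  rw [← Finset.sum_add_distrib]
  apply Finset.sum_congr rfl
  intro a _
  rw [Pi.add_apply, add_zsmul]

lemma cmb_neg (m : V → ℤ) : cmb M (-m) = - cmb M m := by
  unfold cmb
  rw [← Finset.sum_neg_distrib]
  apply Finset.sum_congr rfl
  intro a _
  rw [Pi.neg_apply, neg_zsmul]

lemma cmb_sub (m m' : V → ℤ) : cmb M (m - m') = cmb M m - cmb M m' := by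
  rw [sub_eq_add_neg, cmb_add, cmb_neg, ← sub_eq_add_neg]

lemma cmb_zero : cmb M 0 = 0 := by
  unfold cmb
  apply Finset.sum_eq_zero
  intro a _
  rw [Pi.zero_apply, zero_zsmul]

lemma cmb_single [DecidableEq V] (a : V) (k : ℤ) : cmb M (Pi.single a k) = k • M.y a := by
  unfold cmb
  rw [Finset.sum_eq_single a]
  · rw [Pi.single_eq_same]
  · intro b _ hb
    rw [Pi.single_eq_of_ne hb, zero_zsmul]
  · intro h; exact absurd (Finset.mem_univ a) h

end cmb

section two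

variable {L L' V : Type} [AddCommGroup L] [AddCommGroup L'] [AddCommGroup V] [Module (ZMod 2) V]
  [Fintype V] [DecidableEq V] {Λ : Lat L V} {Λ' : Lat L' V} (M : Λ.MinSys) (N : Λ'.MinSys)

/-- the half sums agree on all cycles of strict classes -/
def Matched : Prop :=
  ∀ S : Finset V, (∀ a ∈ S, St M.f a) → sm S = 0 → TT N S = TT M S

lemma Matched.symm {M : Λ.MinSys} {N : Λ'.MinSys} (hT : Matched M N) (hf : ∀ v, N.f v = M.f v) :
    Matched N M := by
  intro S hS h0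
  have hff : N.f = M.f := funext hf
  exact (hT S (fun a ha => hff ▸ hS a ha) h0).symm

lemma mod4 (hT : Matched M N) (m : V → ℤ) (hm : ∀ a, m a ≠ 0 → St M.f a) (h0 : cmb M m = 0) :
    ∃ t : L', cmb N m = (t + t) + (t + t) := by
  classical
  set S : Finset V := Finset.univ.filter (fun a => m a % 2 = 1) with hS
  set k : V → ℤ := fun a => m a / 2 with hk
  have hdec : ∀ a, m a = (if a ∈ S then 1 else 0) + (k a + k a) := by
    intro a
    simp only [hS, hk, Finset.mem_filter, Finset.mem_univ, true_and]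
    have h1 := Int.mul_ediv_add_emod (m a) 2
    rcases Int.emod_two_eq_zero_or_one (m a) with h | h
    · rw [h] at h1; rw [h, if_neg (by decide)]; omega
    · rw [h] at h1; rw [h, if_pos rfl]; omega
  have hsplit : ∀ {L0 : Type} [AddCommGroup L0] (y : V → L0),
      ∑ a, m a • y a = ∑ a ∈ S, y a + (∑ a, k a • y a + ∑ a, k a • y a) := by
    intro L0 _ y
    have e1 : ∑ a ∈ S, y a = ∑ a, (if a ∈ S then (1 : ℤ) else 0) • y a := by
      rw [← Finset.sum_subset (Finset.subset_univ S)]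
      · apply Finset.sum_congr rfl
        intro a ha
        rw [if_pos ha, one_zsmul]
      · intro a _ ha
        rw [if_neg ha, zero_zsmul]
    rw [e1, ← Finset.sum_add_distrib, ← Finset.sum_add_distrib]
    apply Finset.sum_congr rfl
    intro a _
    rw [← add_zsmul, ← add_zsmul, ← hdec a]
  have hSs : ∀ a ∈ S, St M.f a := by
    intro a ha
    apply hm
    intro h
    rw [hS, Finset.mem_filter, h] at ha
    exact absurd ha.2 (by decide)
  have e1 := hsplit (fun a => M.y a)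
  have e2 := hsplit (fun a => N.y a)
  have hc : ∑ a ∈ S, M.y a + (cmb M k + cmb M k) = 0 := by
    unfold cmb
    rw [← e1]; exact h0
  have hsm : sm S = 0 := by
    have h1 := congrArg Λ.pr hc
    rw [map_add, pr_sum, map_add, self_add, add_zero, map_zero] at h1
    exact h1
  have hM : (-cmb M k) + (-cmb M k) = ∑ a ∈ S, M.y a := by
    rw [eq_neg_of_add_eq_zero_left hc]; abel
  have h1 : TT M S = Λ.pr (cmb M k) := by rw [TT_eq M hM, pr_neg]
  have h2 := hT S hSs hsm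
  have h3 := half_sum N hsm
  set h' := Lat.half (∑ a ∈ S, N.y a) with hh'
  have h4 : TT N S = Λ'.pr h' := rfl
  have h5 : Λ'.pr (h' + cmb N k) = 0 := by
    rw [map_add, ← h4, h2, h1, pr_cmb, pr_cmb, self_add]
  obtain ⟨t, ht⟩ := Λ'.ker _ h5
  refine ⟨t, ?_⟩
  have h6 : cmb N m = (h' + cmb N k) + (h' + cmb N k) := by
    have : (h' + cmb N k) + (h' + cmb N k) = (h' + h') + (cmb N k + cmb N k) := by abel
    rw [this, h3]
    exact e2
  rw [h6, ht]

/-- corresponding minimal vectors -/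
def RR (z : L) (z' : L') : Prop :=
  ∃ m : V → ℤ, (∀ a, m a ≠ 0 → St M.f a) ∧ cmb M m = z ∧ cmb N m = z' ∧
    Λ.q z ≤ M.f (Λ.pr z) ∧ Λ'.q z' = Λ.q z

lemma RR.pr {M : Λ.MinSys} {N : Λ'.MinSys} {z : L} {z' : L'} (h : RR M N z z') :
    Λ'.pr z' = Λ.pr z := by
  obtain ⟨m, -, h1, h2, -⟩ := h
  rw [← h1, ← h2, pr_cmb, pr_cmb]

lemma RR.neg {M : Λ.MinSys} {N : Λ'.MinSys} {z : L} {z' : L'} (h : RR M N z z') :
    RR M N (-z) (-z') := by
  obtain ⟨m, h0, h1, h2, h3, h4⟩ := h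
  refine ⟨-m, ?_, ?_, ?_, ?_, ?_⟩
  · intro a ha
    apply h0
    intro h
    apply ha
    rw [Pi.neg_apply, h, neg_zero]
  · rw [cmb_neg, h1]
  · rw [cmb_neg, h2]
  · rw [Λ.q_neg, pr_neg]; exact h3
  · rw [Λ'.q_neg, Λ.q_neg]; exact h4

lemma RR.zero : RR M N 0 0 := by
  refine ⟨0, ?_, cmb_zero M, cmb_zero N, ?_, ?_⟩
  · intro a ha; exact absurd rfl ha
  · rw [map_zero, M.f_zero, Λ.q_zero]
  · rw [Λ.q_zero, Λ'.q_zero]

lemma RR.strict (hf : ∀ v, N.f v = M.f v) {a : V} (ha : St M.f a) : RR M N (M.y a) (N.y a) := by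
  refine ⟨Pi.single a 1, ?_, ?_, ?_, ?_, ?_⟩
  · intro b hb
    by_cases h : b = a
    · rw [h]; exact ha
    · rw [Pi.single_eq_of_ne h] at hb; exact absurd rfl hb
  · rw [cmb_single, one_zsmul]
  · rw [cmb_single, one_zsmul]
  · rw [M.pr_y]; exact le_refl _
  · exact hf a

lemma RR.swap {M : Λ.MinSys} {N : Λ'.MinSys} (hf : ∀ v, N.f v = M.f v) {z : L} {z' : L'}
    (h : RR M N z z') : RR N M z' z := by
  have hpr := h.pr
  obtain ⟨m, h0, h1, h2, h3, h4⟩ := h
  have hff : N.f = M.f := funext hf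
  refine ⟨m, fun a ha => hff ▸ h0 a ha, h2, h1, ?_, h4.symm⟩
  rw [hpr, h4, hf]; exact h3

/-- a class-minimal vector pairs with `t` at most `q t` -/
lemma pair_le {z : L} (hz : Λ.q z ≤ M.f (Λ.pr z)) (t : L) : Λ.b z t ≤ Λ.q t := by
  have h1 : Λ.pr (z - (t + t)) = Λ.pr z := by
    rw [map_sub, map_add, self_add, sub_zero]
  have h2 := M.f_le' h1
  have h3 : Λ.q (z - (t + t)) = Λ.q z - 4 * Λ.b z t + 4 * Λ.q t := by
    rw [Λ.q_sub, Λ.q_add, Λ.add_right]
    have : Λ.b t t = Λ.q t := rfl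
    rw [this]; ring
  linarith

/-- three corresponding pairs summing to zero -/
lemma RR.triple (hT : Matched M N) (hf : ∀ v, N.f v = M.f v) {u v w : L} {u' v' w' : L'}
    (hu : RR M N u u') (hv : RR M N v v') (hw : RR M N w w') (h : u + v + w = 0) :
    u' + v' + w' = 0 := by
  have cu := (hu.swap hf)
  have cv := (hv.swap hf)
  have cw := (hw.swap hf)
  obtain ⟨-, -, -, -, cu, -⟩ := cu
  obtain ⟨-, -, -, -, cv, -⟩ := cv
  obtain ⟨-, -, -, -, cw, -⟩ := cw
  obtain ⟨m1, a1, b1, c1, -, -⟩ := hu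
  obtain ⟨m2, a2, b2, c2, -, -⟩ := hv
  obtain ⟨m3, a3, b3, c3, -, -⟩ := hw
  obtain ⟨t, ht⟩ := mod4 M N hT (m1 + m2 + m3) (by
      intro a ha
      by_contra hns
      apply ha
      have k1 : m1 a = 0 := by by_contra h; exact hns (a1 a h)
      have k2 : m2 a = 0 := by by_contra h; exact hns (a2 a h)
      have k3 : m3 a = 0 := by by_contra h; exact hns (a3 a h)
      rw [Pi.add_apply, Pi.add_apply, k1, k2, k3]; rfl)
    (by rw [cmb_add, cmb_add, b1, b2, b3, h])
  rw [cmb_add, cmb_add, c1, c2, c3] at ht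
  have p1 := pair_le N cu t
  have p2 := pair_le N cv t
  have p3 := pair_le N cw t
  have e : Λ'.b (u' + v' + w') t = 4 * Λ'.q t := by
    rw [ht, Λ'.add_left, Λ'.add_left]
    have : Λ'.b t t = Λ'.q t := rfl
    rw [this]; ring
  rw [Λ'.add_left, Λ'.add_left] at e
  have ht0 : t = 0 := Λ'.eq_zero_of_q (by linarith)
  rw [ht, ht0]; abel

lemma RR.unique (hT : Matched M N) (hf : ∀ v, N.f v = M.f v) {z : L} {z' z'' : L'}
    (h1 : RR M N z z') (h2 : RR M N z z'') : z' = z'' := by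
  have h := RR.triple M N hT hf h1 h2.neg (RR.zero M N) (by abel)
  rw [add_zero] at h
  have := eq_neg_of_add_eq_zero_left h
  rw [this, neg_neg]

/-- every class-minimal vector has a correspondent -/
theorem RR.exists (hf : ∀ v, N.f v = M.f v) :
    ∀ z : L, Λ.q z ≤ M.f (Λ.pr z) → ∃ z', RR M N z z' := by
  apply Λ.induction_q (P := fun z => Λ.q z ≤ M.f (Λ.pr z) → ∃ z', RR M N z z')
  intro z ih hz
  by_cases hc0 : Λ.pr z = 0
  · have hz0 : z = 0 := by
      apply Λ.eq_zero_of_q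
      rw [hc0, M.f_zero] at hz
      exact hz
    rw [hz0]
    exact ⟨0, RR.zero M N⟩
  by_cases hst : St M.f (Λ.pr z)
  · rcases hst.uniq rfl hz with h | h
    · exact ⟨_, by rw [h]; exact RR.strict M N hf hst⟩
    · exact ⟨_, by rw [h]; exact (RR.strict M N hf hst).neg⟩
  -- another minimal vector in the class
  obtain ⟨x, hx, hxq, hx1, hx2⟩ : ∃ x, Λ.pr x = Λ.pr z ∧ Λ.q x ≤ M.f (Λ.pr z) ∧ x ≠ z ∧ x ≠ -z := by
    by_contra hno
    push Not at hno
    apply hst
    apply St_of_uniq M hc0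
    intro x hx hxq
    have h1 : M.y (Λ.pr z) = z ∨ M.y (Λ.pr z) = -z := by
      by_contra h
      push Not at h
      exact h.2 (hno _ (M.pr_y _) (le_refl _) h.1)
    have h2 : x = z ∨ x = -z := by
      by_contra h
      push Not at h
      exact h.2 (hno x hx hxq h.1)
    rcases h1 with h1 | h1 <;> rcases h2 with h2 | h2
    · left; rw [h1, h2]
    · right; rw [h1, h2]
    · right; rw [h1, h2, neg_neg]
    · left; rw [h1, h2]
  have p1 : Λ.pr (z + x) = 0 := by rw [map_add, hx, self_add]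
  set r := Lat.half (z + x) with hr
  have hr2 : r + r = z + x := Λ.half_add p1
  set s := r - x with hs
  have hxrs : r + s = z := by
    rw [hs]
    have : r + (r - x) = (r + r) - x := by abel
    rw [this, hr2]; abel
  have hyrs : r - s = x := by rw [hs]; abel
  have hr0 : r ≠ 0 := by
    intro h0
    apply hx2
    rw [h0, add_zero] at hr2
    rw [← add_eq_zero_iff_eq_neg, add_comm]; exact hr2.symm
  have hs0 : s ≠ 0 := by
    intro h0
    apply hx1
    rw [h0, add_zero] at hxrs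
    rw [h0, sub_zero] at hyrs
    rw [← hxrs, hyrs]
  have hq2 : Λ.q z + Λ.q x = 2 * Λ.q r + 2 * Λ.q s := by
    have e1 : Λ.q z = Λ.q r + Λ.q s + 2 * Λ.b r s := by rw [← Λ.q_add, hxrs]
    have e2 : Λ.q x = Λ.q r + Λ.q s - 2 * Λ.b r s := by rw [← Λ.q_sub, hyrs]
    rw [e1, e2]; ring
  have prs : Λ.pr r + Λ.pr s = Λ.pr z := by rw [← map_add, hxrs]
  have hfs := f_sub M (Λ.pr r) (Λ.pr s)
  rw [prs] at hfs
  have q1 := M.f_le r
  have q2 := M.f_le s
  have qr := Λ.q_pos hr0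
  have qs := Λ.q_pos hs0
  have qz : M.f (Λ.pr z) ≤ Λ.q z := M.f_le z
  have qx : M.f (Λ.pr z) ≤ Λ.q x := M.f_le' hx
  obtain ⟨r', hr'⟩ := ih r (by linarith) (by linarith)
  obtain ⟨s', hs'⟩ := ih s (by linarith) (by linarith)
  refine ⟨r' + s', ?_⟩
  have pr' := hr'.pr
  have ps' := hs'.pr
  obtain ⟨m1, a1, b1, c1, -, d1⟩ := hr'
  obtain ⟨m2, a2, b2, c2, -, d2⟩ := hs'
  refine ⟨m1 + m2, ?_, ?_, ?_, hz, ?_⟩
  · intro a ha
    by_contra hns
    apply ha
    have k1 : m1 a = 0 := by by_contra h; exact hns (a1 a h)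
    have k2 : m2 a = 0 := by by_contra h; exact hns (a2 a h)
    rw [Pi.add_apply, k1, k2]; rfl
  · rw [cmb_add, b1, b2, hxrs]
  · rw [cmb_add, c1, c2]
  · have h1 : Λ'.pr (r' + s') = Λ.pr z := by rw [map_add, pr', ps', prs]
    have h2 : Λ'.pr (r' - s') = Λ.pr z := by rw [map_sub, pr', ps', sub_eq_add', prs]
    have h3 := N.f_le' h1
    have h4 := N.f_le' h2
    rw [hf, Λ'.q_add] at h3
    rw [hf, Λ'.q_sub] at h4
    rw [Λ'.q_add]
    have h5 : Λ'.b r' s' = 0 := by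
      apply le_antisymm <;> linarith
    rw [h5, d1, d2]
    linarith

end two

/-- the map determined by the minimal vectors -/
noncomputable def Phi {L L' V : Type} [AddCommGroup L] [AddCommGroup L'] [AddCommGroup V]
    [Module (ZMod 2) V] [Fintype V] {Λ : Lat L V} {Λ' : Lat L' V} (M : Λ.MinSys) (N : Λ'.MinSys)
    (z : L) : L' :=
  open Classical in
  if h : M.f (Λ.pr z) < Λ.q z then
    have _h1 : Λ.rk (w1 M z) < Λ.rk z := Λ.rk_lt (w1_lt M h)
    have _h2 : Λ.rk (w2 M z) < Λ.rk z := Λ.rk_lt (w2_lt M h)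
    Phi M N (w1 M z) + Phi M N (w2 M z)
  else if h2 : ∃ z', RR M N z z' then h2.choose else 0
termination_by Λ.rk z

section three

variable {L L' V : Type} [AddCommGroup L] [AddCommGroup L'] [AddCommGroup V] [Module (ZMod 2) V]
  [Fintype V] [DecidableEq V] {Λ : Lat L V} {Λ' : Lat L' V} (M : Λ.MinSys) (N : Λ'.MinSys)

omit [DecidableEq V] in
lemma Phi_rec {z : L} (h : M.f (Λ.pr z) < Λ.q z) :
    Phi M N z = Phi M N (w1 M z) + Phi M N (w2 M z) := by
  rw [Phi, dif_pos h]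

lemma Phi_RR (hf : ∀ v, N.f v = M.f v) {z : L} (h : Λ.q z ≤ M.f (Λ.pr z)) :
    RR M N z (Phi M N z) := by
  have h2 := RR.exists M N hf z h
  rw [Phi, dif_neg (not_lt.mpr h), dif_pos h2]
  exact h2.choose_spec

lemma Phi_neg (hT : Matched M N) (hf : ∀ v, N.f v = M.f v) (z : L) :
    Phi M N (-z) = - Phi M N z := by
  apply Λ.induction_q (P := fun z => Phi M N (-z) = - Phi M N z)
  intro z ih
  have h1 : Λ.pr (-z) = Λ.pr z := by rw [map_neg, neg_eq]
  by_cases h : M.f (Λ.pr z) < Λ.q z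
  · have h' : M.f (Λ.pr (-z)) < Λ.q (-z) := by rw [h1, Λ.q_neg]; exact h
    rw [Phi_rec M N h', Phi_rec M N h, w1_neg, w2_neg, ih _ (w1_lt M h), ih _ (w2_lt M h)]
    abel
  · have h2 := Phi_RR M N hf (not_lt.mp h)
    have h3 := Phi_RR M N hf (z := -z) (by rw [h1, Λ.q_neg]; exact not_lt.mp h)
    exact RR.unique M N hT hf h3 h2.neg

lemma Phi_base (hT : Matched M N) (hf : ∀ v, N.f v = M.f v) {u v w : L} (h : u + v + w = 0)
    (hu : Λ.q u ≤ M.f (Λ.pr u)) (hv : Λ.q v ≤ M.f (Λ.pr v)) (hw : Λ.q w ≤ M.f (Λ.pr w)) :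
    Phi M N u + Phi M N v + Phi M N w = 0 :=
  RR.triple M N hT hf (Phi_RR M N hf hu) (Phi_RR M N hf hv) (Phi_RR M N hf hw) h

/-- the subdivision step -/
lemma Phi_step (hT : Matched M N) (hf : ∀ v, N.f v = M.f v) {u v w : L} (h : u + v + w = 0)
    (hw : M.f (Λ.pr w) < Λ.q w)
    (h1 : Λ.q u ≤ Λ.q w + Λ.q v) (h2 : Λ.q v ≤ Λ.q w + Λ.q u)
    (ih : ∀ a b c : L, a + b + c = 0 → Λ.q a + Λ.q b + Λ.q c < Λ.q u + Λ.q v + Λ.q w →
      Phi M N a + Phi M N b + Phi M N c = 0) :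
    Phi M N u + Phi M N v + Phi M N w = 0 := by
  -- generic subdivision
  have sub : ∀ p r : L, p + r = w → Phi M N w = Phi M N p + Phi M N r →
      Λ.q r + Λ.q (r + u) < Λ.q v + Λ.q w → Λ.q p + Λ.q (r + u) < Λ.q u + Λ.q w →
      Phi M N u + Phi M N v + Phi M N w = 0 := by
    intro p r hpr hPhi k1 k2
    have a1 := ih r u (-(r + u)) (by abel) (by rw [Λ.q_neg]; linarith)
    have a2 := ih p (r + u) v (by
      rw [← h, ← hpr]; abel) (by linarith)
    rw [Phi_neg M N hT hf] at a1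
    rw [hPhi]
    have : Phi M N u + Phi M N v + (Phi M N p + Phi M N r) =
      (Phi M N r + Phi M N u + -Phi M N (r + u)) +
      (Phi M N p + Phi M N (r + u) + Phi M N v) := by abel
    rw [this, a1, a2, add_zero]
  set y := M.y (Λ.pr w) with hy
  have hYf : Λ.q y = M.f (Λ.pr w) := rfl
  -- real quantities
  have p1 := w_sum M w
  have p2 := w_diff M w
  rw [← hy] at p2
  set p := w1 M w with hp
  set r := w2 M w with hr
  have hv : v = -(u + w) := by
    have h' : v + (u + w) = 0 := by rw [← h]; abel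
    exact eq_neg_of_add_eq_zero_left h'
  have qv : Λ.q v = Λ.q u + Λ.q w + 2 * Λ.b u w := by rw [hv, Λ.q_neg, Λ.q_add]
  have qw : Λ.q w = Λ.q p + Λ.q r + 2 * Λ.b p r := by rw [← Λ.q_add, p1]
  have qy : Λ.q y = Λ.q p + Λ.q r - 2 * Λ.b p r := by rw [← Λ.q_sub, p2]
  have bw : Λ.b u w = Λ.b u p + Λ.b u r := by rw [← Λ.add_right, p1]
  have qru : Λ.q (r + u) = Λ.q r + Λ.q u + 2 * Λ.b u r := by rw [Λ.q_add, Λ.symm r u]
  have qpu : Λ.q (p + u) = Λ.q p + Λ.q u + 2 * Λ.b u p := by rw [Λ.q_add, Λ.symm p u]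
  have hq1 := w1_lt M hw
  have hq2 := w2_lt M hw
  rw [← hp] at hq1
  rw [← hr] at hq2
  have hPhi := Phi_rec M N hw
  rw [← hp, ← hr] at hPhi
  have n1 := Λ.q_nonneg p
  have n2 := Λ.q_nonneg r
  have hlt : Λ.q y < Λ.q w := by rw [hYf]; exact hw
  by_cases c1 : Λ.q r + Λ.q (r + u) < Λ.q v + Λ.q w ∧ Λ.q p + Λ.q (r + u) < Λ.q u + Λ.q w
  · exact sub p r p1 hPhi c1.1 c1.2
  by_cases c2 : Λ.q p + Λ.q (p + u) < Λ.q v + Λ.q w ∧ Λ.q r + Λ.q (p + u) < Λ.q u + Λ.q w
  · exact sub r p (by rw [add_comm, p1]) (by rw [hPhi, add_comm]) c2.1 c2.2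
  exfalso
  rw [not_and_or, not_lt, not_lt] at c1 c2
  rcases c1 with c1 | c1 <;> rcases c2 with c2 | c2
  · nlinarith
  · nlinarith
  · nlinarith
  · nlinarith

/-- additivity, when the third edge is the longest -/
lemma Phi_max (hT : Matched M N) (hf : ∀ v, N.f v = M.f v) {u v w : L} (h : u + v + w = 0)
    (h1 : Λ.q u ≤ Λ.q w) (h2 : Λ.q v ≤ Λ.q w)
    (ih : ∀ a b c : L, a + b + c = 0 → Λ.q a + Λ.q b + Λ.q c < Λ.q u + Λ.q v + Λ.q w →
      Phi M N a + Phi M N b + Phi M N c = 0) :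
    Phi M N u + Phi M N v + Phi M N w = 0 := by
  have nu := Λ.q_nonneg u
  have nv := Λ.q_nonneg v
  have nw := Λ.q_nonneg w
  by_cases hw : M.f (Λ.pr w) < Λ.q w
  · exact Phi_step M N hT hf h hw (by linarith) (by linarith) ih
  have hw' := not_lt.mp hw
  have hle : Λ.q w ≤ Λ.q u + Λ.q v := by
    have e0 : w = -(u + v) := by
      have h' : w + (u + v) = 0 := by rw [← h]; abel
      exact eq_neg_of_add_eq_zero_left h'
    have e1 : Λ.pr (u - v) = Λ.pr w := by
      rw [e0, map_sub, map_neg, map_add, neg_eq, sub_eq_add']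
    have e2 := M.f_le' e1
    have e3 : Λ.q w = Λ.q (u + v) := by rw [e0, Λ.q_neg]
    rw [Λ.q_add] at e3
    rw [Λ.q_sub] at e2
    linarith
  by_cases hu : M.f (Λ.pr u) < Λ.q u
  · have := Phi_step M N hT hf (u := v) (v := w) (w := u) (by rw [← h]; abel) hu
      (by linarith) (by linarith) (fun a b c habc hlt => ih a b c habc (by linarith))
    rw [← this]; abel
  by_cases hv : M.f (Λ.pr v) < Λ.q v
  · have := Phi_step M N hT hf (u := u) (v := w) (w := v) (by rw [← h]; abel) hv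
      (by linarith) (by linarith) (fun a b c habc hlt => ih a b c habc (by linarith))
    rw [← this]; abel
  exact Phi_base M N hT hf h (not_lt.mp hu) (not_lt.mp hv) hw'

theorem Phi_add_zero (hT : Matched M N) (hf : ∀ v, N.f v = M.f v) :
    ∀ u v w : L, u + v + w = 0 → Phi M N u + Phi M N v + Phi M N w = 0 := by
  have hS : ∀ C : ℝ, {p : L × L | Λ.q p.1 + Λ.q p.2 + Λ.q (p.1 + p.2) < C}.Finite := by
    intro C
    apply Set.Finite.subset ((Λ.fin C).prod (Λ.fin C))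
    rintro ⟨x, y⟩ hp
    simp only [Set.mem_ofPred_eq, Set.mem_prod] at hp ⊢
    have n1 := Λ.q_nonneg x
    have n2 := Λ.q_nonneg y
    have n3 := Λ.q_nonneg (x + y)
    exact ⟨lt_of_le_of_lt (by show Λ.q x ≤ _; linarith) hp,
      lt_of_le_of_lt (by show Λ.q y ≤ _; linarith) hp⟩
  have main : ∀ p : L × L, Phi M N p.1 + Phi M N p.2 + Phi M N (-(p.1 + p.2)) = 0 := by
    apply induction_real (fun p : L × L => Λ.q p.1 + Λ.q p.2 + Λ.q (p.1 + p.2)) hS
      (P := fun p : L × L => Phi M N p.1 + Phi M N p.2 + Phi M N (-(p.1 + p.2)) = 0)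
    rintro ⟨u, v⟩ ih
    simp only at ih ⊢
    have ih' : ∀ a b c : L, a + b + c = 0 →
        Λ.q a + Λ.q b + Λ.q c < Λ.q u + Λ.q v + Λ.q (u + v) →
        Phi M N a + Phi M N b + Phi M N c = 0 := by
      intro a b c habc hlt
      have hc : c = -(a + b) := by
        have h' : c + (a + b) = 0 := by rw [← habc]; abel
        exact eq_neg_of_add_eq_zero_left h'
      have := ih (a, b) (by simp only; rw [hc, Λ.q_neg] at hlt; exact hlt)
      simp only at this
      rw [hc]; exact this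
    set w := -(u + v) with hw
    have h : u + v + w = 0 := by rw [hw]; abel
    have qw : Λ.q w = Λ.q (u + v) := by rw [hw, Λ.q_neg]
    rw [← qw] at ih'
    by_cases c1 : Λ.q u ≤ Λ.q w ∧ Λ.q v ≤ Λ.q w
    · exact Phi_max M N hT hf h c1.1 c1.2 ih'
    by_cases c2 : Λ.q v ≤ Λ.q u ∧ Λ.q w ≤ Λ.q u
    · have := Phi_max M N hT hf (u := v) (v := w) (w := u) (by rw [← h]; abel) c2.1 c2.2
        (fun a b c habc hlt => ih' a b c habc (by linarith))
      rw [← this]; abel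
    have c3 : Λ.q u ≤ Λ.q v ∧ Λ.q w ≤ Λ.q v := by
      rw [not_and_or, not_le, not_le] at c1 c2
      rcases c1 with c1 | c1 <;> rcases c2 with c2 | c2
      · exact ⟨c2.le, by linarith⟩
      · linarith
      · exact ⟨c2.le, c1.le⟩
      · exact ⟨by linarith, c1.le⟩
    have := Phi_max M N hT hf (u := u) (v := w) (w := v) (by rw [← h]; abel) c3.1 c3.2
      (fun a b c habc hlt => ih' a b c habc (by linarith))
    rw [← this]; abel
  intro u v w h
  have hc : w = -(u + v) := by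
    have h' : w + (u + v) = 0 := by rw [← h]; abel
    exact eq_neg_of_add_eq_zero_left h'
  rw [hc]; exact main (u, v)

theorem Phi_add (hT : Matched M N) (hf : ∀ v, N.f v = M.f v) (u v : L) :
    Phi M N (u + v) = Phi M N u + Phi M N v := by
  have h := Phi_add_zero M N hT hf u v (-(u + v)) (by abel)
  rw [Phi_neg M N hT hf] at h
  exact (eq_of_sub_eq_zero (by rw [← h]; abel)).symm

theorem Phi_sub (hT : Matched M N) (hf : ∀ v, N.f v = M.f v) (u v : L) :
    Phi M N (u - v) = Phi M N u - Phi M N v := by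
  rw [sub_eq_add_neg, Phi_add M N hT hf, Phi_neg M N hT hf, ← sub_eq_add_neg]

theorem Phi_q (hT : Matched M N) (hf : ∀ v, N.f v = M.f v) (z : L) :
    Λ'.q (Phi M N z) = Λ.q z := by
  apply Λ.induction_q (P := fun z => Λ'.q (Phi M N z) = Λ.q z)
  intro z ih
  by_cases h : M.f (Λ.pr z) < Λ.q z
  · have e1 := ih _ (w1_lt M h)
    have e2 := ih _ (w2_lt M h)
    have e3 : Λ'.q (Phi M N (M.y (Λ.pr z))) = M.f (Λ.pr z) := by
      have h1 : Λ.q (M.y (Λ.pr z)) ≤ M.f (Λ.pr (M.y (Λ.pr z))) := by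
        rw [M.pr_y]; exact le_refl _
      obtain ⟨m, -, -, -, -, h2⟩ := Phi_RR M N hf h1
      rw [h2]; rfl
    rw [← w_diff, Phi_sub M N hT hf, Λ'.q_sub, e1, e2] at e3
    have e4 := w_q M z
    have e5 : Λ'.q (Phi M N z) = Λ'.q (Phi M N (w1 M z)) + Λ'.q (Phi M N (w2 M z)) +
      2 * Λ'.b (Phi M N (w1 M z)) (Phi M N (w2 M z)) := by
      rw [Phi_rec M N h, Λ'.q_add]
    rw [e1, e2] at e5
    linarith
  · obtain ⟨m, -, -, -, -, h2⟩ := Phi_RR M N hf (not_lt.mp h)
    exact h2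

theorem Phi_inv (hT : Matched M N) (hf : ∀ v, N.f v = M.f v) (z : L) :
    Phi N M (Phi M N z) = z := by
  have hT' := hT.symm hf
  have hf' : ∀ v, M.f v = N.f v := fun v => (hf v).symm
  apply Λ.induction_q (P := fun z => Phi N M (Phi M N z) = z)
  intro z ih
  by_cases h : M.f (Λ.pr z) < Λ.q z
  · rw [Phi_rec M N h, Phi_add N M hT' hf', ih _ (w1_lt M h),
      ih _ (w2_lt M h), w_sum]
  · have h1 := (Phi_RR M N hf (not_lt.mp h)).swap hf
    have h3 : Λ'.q (Phi M N z) ≤ N.f (Λ'.pr (Phi M N z)) := by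
      obtain ⟨-, -, -, -, h3, -⟩ := h1
      exact h3
    have h2 := Phi_RR N M hf' h3
    exact RR.unique N M hT' hf' h2 h1

/-- matched systems give an isometry -/
theorem isometry_of_matched (hT : Matched M N) (hf : ∀ v, N.f v = M.f v) :
    ∃ e : L ≃+ L', ∀ z, Λ'.q (e z) = Λ.q z := by
  refine ⟨⟨⟨Phi M N, Phi N M, Phi_inv M N hT hf,
    Phi_inv N M (hT.symm hf) (fun v => (hf v).symm)⟩, Phi_add M N hT hf⟩, ?_⟩
  intro z
  exact Phi_q M N hT hf z

/-- good cycles give an isometry -/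
theorem isometry_of_good (hf : ∀ v, M.f v = N.f v)
    (hgood : ∀ S : Finset V, (∀ a ∈ S, St M.f a) → sm S = 0 → ∃ X ⊆ S, KK M N S = sm X) :
    ∃ e : L ≃+ L', ∀ z, Λ'.q (e z) = Λ.q z := by
  obtain ⟨N', hN1, hN2⟩ := matched_of_good M N hgood
  exact isometry_of_matched M N' hN2 (fun v => by rw [hN1, hf])

end three

end Pool.Agent.Run7.h698.Von
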