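import Pool.Agent.Run7.h698.VonC

set_option autoImplicit false

open scoped symmDiff

namespace Pool.Agent.Run7.h698.Von

open Pool.Agent.K7.H30.Vo

section blocks

variable {L V : Type} [AddCommGroup L] [AddCommGroup V] [Module (ZMod 2) V] [Fintype V]
  [DecidableEq V] {Λ : Lat L V} (M : Λ.MinSys)

omit [Fintype V] [DecidableEq V] in
lemma zsmul_odd {k : ℤ} (hk : k = 1 ∨ k = -1) (a : V) : k • a = a := by
  rcases hk with h | h
  · rw [h, one_zsmul]
  · rw [h, neg_one_zsmul, neg_eq]

omit [Fintype V] [DecidableEq V] in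
lemma zsmul_two (k : ℤ) (a : V) : (k + k) • a = 0 := by
  rw [add_zsmul, self_add]

/-- Vectors `P i` without proper splittings of even class decompose into pairwise disjoint sets of
strict classes whose union is a circuit. -/
theorem blocks' {ι : Type} [Fintype ι] [DecidableEq ι] (hι : 3 ≤ Fintype.card ι) (P : ι → L)
    (hP : ∀ i, P i ≠ 0)
    (hprod : ∀ p q : ι → L, (∀ i, p i + q i = P i) → (∀ i, Λ.q (p i) + Λ.q (q i) ≤ Λ.q (P i)) →
      ∑ i, Λ.pr (p i) = 0 → (∀ i, p i = 0) ∨ (∀ i, q i = 0)) :
    ∃ (D : ι → Finset V) (m : ι → V → ℤ), (∀ i, (D i).Nonempty) ∧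
      (∀ i j, i ≠ j → Disjoint (D i) (D j)) ∧
      (∀ i, ∀ a ∈ D i, St M.f a) ∧ (∀ i, sm (D i) = Λ.pr (P i)) ∧
      (∀ i, ∑ a ∈ D i, M.f a ≤ Λ.q (P i)) ∧
      (∀ X : Finset V, (∀ a ∈ X, ∃ i, a ∈ D i) → sm X = 0 → X = ∅ ∨ ∀ i, D i ⊆ X) ∧
      (∀ i, cmb M (m i) = P i) ∧ (∀ i, ∀ a ∈ D i, m i a = 1 ∨ m i a = -1) ∧
      (∀ i, ∀ a, a ∉ D i → m i a = 0) := by
  choose m hm using fun i => exists_minDec M (P i)
  -- the product property for integral functions
  have key : ∀ n : ι → V → ℤ, (∀ i, Sub (n i) (m i)) → ∑ i, ∑ a, n i a • a = 0 →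
      (∀ i, n i = 0) ∨ (∀ i, n i = m i) := by
    intro n hn hs
    have h1 := hprod (fun i => cmb M (n i)) (fun i => cmb M (m i - n i)) (by
      intro i
      rw [← cmb_add, ← (hm i).2.1]; congr 1; abel) (fun i => (hm i).q_le (hn i)) (by
      rw [← hs]
      apply Finset.sum_congr rfl
      intro i _
      rw [pr_cmb])
    rcases h1 with h1 | h1
    · left; intro i; exact (hm i).zero_of (hn i) (h1 i)
    · right; intro i; exact (hm i).eq_of (hn i) (h1 i)
  -- no block is zero
  have hm0 : ∀ i, m i ≠ 0 := by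
    intro i h
    apply hP i
    rw [← (hm i).2.1, h, cmb_zero]
  -- signs
  have hsgn : ∀ i a, m i a ≠ 0 → ∃ σ : ℤ, (σ = 1 ∨ σ = -1) ∧
      ((0 ≤ σ ∧ σ ≤ m i a) ∨ (m i a ≤ σ ∧ σ ≤ 0)) := by
    intro i a ha
    rcases lt_or_gt_of_ne ha with h1 | h1
    · exact ⟨-1, Or.inr rfl, Or.inr ⟨by omega, by norm_num⟩⟩
    · exact ⟨1, Or.inl rfl, Or.inl ⟨by norm_num, by omega⟩⟩
  -- multiplicity one
  have hmul : ∀ i a, m i a ≠ 0 → m i a = 1 ∨ m i a = -1 := by
    intro i a ha
    by_contra hne
    obtain ⟨σ, hσ1, hσ2⟩ := hsgn i a ha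
    have hsub2 : (0 ≤ σ + σ ∧ σ + σ ≤ m i a) ∨ (m i a ≤ σ + σ ∧ σ + σ ≤ 0) := by
      rcases hσ1 with h | h <;> rw [h] at hσ2 ⊢ <;> omega
    have h1 := key (fun j => if j = i then Pi.single a (σ + σ) else 0) (by
      intro j
      by_cases hj : j = i
      · rw [if_pos hj, hj]
        intro x
        by_cases hx : x = a
        · rw [hx, Pi.single_eq_same]; exact hsub2
        · rw [Pi.single_eq_of_ne hx]; omega
      · rw [if_neg hj]
        intro x
        rw [Pi.zero_apply]; omega) (by
      rw [Finset.sum_eq_single i]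
      · rw [if_pos rfl, Finset.sum_eq_single a]
        · rw [Pi.single_eq_same, zsmul_two]
        · intro b _ hb
          rw [Pi.single_eq_of_ne hb, zero_zsmul]
        · intro h; exact absurd (Finset.mem_univ _) h
      · intro j _ hj
        rw [if_neg hj]
        apply Finset.sum_eq_zero
        intro b _
        rw [Pi.zero_apply, zero_zsmul]
      · intro h; exact absurd (Finset.mem_univ _) h)
    rcases h1 with h1 | h1
    · have h2 := congrFun (h1 i) a
      rw [if_pos rfl, Pi.single_eq_same, Pi.zero_apply] at h2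
      rcases hσ1 with h | h <;> rw [h] at h2 <;> omega
    · obtain ⟨k, hk⟩ : ∃ k : ι, k ≠ i := by
        by_contra hno
        push Not at hno
        have : Fintype.card ι ≤ 1 := Fintype.card_le_one_iff.mpr (fun x y => by rw [hno x, hno y])
        omega
      have h2 := h1 k
      rw [if_neg hk] at h2
      exact hm0 k h2.symm
  -- disjointness
  have hdis : ∀ i j a, i ≠ j → m i a ≠ 0 → m j a = 0 := by
    intro i j a hij ha
    by_contra hja
    obtain ⟨σ, hσ1, hσ2⟩ := hsgn i a ha
    obtain ⟨τ, hτ1, hτ2⟩ := hsgn j a hja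
    have h1 := key (fun k => if k = i then Pi.single a σ else if k = j then Pi.single a τ else 0)
      (by
      intro k
      by_cases hk : k = i
      · rw [if_pos hk, hk]
        intro x
        by_cases hx : x = a
        · rw [hx, Pi.single_eq_same]; exact hσ2
        · rw [Pi.single_eq_of_ne hx]; omega
      by_cases hk' : k = j
      · rw [if_neg hk, if_pos hk', hk']
        intro x
        by_cases hx : x = a
        · rw [hx, Pi.single_eq_same]; exact hτ2
        · rw [Pi.single_eq_of_ne hx]; omega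
      · rw [if_neg hk, if_neg hk']
        intro x
        rw [Pi.zero_apply]; omega) (by
      have e1 : ∀ (b : V) (c : ℤ), ∑ x : V, (Pi.single b c : V → ℤ) x • x = c • b := by
        intro b c
        rw [Finset.sum_eq_single b]
        · rw [Pi.single_eq_same]
        · intro x _ hx
          rw [Pi.single_eq_of_ne hx, zero_zsmul]
        · intro h; exact absurd (Finset.mem_univ _) h
      have e2 : ∑ k, ∑ x : V, (if k = i then (Pi.single a σ : V → ℤ) else
          if k = j then Pi.single a τ else 0) x • x = σ • a + τ • a := by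
        rw [← Finset.add_sum_erase _ _ (Finset.mem_univ i), if_pos rfl, e1]
        congr 1
        rw [← Finset.add_sum_erase _ _ (Finset.mem_erase.mpr ⟨Ne.symm hij, Finset.mem_univ j⟩),
          if_neg (Ne.symm hij), if_pos rfl, e1]
        rw [Finset.sum_eq_zero, add_zero]
        intro k hk
        rw [Finset.mem_erase, Finset.mem_erase] at hk
        rw [if_neg hk.2.1, if_neg hk.1]
        apply Finset.sum_eq_zero
        intro x _
        rw [Pi.zero_apply, zero_zsmul]
      rw [e2, zsmul_odd hσ1, zsmul_odd hτ1, self_add])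
    rcases h1 with h1 | h1
    · have h2 := congrFun (h1 i) a
      rw [if_pos rfl, Pi.single_eq_same, Pi.zero_apply] at h2
      rcases hσ1 with h | h <;> rw [h] at h2 <;> omega
    · obtain ⟨k, hk1, hk2⟩ : ∃ k : ι, k ≠ i ∧ k ≠ j := by
        by_contra hno
        push Not at hno
        have h3 : (Finset.univ : Finset ι) ⊆ {i, j} := by
          intro k _
          by_cases hk : k = i
          · rw [hk]; exact Finset.mem_insert_self _ _
          · rw [hno k hk]; exact Finset.mem_insert_of_mem (Finset.mem_singleton_self _)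
        have h4 := Finset.card_le_card h3
        have h5 := Finset.card_le_two (a := i) (b := j)
        rw [Finset.card_univ] at h4
        omega
      have h2 := h1 k
      rw [if_neg hk1, if_neg hk2] at h2
      exact hm0 k h2.symm
  -- the sets
  set D : ι → Finset V := fun i => Finset.univ.filter (fun a => m i a ≠ 0) with hD
  have memD : ∀ i a, a ∈ D i ↔ m i a ≠ 0 := by
    intro i a; simp only [hD, Finset.mem_filter, Finset.mem_univ, true_and]
  refine ⟨D, m, ?_, ?_, ?_, ?_, ?_, ?_, fun i => (hm i).2.1,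
    fun i a ha => hmul i a ((memD i a).mp ha), fun i a ha => by
      by_contra h; exact ha ((memD i a).mpr h)⟩
  · intro i
    by_contra hne
    rw [Finset.not_nonempty_iff_eq_empty] at hne
    apply hm0 i
    funext a
    by_contra ha
    have := (memD i a).mpr ha
    rw [hne] at this
    exact absurd this (Finset.notMem_empty _)
  · intro i j hij
    rw [Finset.disjoint_left]
    intro a ha hb
    rw [memD] at ha hb
    exact hb (hdis i j a hij ha)
  · intro i a ha
    rw [memD] at ha
    exact (hm i).1 a ha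
  · intro i
    rw [← (hm i).2.1, pr_cmb]
    unfold sm
    rw [← Finset.sum_subset (Finset.subset_univ (D i))]
    · apply Finset.sum_congr rfl
      intro a ha
      rw [memD] at ha
      rw [zsmul_odd (hmul i a ha)]
    · intro a _ ha
      rw [memD, not_not] at ha
      rw [ha, zero_zsmul]
  · intro i
    refine le_trans (le_of_eq ?_) (hm i).le
    unfold en
    rw [← Finset.sum_subset (Finset.subset_univ (D i))]
    · apply Finset.sum_congr rfl
      intro a ha
      rw [memD] at ha
      rcases hmul i a ha with h | h <;> rw [h] <;> simp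
    · intro a _ ha
      rw [memD, not_not] at ha
      rw [ha]; simp
  · intro X hX h0
    set n : ι → V → ℤ := fun i a => if a ∈ X then m i a else 0 with hn
    have hsub : ∀ i, Sub (n i) (m i) := by
      intro i a
      simp only [hn]
      by_cases ha : a ∈ X
      · rw [if_pos ha]; omega
      · rw [if_neg ha]; omega
    have hsum : ∑ i, ∑ a, n i a • a = sm X := by
      rw [Finset.sum_comm]
      unfold sm
      rw [← Finset.sum_subset (Finset.subset_univ X)]
      · apply Finset.sum_congr rfl
        intro a ha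
        obtain ⟨i, hi⟩ := hX a ha
        rw [memD] at hi
        rw [Finset.sum_eq_single i]
        · simp only [hn]
          rw [if_pos ha, zsmul_odd (hmul i a hi)]
        · intro j _ hj
          simp only [hn]
          rw [if_pos ha, hdis i j a (Ne.symm hj) hi, zero_zsmul]
        · intro h; exact absurd (Finset.mem_univ _) h
      · intro a _ ha
        apply Finset.sum_eq_zero
        intro i _
        simp only [hn]
        rw [if_neg ha, zero_zsmul]
    rcases key n hsub (by rw [hsum, h0]) with h1 | h1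
    · left
      rw [Finset.eq_empty_iff_forall_notMem]
      intro a ha
      obtain ⟨i, hi⟩ := hX a ha
      rw [memD] at hi
      have h2 := congrFun (h1 i) a
      simp only [hn] at h2
      rw [if_pos ha] at h2
      exact hi h2
    · right
      intro i a ha
      rw [memD] at ha
      by_contra hax
      have h2 := congrFun (h1 i) a
      simp only [hn] at h2
      rw [if_neg hax] at h2
      exact ha h2.symm

theorem blocks {ι : Type} [Fintype ι] [DecidableEq ι] (hι : 3 ≤ Fintype.card ι) (P : ι → L)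
    (hP : ∀ i, P i ≠ 0)
    (hprod : ∀ p q : ι → L, (∀ i, p i + q i = P i) → (∀ i, Λ.q (p i) + Λ.q (q i) ≤ Λ.q (P i)) →
      ∑ i, Λ.pr (p i) = 0 → (∀ i, p i = 0) ∨ (∀ i, q i = 0)) :
    ∃ D : ι → Finset V, (∀ i, (D i).Nonempty) ∧ (∀ i j, i ≠ j → Disjoint (D i) (D j)) ∧
      (∀ i, ∀ a ∈ D i, St M.f a) ∧ (∀ i, sm (D i) = Λ.pr (P i)) ∧
      (∀ i, ∑ a ∈ D i, M.f a ≤ Λ.q (P i)) ∧
      (∀ X : Finset V, (∀ a ∈ X, ∃ i, a ∈ D i) → sm X = 0 → X = ∅ ∨ ∀ i, D i ⊆ X) := by
  obtain ⟨D, m, h1, h2, h3, h4, h5, h6, -⟩ := blocks' M hι P hP hprod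
  exact ⟨D, h1, h2, h3, h4, h5, h6⟩

end blocks

end Pool.Agent.Run7.h698.Von
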