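import Pool.Agent.Run7.h698.VonE

set_option autoImplicit false

open scoped symmDiff

namespace Pool.Agent.Run7.h698.Von

open Pool.Agent.K7.H30.Vo

section prod

variable {L V : Type} [AddCommGroup L] [AddCommGroup V] [Module (ZMod 2) V]
  {Λ : Lat L V} (M : Λ.MinSys)

/-- the four-term identity -/
lemma four_term {p0 p1 p2 p3 t : L} (h : p0 + p1 + p2 + p3 = t + t) :
    Λ.q (p0 + p1 - t) + Λ.q (p0 + p2 - t) + Λ.q (p0 + p3 - t) =
      Λ.q p0 + Λ.q p1 + Λ.q p2 + Λ.q p3 - Λ.q t := by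
  have e1 : Λ.b p0 t + Λ.b p1 t + Λ.b p2 t + Λ.b p3 t = Λ.q t + Λ.q t := by
    rw [← Λ.add_left, ← Λ.add_left, ← Λ.add_left, h, Λ.add_left]; rfl
  have e2 : Λ.q p0 + Λ.b p0 p1 + Λ.b p0 p2 + Λ.b p0 p3 = Λ.b p0 t + Λ.b p0 t := by
    have e3 : Λ.q p0 = Λ.b p0 p0 := rfl
    rw [e3, ← Λ.add_right, ← Λ.add_right, ← Λ.add_right, h, Λ.add_right]
  rw [Λ.q_sub, Λ.q_sub, Λ.q_sub, Λ.q_add, Λ.q_add, Λ.q_add, Λ.add_left, Λ.add_left, Λ.add_left]
  linarith

/-- the product lemma for a triangle of strict classes -/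
lemma prod_lemma {a b c : V} (ha : St M.f a) (hb : St M.f b) (hc : St M.f c) (habc : a + b + c = 0)
    {h : L} (hh : h + h = M.y a + M.y b + M.y c)
    {p0 p1 p2 p3 q0 q1 q2 q3 : L} (e0 : p0 + q0 = h) (e1 : p1 + q1 = M.y a - h)
    (e2 : p2 + q2 = M.y b - h) (e3 : p3 + q3 = M.y c - h)
    (i0 : Λ.q p0 + Λ.q q0 ≤ Λ.q h) (i1 : Λ.q p1 + Λ.q q1 ≤ Λ.q (M.y a - h))
    (i2 : Λ.q p2 + Λ.q q2 ≤ Λ.q (M.y b - h)) (i3 : Λ.q p3 + Λ.q q3 ≤ Λ.q (M.y c - h))
    (hpr : Λ.pr p0 + Λ.pr p1 + Λ.pr p2 + Λ.pr p3 = 0) :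
    (p0 = 0 ∧ p1 = 0 ∧ p2 = 0 ∧ p3 = 0) ∨ (q0 = 0 ∧ q1 = 0 ∧ q2 = 0 ∧ q3 = 0) := by
  have hpr' : Λ.pr (p0 + p1 + p2 + p3) = 0 := by rw [map_add, map_add, map_add, hpr]
  obtain ⟨t, ht⟩ := Λ.ker _ hpr'
  have hq : q0 + q1 + q2 + q3 = (-t) + (-t) := by
    have h1 : (p0 + p1 + p2 + p3) + (q0 + q1 + q2 + q3) = 0 := by
      have : (p0 + p1 + p2 + p3) + (q0 + q1 + q2 + q3) =
        (p0 + q0) + (p1 + q1) + (p2 + q2) + (p3 + q3) := by abel
      rw [this, e0, e1, e2, e3]
      have : h + (M.y a - h) + (M.y b - h) + (M.y c - h) =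
        (M.y a + M.y b + M.y c) - (h + h) := by abel
      rw [this, hh, sub_self]
    rw [ht] at h1
    rw [← neg_add]
    exact (eq_neg_of_add_eq_zero_right h1)
  have F1 := four_term (Λ := Λ) ht
  have F2 := four_term (Λ := Λ) hq
  -- total energy
  have E : Λ.q h + Λ.q (M.y a - h) + Λ.q (M.y b - h) + Λ.q (M.y c - h) =
      M.f a + M.f b + M.f c := by
    rw [Λ.q_sub, Λ.q_sub, Λ.q_sub]
    have k1 : Λ.b h (h + h) = Λ.b h (M.y a) + Λ.b h (M.y b) + Λ.b h (M.y c) := by
      rw [hh, Λ.add_right, Λ.add_right]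
    rw [Λ.add_right] at k1
    have k2 : Λ.b h h = Λ.q h := rfl
    have k3 : Λ.q (M.y a) = M.f a := rfl
    have k4 : Λ.q (M.y b) = M.f b := rfl
    have k5 : Λ.q (M.y c) = M.f c := rfl
    rw [Λ.symm (M.y a), Λ.symm (M.y b), Λ.symm (M.y c), k3, k4, k5]
    linarith
  have u1 : (p0 + p1 - t) + (q0 + q1 - -t) = M.y a := by
    have : (p0 + p1 - t) + (q0 + q1 - -t) = (p0 + q0) + (p1 + q1) := by abel
    rw [this, e0, e1]; abel
  have u2 : (p0 + p2 - t) + (q0 + q2 - -t) = M.y b := by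
    have : (p0 + p2 - t) + (q0 + q2 - -t) = (p0 + q0) + (p2 + q2) := by abel
    rw [this, e0, e2]; abel
  have u3 : (p0 + p3 - t) + (q0 + q3 - -t) = M.y c := by
    have : (p0 + p3 - t) + (q0 + q3 - -t) = (p0 + q0) + (p3 + q3) := by abel
    rw [this, e0, e3]; abel
  have hmin : ∀ v : V, Λ.q (M.y v) ≤ M.f (Λ.pr (M.y v)) := fun v => by
    rw [M.pr_y]; exact le_refl _
  have j1 := min_split M (hmin a) u1
  have j2 := min_split M (hmin b) u2
  have j3 := min_split M (hmin c) u3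
  have k3 : Λ.q (M.y a) = M.f a := rfl
  have k4 : Λ.q (M.y b) = M.f b := rfl
  have k5 : Λ.q (M.y c) = M.f c := rfl
  have k6 := Λ.q_neg t
  rw [k3] at j1
  rw [k4] at j2
  rw [k5] at j3
  have ht0 : t = 0 := Λ.eq_zero_of_q (by linarith)
  have nt := Λ.q_nonneg t
  have s1 := ha.split u1 (by linarith)
  have s2 := hb.split u2 (by linarith)
  have s3 := hc.split u3 (by linarith)
  rw [ht0, neg_zero, sub_zero, sub_zero] at u1 u2 u3 s1 s2 s3
  rw [ht0, add_zero] at ht
  rw [ht0, neg_zero, add_zero] at hq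
  have hcab : c = a + b := (add_eq_zero_iff'.mp habc).symm
  have twop : p0 + p0 = (p0 + p1) + (p0 + p2) + (p0 + p3) := by
    have : (p0 + p1) + (p0 + p2) + (p0 + p3) = (p0 + p0) + (p0 + p1 + p2 + p3) := by abel
    rw [this, ht, add_zero]
  have key : ∀ v : V, Λ.pr (p0 + p0) = v → v = 0 := by
    intro v hv
    rw [← hv, map_add, self_add]
  have all0 : p0 + p1 = 0 → p0 + p2 = 0 → p0 + p3 = 0 → p0 = 0 ∧ p1 = 0 ∧ p2 = 0 ∧ p3 = 0 := by
    intro r1 r2 r3
    rw [r1, r2, r3, add_zero, add_zero] at twop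
    have h0 := Λ.double_eq_zero twop
    rw [h0, zero_add] at r1 r2 r3
    exact ⟨h0, r1, r2, r3⟩
  have full : ∀ {x y v : L}, x + y = v → y = 0 → x = v := by
    intro x y v hxy hy
    rw [← hxy, hy, add_zero]
  rcases s1 with s1 | s1 <;> rcases s2 with s2 | s2 <;> rcases s3 with s3 | s3
  · exact Or.inl (all0 s1 s2 s3)
  · have r3 := full u3 s3
    rw [s1, s2, r3, zero_add, zero_add] at twop
    exact absurd (key c (by rw [twop, M.pr_y])) hc.1
  · have r2 := full u2 s2
    rw [s1, r2, s3, zero_add, add_zero] at twop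
    exact absurd (key b (by rw [twop, M.pr_y])) hb.1
  · have r2 := full u2 s2
    have r3 := full u3 s3
    rw [s1, r2, r3, zero_add] at twop
    have h1 := key (b + c) (by rw [twop, map_add, M.pr_y, M.pr_y])
    rw [add_assoc, h1, add_zero] at habc
    exact absurd habc ha.1
  · have r1 := full u1 s1
    rw [r1, s2, s3, add_zero, add_zero] at twop
    exact absurd (key a (by rw [twop, M.pr_y])) ha.1
  · have r1 := full u1 s1
    have r3 := full u3 s3
    rw [r1, s2, r3, add_zero] at twop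
    have h1 := key (a + c) (by rw [twop, map_add, M.pr_y, M.pr_y])
    have h2 : a + b + c = b + (a + c) := by abel
    rw [h2, h1, add_zero] at habc
    exact absurd habc hb.1
  · have r1 := full u1 s1
    have r2 := full u2 s2
    rw [r1, r2, s3, add_zero] at twop
    have h1 := key (a + b) (by rw [twop, map_add, M.pr_y, M.pr_y])
    rw [h1, zero_add] at habc
    exact absurd habc hc.1
  · right
    have r1 := full u1 s1
    have r2 := full u2 s2
    have r3 := full u3 s3
    rw [r1, r2, r3, ← hh] at twop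
    have h0 : p0 = h := Λ.double_inj twop
    have hq0 : q0 = 0 := by
      rw [h0] at e0
      exact add_eq_left.mp e0
    rw [hq0, zero_add] at s1 s2 s3
    exact ⟨hq0, s1, s2, s3⟩

/-- weights of the cycles through one vertex class -/
lemma K3_weight {a b c : V} (ha : St M.f a) (habc : a + b + c = 0)
    {h : L} (hh : h + h = M.y a + M.y b + M.y c)
    (h0 : Λ.pr h ≠ 0) (h1 : Λ.pr h ≠ a) (h2 : Λ.pr h ≠ b) (h3 : Λ.pr h ≠ c) :
    Λ.q h + Λ.q (M.y a - h) < M.f b + M.f c ∧
      Λ.q (M.y b - h) + Λ.q (M.y c - h) < M.f b + M.f c := by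
  have hbc : b + c = a := by
    rw [add_assoc] at habc
    exact (add_eq_zero_iff'.mp habc).symm
  have pp : Λ.pr (M.y b + M.y c) = a := by rw [map_add, M.pr_y, M.pr_y, hbc]
  have pm : Λ.pr (M.y b - M.y c) = a := by rw [map_sub, M.pr_y, M.pr_y, sub_eq_add', hbc]
  have n1 : M.f a < Λ.q (M.y b + M.y c) := by
    apply ha.lt pp
    · intro e
      apply h1
      have : h = M.y a := Λ.double_inj (by rw [hh, add_assoc, e])
      rw [this, M.pr_y]
    · intro e
      apply h0
      have : h + h = 0 := by rw [hh, add_assoc, e, add_neg_cancel]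
      rw [Λ.double_eq_zero this, map_zero]
  have n2 : M.f a < Λ.q (M.y b - M.y c) := by
    apply ha.lt pm
    · intro e
      apply h2
      have : h = M.y b := Λ.double_inj (by rw [hh, ← e]; abel)
      rw [this, M.pr_y]
    · intro e
      apply h3
      have e' : M.y a = M.y c - M.y b := by
        rw [← neg_sub, e, neg_neg]
      have : h = M.y c := Λ.double_inj (by rw [hh, e']; abel)
      rw [this, M.pr_y]
  have s1 : Λ.q (M.y b + M.y c) + Λ.q (M.y b - M.y c) = 2 * M.f b + 2 * M.f c := by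
    rw [Λ.q_add, Λ.q_sub]; unfold Lat.MinSys.f; ring
  have w1 : Λ.q h + Λ.q (M.y a - h) = (M.f a + Λ.q (M.y b + M.y c)) / 2 := by
    have k1 : Λ.q (h + (M.y a - h)) = M.f a := by
      have : h + (M.y a - h) = M.y a := by abel
      rw [this]; rfl
    have k2 : Λ.q (h - (M.y a - h)) = Λ.q (M.y b + M.y c) := by
      have : h - (M.y a - h) = (h + h) - M.y a := by abel
      rw [this, hh]; congr 1; abel
    rw [Λ.q_add] at k1
    rw [Λ.q_sub] at k2
    linarith
  have w2 : Λ.q (M.y b - h) + Λ.q (M.y c - h) = (M.f a + Λ.q (M.y b - M.y c)) / 2 := by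
    have k1 : Λ.q ((M.y b - h) + (M.y c - h)) = M.f a := by
      have : (M.y b - h) + (M.y c - h) = M.y b + M.y c - (h + h) := by abel
      rw [this, hh]
      have : M.y b + M.y c - (M.y a + M.y b + M.y c) = - M.y a := by abel
      rw [this, Λ.q_neg]; rfl
    have k2 : Λ.q ((M.y b - h) - (M.y c - h)) = Λ.q (M.y b - M.y c) := by
      congr 1; abel
    rw [Λ.q_add] at k1
    rw [Λ.q_sub] at k2
    linarith
  constructor <;> linarith

end prod

section comb

variable {V : Type} [AddCommGroup V] [Module (ZMod 2) V] [DecidableEq V]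

/-- the element `v` is `0` or `a` -/
def Za (a v : V) : Prop := v = 0 ∨ v = a

lemma Za.add {a v w : V} (h : Za a v) (h' : Za a w) : Za a (v + w) := by
  rcases h with h | h <;> rcases h' with h' | h' <;> rw [h, h']
  · left; rw [add_zero]
  · right; rw [zero_add]
  · right; rw [add_zero]
  · left; rw [self_add]

lemma sm_inter_insert {a : V} {E X : Finset V} (hX : X ⊆ insert a E) (haE : a ∉ E) :
    Za a (sm X + sm (X ∩ E)) := by
  by_cases h : a ∈ X
  · right
    have h1 : X ∩ E = X.erase a := by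
      ext x
      rw [Finset.mem_inter, Finset.mem_erase]
      constructor
      · rintro ⟨h2, h3⟩
        exact ⟨fun h4 => haE (h4 ▸ h3), h2⟩
      · rintro ⟨h2, h3⟩
        rcases Finset.mem_insert.mp (hX h3) with h4 | h4
        · exact absurd h4 h2
        · exact ⟨h3, h4⟩
    have h2 : a + sm (X.erase a) = sm X := by
      unfold sm
      exact Finset.add_sum_erase X (fun a => a) h
    rw [h1, ← h2, add_assoc, self_add, add_zero]
  · left
    have h1 : X ∩ E = X := by
      apply Finset.inter_eq_left.mpr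
      intro x hx
      rcases Finset.mem_insert.mp (hX hx) with h4 | h4
      · rw [h4] at hx; exact absurd hx h
      · exact h4
    rw [h1, self_add]

/-- extension of a good expression on one side to the whole circuit -/
lemma side {κ : Finset V → V} {a : V} {E E' : Finset V} (haE : a ∉ E) (haE' : a ∉ E')
    (hEE : Disjoint E E') (hsE' : sm E' = a)
    (hg : ∃ X ⊆ insert a E, κ (insert a E) = sm X)
    (hg' : ∃ X ⊆ insert a E', κ (insert a E') = sm X)
    (hadd : κ (E ∪ E') = κ (insert a E) + κ (insert a E')) :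
    ∃ Y ⊆ E ∪ E', κ (E ∪ E') = sm Y ∧ Za a (κ (insert a E) + sm (Y ∩ E)) := by
  obtain ⟨X, hX, hX2⟩ := hg
  obtain ⟨X', hX', hX2'⟩ := hg'
  have z1 := sm_inter_insert hX haE
  have z2 := sm_inter_insert hX' haE'
  have hd : Disjoint (X ∩ E) (X' ∩ E') :=
    Finset.disjoint_of_subset_left Finset.inter_subset_right
      (Finset.disjoint_of_subset_right Finset.inter_subset_right hEE)
  have hd2 : Disjoint (X ∩ E) (E' \ (X' ∩ E')) :=
    Finset.disjoint_of_subset_left Finset.inter_subset_right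
      (Finset.disjoint_of_subset_right Finset.sdiff_subset hEE)
  have hi1 : ((X ∩ E) ∪ (X' ∩ E')) ∩ E = X ∩ E := by
    ext x
    simp only [Finset.mem_inter, Finset.mem_union]
    constructor
    · rintro ⟨h1 | h1, h2⟩
      · exact h1
      · exact absurd h1.2 (Finset.disjoint_left.mp hEE h2)
    · intro h1; exact ⟨Or.inl h1, h1.2⟩
  have hi2 : ((X ∩ E) ∪ (E' \ (X' ∩ E'))) ∩ E = X ∩ E := by
    ext x
    simp only [Finset.mem_inter, Finset.mem_union, Finset.mem_sdiff]
    constructor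
    · rintro ⟨h1 | h1, h2⟩
      · exact h1
      · exact absurd h1.1 (Finset.disjoint_left.mp hEE h2)
    · intro h1; exact ⟨Or.inl h1, h1.2⟩
  have hsum : κ (E ∪ E') + (sm (X ∩ E) + sm (X' ∩ E')) =
      (sm X + sm (X ∩ E)) + (sm X' + sm (X' ∩ E')) := by
    rw [hadd, hX2, hX2']; abel
  have cases2 : κ (E ∪ E') + (sm (X ∩ E) + sm (X' ∩ E')) = 0 ∨
      κ (E ∪ E') + (sm (X ∩ E) + sm (X' ∩ E')) = a := by
    rw [hsum]; exact z1.add z2
  rcases cases2 with h | h
  · refine ⟨(X ∩ E) ∪ (X' ∩ E'), Finset.union_subset_union Finset.inter_subset_right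
      Finset.inter_subset_right, ?_, ?_⟩
    · rw [sm_union hd]; exact add_eq_zero_iff'.mp h
    · rw [hi1, hX2]; exact z1
  · refine ⟨(X ∩ E) ∪ (E' \ (X' ∩ E')), Finset.union_subset_union Finset.inter_subset_right
      Finset.sdiff_subset, ?_, ?_⟩
    · rw [sm_union hd2, sm_sdiff Finset.inter_subset_right, hsE', ← h]
      have : sm (X ∩ E) + (κ (E ∪ E') + (sm (X ∩ E) + sm (X' ∩ E')) + sm (X' ∩ E')) =
        κ (E ∪ E') + (sm (X ∩ E) + sm (X ∩ E)) + (sm (X' ∩ E') + sm (X' ∩ E')) := by abel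
      rw [this, self_add, self_add, add_zero, add_zero]
    · rw [hi2, hX2]; exact z1

/-- the combinatorial part of the triangle lemma -/
theorem K3_comb {κ : Finset V → V}
    (hadd : ∀ S S' : Finset V, sm S = 0 → sm S' = 0 → κ (S ∆ S') = κ S + κ S')
    {a b c : V} (hab : a ≠ b) (hac : a ≠ c) (hbc : b ≠ c) {D0 D1 D2 D3 : Finset V}
    (n0 : D0.Nonempty) (n1 : D1.Nonempty) (n2 : D2.Nonempty) (n3 : D3.Nonempty)
    (d01 : Disjoint D0 D1) (d02 : Disjoint D0 D2) (d03 : Disjoint D0 D3)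
    (d12 : Disjoint D1 D2) (d13 : Disjoint D1 D3) (d23 : Disjoint D2 D3)
    (sa : sm D0 + sm D1 = a) (sb : sm D0 + sm D2 = b) (sc : sm D0 + sm D3 = c)
    (sall : sm D0 + sm D1 + sm D2 + sm D3 = 0)
    (hcirc : ∀ X ⊆ (D0 ∪ D1) ∪ (D2 ∪ D3), sm X = 0 → X = ∅ ∨ X = (D0 ∪ D1) ∪ (D2 ∪ D3))
    (ga : a ∉ D0 ∪ D1 → ∃ X ⊆ insert a (D0 ∪ D1), κ (insert a (D0 ∪ D1)) = sm X)
    (ga' : a ∉ D2 ∪ D3 → ∃ X ⊆ insert a (D2 ∪ D3), κ (insert a (D2 ∪ D3)) = sm X)
    (gb : b ∉ D0 ∪ D2 → ∃ X ⊆ insert b (D0 ∪ D2), κ (insert b (D0 ∪ D2)) = sm X)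
    (gb' : b ∉ D1 ∪ D3 → ∃ X ⊆ insert b (D1 ∪ D3), κ (insert b (D1 ∪ D3)) = sm X)
    (gc : c ∉ D0 ∪ D3 → ∃ X ⊆ insert c (D0 ∪ D3), κ (insert c (D0 ∪ D3)) = sm X)
    (gc' : c ∉ D1 ∪ D2 → ∃ X ⊆ insert c (D1 ∪ D2), κ (insert c (D1 ∪ D2)) = sm X) :
    ∃ X ⊆ ({a, b, c} : Finset V), κ {a, b, c} = sm X := by
  have D01 := Finset.disjoint_left.mp d01
  have D02 := Finset.disjoint_left.mp d02
  have D03 := Finset.disjoint_left.mp d03
  have D12 := Finset.disjoint_left.mp d12
  have D13 := Finset.disjoint_left.mp d13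
  have D23 := Finset.disjoint_left.mp d23
  set U : Finset V := (D0 ∪ D1) ∪ (D2 ∪ D3) with hU
  -- a vertex class is not in the circuit
  have notin : ∀ (x : V) (E E' : Finset V), E ∪ E' ⊆ U → sm (E ∪ E') = x → E.Nonempty →
      E'.Nonempty → Disjoint E E' → (∃ z ∈ U, z ∉ E ∪ E') → x ∉ E ∪ E' := by
    intro x E E' hsub hs hE hE' hd ⟨z, hz, hz'⟩ hx
    have h1 : sm ((E ∪ E').erase x) = 0 := by
      have h2 : x + sm ((E ∪ E').erase x) = sm (E ∪ E') := by
        unfold sm
        exact Finset.add_sum_erase (E ∪ E') (fun a => a) hx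
      rw [hs] at h2
      exact add_eq_left.mp h2
    rcases hcirc _ ((Finset.erase_subset _ _).trans hsub) h1 with h2 | h2
    · obtain ⟨e, he⟩ := hE
      obtain ⟨e', he'⟩ := hE'
      have h3 : e = x := by
        by_contra hne
        have : e ∈ (E ∪ E').erase x :=
          Finset.mem_erase.mpr ⟨hne, Finset.mem_union_left _ he⟩
        rw [h2] at this
        exact absurd this (Finset.notMem_empty _)
      have h4 : e' = x := by
        by_contra hne
        have : e' ∈ (E ∪ E').erase x :=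
          Finset.mem_erase.mpr ⟨hne, Finset.mem_union_right _ he'⟩
        rw [h2] at this
        exact absurd this (Finset.notMem_empty _)
      rw [h3] at he
      rw [h4] at he'
      exact Finset.disjoint_left.mp hd he he'
    · rw [← h2] at hz
      exact hz' (Finset.mem_of_mem_erase hz)
  have smE : ∀ {E E' : Finset V}, Disjoint E E' → sm (E ∪ E') = sm E + sm E' :=
    fun h => sm_union h
  have sa' : sm D2 + sm D3 = a := by
    have h1 : a + (sm D2 + sm D3) = 0 := by rw [← sa, ← sall]; abel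
    exact (add_eq_zero_iff'.mp h1).symm
  have sb' : sm D1 + sm D3 = b := by
    have h1 : b + (sm D1 + sm D3) = 0 := by rw [← sb, ← sall]; abel
    exact (add_eq_zero_iff'.mp h1).symm
  have sc' : sm D1 + sm D2 = c := by
    have h1 : c + (sm D1 + sm D2) = 0 := by rw [← sc, ← sall]; abel
    exact (add_eq_zero_iff'.mp h1).symm
  have m0 : D0 ⊆ U := fun x hx => by
    rw [hU]; simp only [Finset.mem_union]; exact Or.inl (Or.inl hx)
  have m1 : D1 ⊆ U := fun x hx => by
    rw [hU]; simp only [Finset.mem_union]; exact Or.inl (Or.inr hx)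
  have m2 : D2 ⊆ U := fun x hx => by
    rw [hU]; simp only [Finset.mem_union]; exact Or.inr (Or.inl hx)
  have m3 : D3 ⊆ U := fun x hx => by
    rw [hU]; simp only [Finset.mem_union]; exact Or.inr (Or.inr hx)
  have a1 : a ∉ D0 ∪ D1 := by
    apply notin a D0 D1 (Finset.union_subset m0 m1) (by rw [smE d01, sa]) n0 n1 d01
    obtain ⟨z, hz⟩ := n2
    refine ⟨z, m2 hz, ?_⟩
    rw [Finset.mem_union]
    rintro (h | h)
    · exact D02 h hz
    · exact D12 h hz
  have a2 : a ∉ D2 ∪ D3 := by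
    apply notin a D2 D3 (Finset.union_subset m2 m3) (by rw [smE d23, sa']) n2 n3 d23
    obtain ⟨z, hz⟩ := n0
    refine ⟨z, m0 hz, ?_⟩
    rw [Finset.mem_union]
    rintro (h | h)
    · exact D02 hz h
    · exact D03 hz h
  have b1 : b ∉ D0 ∪ D2 := by
    apply notin b D0 D2 (Finset.union_subset m0 m2) (by rw [smE d02, sb]) n0 n2 d02
    obtain ⟨z, hz⟩ := n1
    refine ⟨z, m1 hz, ?_⟩
    rw [Finset.mem_union]
    rintro (h | h)
    · exact D01 h hz
    · exact D12 hz h
  have b2 : b ∉ D1 ∪ D3 := by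
    apply notin b D1 D3 (Finset.union_subset m1 m3) (by rw [smE d13, sb']) n1 n3 d13
    obtain ⟨z, hz⟩ := n0
    refine ⟨z, m0 hz, ?_⟩
    rw [Finset.mem_union]
    rintro (h | h)
    · exact D01 hz h
    · exact D03 hz h
  have c1 : c ∉ D0 ∪ D3 := by
    apply notin c D0 D3 (Finset.union_subset m0 m3) (by rw [smE d03, sc]) n0 n3 d03
    obtain ⟨z, hz⟩ := n1
    refine ⟨z, m1 hz, ?_⟩
    rw [Finset.mem_union]
    rintro (h | h)
    · exact D01 h hz
    · exact D13 hz h
  have c2 : c ∉ D1 ∪ D2 := by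
    apply notin c D1 D2 (Finset.union_subset m1 m2) (by rw [smE d12, sc']) n1 n2 d12
    obtain ⟨z, hz⟩ := n0
    refine ⟨z, m0 hz, ?_⟩
    rw [Finset.mem_union]
    rintro (h | h)
    · exact D01 hz h
    · exact D02 hz h
  have Ga := ga a1
  have Ga' := ga' a2
  have Gb := gb b1
  have Gb' := gb' b2
  have Gc := gc c1
  have Gc' := gc' c2
  clear ga ga' gb gb' gc gc'
  simp only [Finset.mem_union, not_or] at a1 a2 b1 b2 c1 c2
  -- zero sums
  have zs : ∀ {x : V} {E : Finset V}, x ∉ E → sm E = x → sm (insert x E) = 0 := by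
    intro x E hx hs
    unfold sm
    rw [Finset.sum_insert hx]
    have : ∑ a ∈ E, a = x := hs
    rw [this, self_add]
  have za : sm (insert a (D0 ∪ D1)) = 0 :=
    zs (by simp only [Finset.mem_union, not_or]; exact a1) (by rw [smE d01, sa])
  have za' : sm (insert a (D2 ∪ D3)) = 0 :=
    zs (by simp only [Finset.mem_union, not_or]; exact a2) (by rw [smE d23, sa'])
  have zb : sm (insert b (D0 ∪ D2)) = 0 :=
    zs (by simp only [Finset.mem_union, not_or]; exact b1) (by rw [smE d02, sb])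
  have zb' : sm (insert b (D1 ∪ D3)) = 0 :=
    zs (by simp only [Finset.mem_union, not_or]; exact b2) (by rw [smE d13, sb'])
  have zc : sm (insert c (D0 ∪ D3)) = 0 :=
    zs (by simp only [Finset.mem_union, not_or]; exact c1) (by rw [smE d03, sc])
  have zc' : sm (insert c (D1 ∪ D2)) = 0 :=
    zs (by simp only [Finset.mem_union, not_or]; exact c2) (by rw [smE d12, sc'])
  have dU : ∀ {x : V} {E E' : Finset V}, x ∉ E → x ∉ E' → Disjoint E E' →
      (insert x E) ∆ (insert x E') = E ∪ E' := by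
    intro x E E' h1 h2 h3
    ext y
    rw [Finset.mem_symmDiff, Finset.mem_insert, Finset.mem_insert, Finset.mem_union]
    constructor
    · rintro (⟨h4 | h4, h5⟩ | ⟨h4 | h4, h5⟩)
      · exact absurd (Or.inl h4) h5
      · exact Or.inl h4
      · exact absurd (Or.inl h4) h5
      · exact Or.inr h4
    · rintro (h4 | h4)
      · left
        refine ⟨Or.inr h4, ?_⟩
        rintro (h5 | h5)
        · rw [h5] at h4; exact h1 h4
        · exact Finset.disjoint_left.mp h3 h4 h5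
      · right
        refine ⟨Or.inr h4, ?_⟩
        rintro (h5 | h5)
        · rw [h5] at h4; exact h2 h4
        · exact Finset.disjoint_left.mp h3 h5 h4
  have dis2 : ∀ {A B C D : Finset V}, Disjoint A C → Disjoint A D → Disjoint B C → Disjoint B D →
      Disjoint (A ∪ B) (C ∪ D) := by
    intro A B C D h1 h2 h3 h4
    rw [Finset.disjoint_union_left, Finset.disjoint_union_right, Finset.disjoint_union_right]
    exact ⟨⟨h1, h2⟩, ⟨h3, h4⟩⟩
  have Ua : (D0 ∪ D1) ∪ (D2 ∪ D3) = U := rfl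
  have Ub : (D0 ∪ D2) ∪ (D1 ∪ D3) = U := by
    rw [hU]; ext x; simp only [Finset.mem_union]; tauto
  have Uc : (D0 ∪ D3) ∪ (D1 ∪ D2) = U := by
    rw [hU]; ext x; simp only [Finset.mem_union]; tauto
  have ka := side (κ := κ) (by simp only [Finset.mem_union, not_or]; exact a1)
    (by simp only [Finset.mem_union, not_or]; exact a2) (dis2 d02 d03 d12 d13)
    (by rw [smE d23, sa']) Ga Ga' (by
      rw [← hadd _ _ za za', dU (by simp only [Finset.mem_union, not_or]; exact a1)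
        (by simp only [Finset.mem_union, not_or]; exact a2) (dis2 d02 d03 d12 d13)])
  have kb := side (κ := κ) (by simp only [Finset.mem_union, not_or]; exact b1)
    (by simp only [Finset.mem_union, not_or]; exact b2) (dis2 d01 d03 d12.symm d23)
    (by rw [smE d13, sb']) Gb Gb' (by
      rw [← hadd _ _ zb zb', dU (by simp only [Finset.mem_union, not_or]; exact b1)
        (by simp only [Finset.mem_union, not_or]; exact b2) (dis2 d01 d03 d12.symm d23)])
  have kc := side (κ := κ) (by simp only [Finset.mem_union, not_or]; exact c1)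
    (by simp only [Finset.mem_union, not_or]; exact c2) (dis2 d01 d02 d13.symm d23.symm)
    (by rw [smE d12, sc']) Gc Gc' (by
      rw [← hadd _ _ zc zc', dU (by simp only [Finset.mem_union, not_or]; exact c1)
        (by simp only [Finset.mem_union, not_or]; exact c2) (dis2 d01 d02 d13.symm d23.symm)])
  rw [Ua] at ka
  rw [Ub] at kb
  rw [Uc] at kc
  obtain ⟨Ya, hYa, hYa1, hYa2⟩ := ka
  obtain ⟨Yb, hYb, hYb1, hYb2⟩ := kb
  obtain ⟨Yc, hYc, hYc1, hYc2⟩ := kc
  -- transfer to a common set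
  have transfer : ∀ (x : V) (E Y Y' : Finset V), E ⊆ U → sm E = x → Y ⊆ U → Y' ⊆ U →
      κ U = sm Y → κ U = sm Y' → Za x (κ (insert x E) + sm (Y' ∩ E)) →
      Za x (κ (insert x E) + sm (Y ∩ E)) := by
    intro x E Y Y' hE hsE hY hY' h1 h2 h3
    have h4 : sm (Y ∆ Y') = 0 := by rw [sm_symmDiff, ← h1, ← h2, self_add]
    have h5 : Y ∆ Y' ⊆ U := by
      intro z hz
      rw [Finset.mem_symmDiff] at hz
      rcases hz with hz | hz
      · exact hY hz.1
      · exact hY' hz.1
    rcases hcirc _ h5 h4 with h6 | h6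
    · have h7 : Y = Y' := symmDiff_eq_bot.mp h6
      rw [h7]; exact h3
    · have h7 : (Y ∩ E) ∆ (Y' ∩ E) = E := by
        ext z
        simp only [Finset.mem_symmDiff, Finset.mem_inter]
        constructor
        · rintro (⟨⟨-, h8⟩, -⟩ | ⟨⟨-, h8⟩, -⟩)
          · exact h8
          · exact h8
        · intro hz
          have := hE hz
          rw [← h6, Finset.mem_symmDiff] at this
          tauto
      have h8 : sm (Y ∩ E) + sm (Y' ∩ E) = x := by rw [← sm_symmDiff, h7, hsE]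
      have h9 : κ (insert x E) + sm (Y ∩ E) = (κ (insert x E) + sm (Y' ∩ E)) + x := by
        generalize κ (insert x E) = k
        rw [← h8]
        have : k + sm (Y' ∩ E) + (sm (Y ∩ E) + sm (Y' ∩ E)) =
          k + sm (Y ∩ E) + (sm (Y' ∩ E) + sm (Y' ∩ E)) := by abel
        rw [this, self_add, add_zero]
      rw [h9]
      exact h3.add (Or.inr rfl)
  have hb2 := transfer b (D0 ∪ D2) Ya Yb (Finset.union_subset m0 m2) (by rw [smE d02, sb]) hYa hYb
    hYa1 hYb1 hYb2
  have hc2 := transfer c (D0 ∪ D3) Ya Yc (Finset.union_subset m0 m3) (by rw [smE d03, sc]) hYa hYc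
    hYa1 hYc1 hYc2
  -- the triangle as a sum
  have zU : sm U = 0 := by rw [hU, smE (dis2 d02 d03 d12 d13), smE d01, smE d23, sa, sa', self_add]
  have T1 : sm ((insert a (D0 ∪ D1)) ∆ (insert b (D0 ∪ D2))) = 0 := by
    rw [sm_symmDiff, za, zb, add_zero]
  have T2 : sm ((insert a (D0 ∪ D1)) ∆ (insert b (D0 ∪ D2)) ∆ (insert c (D0 ∪ D3))) = 0 := by
    rw [sm_symmDiff, T1, zc, add_zero]
  have hset : (insert a (D0 ∪ D1)) ∆ (insert b (D0 ∪ D2)) ∆ (insert c (D0 ∪ D3)) ∆ U =
      ({a, b, c} : Finset V) := by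
    have hsplitU : ∀ x, x ∈ U ↔ x ∈ D0 ∨ x ∈ D1 ∨ x ∈ D2 ∨ x ∈ D3 := by
      intro x; rw [hU]; simp only [Finset.mem_union]; tauto
    ext x
    simp only [Finset.mem_symmDiff, Finset.mem_insert, Finset.mem_singleton, Finset.mem_union,
      hsplitU]
    have q1 := @D01 x
    have q2 := @D02 x
    have q3 := @D03 x
    have q4 := @D12 x
    have q5 := @D13 x
    have q6 := @D23 x
    by_cases hxa : x = a
    · subst hxa
      simp only [a1.1, a1.2, a2.1, a2.2, hab, hac, or_false, false_or, or_self, true_or, not_true,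
        and_false, not_false_eq_true, and_true, and_self, false_and, or_true, true_and]
    by_cases hxb : x = b
    · subst hxb
      simp only [b1.1, b1.2, b2.1, b2.2, hxa, hbc, or_false, false_or, or_self, true_or, not_true,
        and_false, not_false_eq_true, and_true, and_self, false_and, or_true, true_and]
    by_cases hxc : x = c
    · subst hxc
      simp only [c1.1, c1.2, c2.1, c2.2, hxa, hxb, or_false, false_or, or_self, true_or, not_true,
        and_false, not_false_eq_true, and_true, and_self, false_and, or_true, true_and]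
    simp only [hxa, hxb, hxc, false_or]
    by_cases x0 : x ∈ D0
    · simp only [x0, q1 x0, q2 x0, q3 x0]; simp
    by_cases x1 : x ∈ D1
    · simp only [x0, x1, q4 x1, q5 x1]; simp
    by_cases x2 : x ∈ D2
    · simp only [x0, x1, x2, q6 x2]; simp
    by_cases x3 : x ∈ D3
    · simp only [x0, x1, x2, x3]; simp
    · simp only [x0, x1, x2, x3]; simp
  have hK : κ ({a, b, c} : Finset V) = κ (insert a (D0 ∪ D1)) + κ (insert b (D0 ∪ D2)) +
      κ (insert c (D0 ∪ D3)) + κ U := by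
    rw [← hset, hadd _ _ T2 zU, hadd _ _ T1 zc, hadd _ _ za zb]
  -- cancellation
  have hsplit : ∀ {E E' : Finset V}, Disjoint E E' → sm (Ya ∩ (E ∪ E')) =
      sm (Ya ∩ E) + sm (Ya ∩ E') := by
    intro E E' h
    rw [Finset.inter_union_distrib_left, sm_union]
    exact Finset.disjoint_of_subset_left Finset.inter_subset_right
      (Finset.disjoint_of_subset_right Finset.inter_subset_right h)
  have hYU : sm Ya = sm (Ya ∩ D0) + sm (Ya ∩ D1) + (sm (Ya ∩ D2) + sm (Ya ∩ D3)) := by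
    rw [← hsplit d01, ← hsplit d23, ← hsplit (dis2 d02 d03 d12 d13), ← hU,
      Finset.inter_eq_left.mpr hYa]
  have hcancel : sm (Ya ∩ (D0 ∪ D1)) + sm (Ya ∩ (D0 ∪ D2)) + sm (Ya ∩ (D0 ∪ D3)) + sm Ya = 0 := by
    rw [hsplit d01, hsplit d02, hsplit d03, hYU]
    have : sm (Ya ∩ D0) + sm (Ya ∩ D1) + (sm (Ya ∩ D0) + sm (Ya ∩ D2)) +
      (sm (Ya ∩ D0) + sm (Ya ∩ D3)) + (sm (Ya ∩ D0) + sm (Ya ∩ D1) + (sm (Ya ∩ D2) +
      sm (Ya ∩ D3))) = (sm (Ya ∩ D0) + sm (Ya ∩ D0)) + (sm (Ya ∩ D0) + sm (Ya ∩ D0)) +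
      (sm (Ya ∩ D1) + sm (Ya ∩ D1)) + (sm (Ya ∩ D2) + sm (Ya ∩ D2)) +
      (sm (Ya ∩ D3) + sm (Ya ∩ D3)) := by abel
    have z0 := self_add (sm (Ya ∩ D0))
    have z1 := self_add (sm (Ya ∩ D1))
    have z2 := self_add (sm (Ya ∩ D2))
    have z3 := self_add (sm (Ya ∩ D3))
    rw [this, z0, z1, z2, z3]
    simp
  have hfin : κ ({a, b, c} : Finset V) = (κ (insert a (D0 ∪ D1)) + sm (Ya ∩ (D0 ∪ D1))) +
      (κ (insert b (D0 ∪ D2)) + sm (Ya ∩ (D0 ∪ D2))) +
      (κ (insert c (D0 ∪ D3)) + sm (Ya ∩ (D0 ∪ D3))) := by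
    rw [hK, hYa1]
    have e1 : sm Ya = sm (Ya ∩ (D0 ∪ D1)) + sm (Ya ∩ (D0 ∪ D2)) + sm (Ya ∩ (D0 ∪ D3)) :=
      (add_eq_zero_iff'.mp hcancel).symm
    rw [e1]; abel
  rw [hfin]
  have ha2 := hYa2
  rcases ha2 with h1 | h1 <;> rcases hb2 with h2 | h2 <;> rcases hc2 with h3 | h3 <;>
    rw [h1, h2, h3]
  · exact ⟨∅, Finset.empty_subset _, by rw [sm_empty]; simp⟩
  · refine ⟨{c}, ?_, ?_⟩
    · intro x hx; simp only [Finset.mem_singleton] at hx; simp [hx]
    · unfold sm; simp
  · refine ⟨{b}, ?_, ?_⟩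
    · intro x hx; simp only [Finset.mem_singleton] at hx; simp [hx]
    · unfold sm; simp
  · refine ⟨{b, c}, ?_, ?_⟩
    · intro x hx; simp only [Finset.mem_insert, Finset.mem_singleton] at hx ⊢; tauto
    · unfold sm; rw [Finset.sum_pair hbc]; simp
  · refine ⟨{a}, ?_, ?_⟩
    · intro x hx; simp only [Finset.mem_singleton] at hx; simp [hx]
    · unfold sm; simp
  · refine ⟨{a, c}, ?_, ?_⟩
    · intro x hx; simp only [Finset.mem_insert, Finset.mem_singleton] at hx ⊢; tauto
    · unfold sm; rw [Finset.sum_pair hac]; simp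
  · refine ⟨{a, b}, ?_, ?_⟩
    · intro x hx; simp only [Finset.mem_insert, Finset.mem_singleton] at hx ⊢; tauto
    · unfold sm; rw [Finset.sum_pair hab]; simp
  · refine ⟨{a, b, c}, Finset.Subset.refl _, ?_⟩
    unfold sm
    rw [Finset.sum_insert, Finset.sum_pair hbc, add_assoc]
    simp only [Finset.mem_insert, Finset.mem_singleton, not_or]
    exact ⟨hab, hac⟩

end comb

end Pool.Agent.Run7.h698.Von
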