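import Pool.Agent.Run7.h698.VonF

set_option autoImplicit false

open scoped symmDiff

namespace Pool.Agent.Run7.h698.Von

open Pool.Agent.K7.H30.Vo

section ins

variable {V : Type} [AddCommGroup V] [Module (ZMod 2) V] [DecidableEq V]

omit [Module (ZMod 2) V] in
lemma sm_insert {a : V} {S : Finset V} (h : a ∉ S) : sm (insert a S) = a + sm S := by
  unfold sm; rw [Finset.sum_insert h]

end ins

section K3

variable {L V : Type} [AddCommGroup L] [AddCommGroup V] [Module (ZMod 2) V] [Fintype V]
  [DecidableEq V] {Λ : Lat L V} (M : Λ.MinSys)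

/-- the triangle lemma -/
theorem K3 {a b c : V} (ha : St M.f a) (hb : St M.f b) (hc : St M.f c) (habc : a + b + c = 0)
    (hab : a ≠ b) {h : L} (hh : h + h = M.y a + M.y b + M.y c)
    (h0 : Λ.pr h ≠ 0) (h1 : Λ.pr h ≠ a) (h2 : Λ.pr h ≠ b) (h3 : Λ.pr h ≠ c)
    {κ : Finset V → V}
    (hadd : ∀ S S' : Finset V, sm S = 0 → sm S' = 0 → κ (S ∆ S') = κ S + κ S')
    (ih : ∀ S : Finset V, (∀ x ∈ S, St M.f x) → sm S = 0 →
      ∑ x ∈ S, M.f x < M.f a + M.f b + M.f c → ∃ X ⊆ S, κ S = sm X) :
    ∃ X ⊆ ({a, b, c} : Finset V), κ {a, b, c} = sm X := by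
  have hcab : c = a + b := (add_eq_zero_iff'.mp habc).symm
  have hac : a ≠ c := by
    intro h
    apply hb.1
    have : a + b = a + 0 := by rw [add_zero, ← hcab, ← h]
    exact add_left_cancel this
  have hbc : b ≠ c := by
    intro h
    apply ha.1
    have : b + a = b + 0 := by rw [add_zero, add_comm b a, ← hcab, ← h]
    exact add_left_cancel this
  set P : Fin 4 → L := ![h, M.y a - h, M.y b - h, M.y c - h] with hPdef
  have P0 : P 0 = h := rfl
  have P1 : P 1 = M.y a - h := rfl
  have P2 : P 2 = M.y b - h := rfl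
  have P3 : P 3 = M.y c - h := rfl
  have hPne : ∀ i, P i ≠ 0 := by
    intro i
    fin_cases i
    · intro e
      have e' : h = 0 := e
      exact h0 (by rw [e', map_zero])
    · intro e
      have e' : M.y a - h = 0 := e
      exact h1 (by rw [← sub_eq_zero.mp e', M.pr_y])
    · intro e
      have e' : M.y b - h = 0 := e
      exact h2 (by rw [← sub_eq_zero.mp e', M.pr_y])
    · intro e
      have e' : M.y c - h = 0 := e
      exact h3 (by rw [← sub_eq_zero.mp e', M.pr_y])
  obtain ⟨D, hDne, hDdis, hDst, hDsm, hDw, hDc⟩ := blocks M (ι := Fin 4) (by simp) P hPne (by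
    intro p q hpq hen hs
    rw [Fin.sum_univ_four] at hs
    have := prod_lemma M ha hb hc habc hh (hpq 0) (hpq 1) (hpq 2) (hpq 3) (hen 0) (hen 1) (hen 2)
      (hen 3) hs
    rcases this with ⟨k0, k1, k2, k3⟩ | ⟨k0, k1, k2, k3⟩
    · left
      intro i
      fin_cases i
      · exact k0
      · exact k1
      · exact k2
      · exact k3
    · right
      intro i
      fin_cases i
      · exact k0
      · exact k1
      · exact k2
      · exact k3)
  have d01 := hDdis 0 1 (by decide)
  have d02 := hDdis 0 2 (by decide)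
  have d03 := hDdis 0 3 (by decide)
  have d12 := hDdis 1 2 (by decide)
  have d13 := hDdis 1 3 (by decide)
  have d23 := hDdis 2 3 (by decide)
  have s0 : sm (D 0) = Λ.pr h := hDsm 0
  have s1 : sm (D 1) = a + Λ.pr h := by
    rw [hDsm 1, P1, map_sub, M.pr_y, sub_eq_add']
  have s2 : sm (D 2) = b + Λ.pr h := by
    rw [hDsm 2, P2, map_sub, M.pr_y, sub_eq_add']
  have s3 : sm (D 3) = c + Λ.pr h := by
    rw [hDsm 3, P3, map_sub, M.pr_y, sub_eq_add']
  have aux : ∀ x : V, Λ.pr h + (x + Λ.pr h) = x := by
    intro x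
    have : Λ.pr h + (x + Λ.pr h) = x + (Λ.pr h + Λ.pr h) := by abel
    rw [this, self_add, add_zero]
  have sa : sm (D 0) + sm (D 1) = a := by rw [s0, s1, aux]
  have sb : sm (D 0) + sm (D 2) = b := by rw [s0, s2, aux]
  have sc : sm (D 0) + sm (D 3) = c := by rw [s0, s3, aux]
  have sall : sm (D 0) + sm (D 1) + sm (D 2) + sm (D 3) = 0 := by
    rw [sa, s2, s3]
    have : a + (b + Λ.pr h) + (c + Λ.pr h) = (a + b + c) + (Λ.pr h + Λ.pr h) := by abel
    rw [this, habc, self_add, add_zero]
  have w0 : ∑ x ∈ D 0, M.f x ≤ Λ.q h := hDw 0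
  have w1 : ∑ x ∈ D 1, M.f x ≤ Λ.q (M.y a - h) := hDw 1
  have w2 : ∑ x ∈ D 2, M.f x ≤ Λ.q (M.y b - h) := hDw 2
  have w3 : ∑ x ∈ D 3, M.f x ≤ Λ.q (M.y c - h) := hDw 3
  -- the circuit property
  have hcirc : ∀ X ⊆ (D 0 ∪ D 1) ∪ (D 2 ∪ D 3), sm X = 0 →
      X = ∅ ∨ X = (D 0 ∪ D 1) ∪ (D 2 ∪ D 3) := by
    intro X hX hs
    rcases hDc X (by
      intro x hx
      have := hX hx
      simp only [Finset.mem_union] at this
      rcases this with (h | h) | (h | h)
      · exact ⟨0, h⟩
      · exact ⟨1, h⟩
      · exact ⟨2, h⟩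
      · exact ⟨3, h⟩) hs with h | h
    · exact Or.inl h
    · right
      apply Finset.Subset.antisymm hX
      exact Finset.union_subset (Finset.union_subset (h 0) (h 1))
        (Finset.union_subset (h 2) (h 3))
  -- weights
  obtain ⟨wa, wa'⟩ := K3_weight M ha habc hh h0 h1 h2 h3
  obtain ⟨wb, wb'⟩ := K3_weight M (a := b) (b := a) (c := c) hb (by rw [← habc]; abel)
    (h := h) (by rw [hh]; abel) h0 h2 h1 h3
  obtain ⟨wc, wc'⟩ := K3_weight M (a := c) (b := a) (c := b) hc (by rw [← habc]; abel)
    (h := h) (by rw [hh]; abel) h0 h3 h1 h2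
  -- goodness of the light cycles
  have good : ∀ (x : V) (E E' : Finset V), St M.f x → (∀ y ∈ E, St M.f y) → (∀ y ∈ E', St M.f y) →
      Disjoint E E' → sm E + sm E' = x →
      M.f x + (∑ y ∈ E, M.f y + ∑ y ∈ E', M.f y) < M.f a + M.f b + M.f c →
      x ∉ E ∪ E' → ∃ X ⊆ insert x (E ∪ E'), κ (insert x (E ∪ E')) = sm X := by
    intro x E E' hx hE hE' hd hs hw hxE
    apply ih
    · intro y hy
      rcases Finset.mem_insert.mp hy with h | h
      · rw [h]; exact hx
      · rcases Finset.mem_union.mp h with h | h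
        · exact hE y h
        · exact hE' y h
    · unfold sm
      rw [Finset.sum_insert hxE, Finset.sum_union hd]
      have e1 : ∑ a ∈ E, a + ∑ a ∈ E', a = x := hs
      rw [e1, self_add]
    · rw [Finset.sum_insert hxE, Finset.sum_union hd]
      exact hw
  have sa' : sm (D 2) + sm (D 3) = a := by
    have h1 : a + (sm (D 2) + sm (D 3)) = 0 := by rw [← sa, ← sall]; abel
    exact (add_eq_zero_iff'.mp h1).symm
  have sb' : sm (D 1) + sm (D 3) = b := by
    have h1 : b + (sm (D 1) + sm (D 3)) = 0 := by rw [← sb, ← sall]; abel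
    exact (add_eq_zero_iff'.mp h1).symm
  have sc' : sm (D 1) + sm (D 2) = c := by
    have h1 : c + (sm (D 1) + sm (D 2)) = 0 := by rw [← sc, ← sall]; abel
    exact (add_eq_zero_iff'.mp h1).symm
  exact K3_comb hadd hab hac hbc (hDne 0) (hDne 1) (hDne 2) (hDne 3) d01 d02 d03 d12 d13 d23
    sa sb sc sall hcirc
    (good a (D 0) (D 1) ha (hDst 0) (hDst 1) d01 sa (by linarith))
    (good a (D 2) (D 3) ha (hDst 2) (hDst 3) d23 sa' (by linarith))
    (good b (D 0) (D 2) hb (hDst 0) (hDst 2) d02 sb (by linarith))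
    (good b (D 1) (D 3) hb (hDst 1) (hDst 3) d13 sb' (by linarith))
    (good c (D 0) (D 3) hc (hDst 0) (hDst 3) d03 sc (by linarith))
    (good c (D 1) (D 2) hc (hDst 1) (hDst 2) d12 sc' (by linarith))

/-- a strict class that is the sum of a set with at least two elements is lighter than the set -/
lemma chord_lt {A : Finset V} (hA : 2 ≤ A.card) (hst : St M.f (sm A)) (hAs : ∀ a ∈ A, St M.f a)
    (hn : sm A ∉ A) : M.f (sm A) < ∑ a ∈ A, M.f a := by
  obtain ⟨a, ha⟩ : A.Nonempty := Finset.card_pos.mp (by omega)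
  have h1 : a + sm (A.erase a) = sm A := by
    unfold sm
    exact Finset.add_sum_erase A (fun a => a) ha
  have h2 : sm A + a = sm (A.erase a) := by
    rw [← h1]
    have : a + sm (A.erase a) + a = sm (A.erase a) + (a + a) := by abel
    rw [this, self_add, add_zero]
  have h3 := hst.2 a (hAs a ha).1 (fun h => hn (h ▸ ha))
  rw [h2] at h3
  have h4 := f_sm M (A.erase a)
  have h5 : M.f a + ∑ x ∈ A.erase a, M.f x = ∑ x ∈ A, M.f x := Finset.add_sum_erase A M.f ha
  linarith

end K3

section main

variable {L L' V : Type} [AddCommGroup L] [AddCommGroup L'] [AddCommGroup V] [Module (ZMod 2) V]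
  [Fintype V] [DecidableEq V] {Λ : Lat L V} {Λ' : Lat L' V} (M : Λ.MinSys) (M' : Λ'.MinSys)

omit [Fintype V] in
lemma KK_empty : KK M M' ∅ = 0 := by
  unfold KK
  have h1 : TT M ∅ = 0 := by
    rw [TT_eq M (x := 0) (by rw [Finset.sum_empty, add_zero]), map_zero]
  have h2 : TT M' ∅ = 0 := by
    rw [TT_eq M' (x := 0) (by rw [Finset.sum_empty, add_zero]), map_zero]
  rw [h1, h2, add_zero]

/-- every circuit of at least four strict classes has a chord -/
def Chordal (f : V → ℝ) : Prop :=
  ∀ r : Finset V, 4 ≤ r.card → (∀ a ∈ r, St f a) → Circ r →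
    ∃ A ⊆ r, 2 ≤ A.card ∧ A.card + 2 ≤ r.card ∧ St f (sm A)

theorem all_good_of_chordal (hf : ∀ v, M.f v = M'.f v) (hch : Chordal M.f) :
    ∀ S : Finset V, (∀ a ∈ S, St M.f a) → sm S = 0 → ∃ X ⊆ S, KK M M' S = sm X := by
  have hff : M'.f = M.f := funext (fun v => (hf v).symm)
  have hadd : ∀ S S' : Finset V, sm S = 0 → sm S' = 0 →
      KK M M' (S ∆ S') = KK M M' S + KK M M' S' := fun S S' h h' => KK_symmDiff M M' h h'
  have wf : WellFounded (fun p p' : Finset V => ∑ a ∈ p, M.f a < ∑ a ∈ p', M.f a) := by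
    haveI : IsTrans (Finset V) (fun p p' : Finset V => ∑ a ∈ p, M.f a < ∑ a ∈ p', M.f a) :=
      ⟨fun _ _ _ h1 h2 => lt_trans h1 h2⟩
    haveI : Std.Irrefl (fun p p' : Finset V => ∑ a ∈ p, M.f a < ∑ a ∈ p', M.f a) :=
      ⟨fun _ h => lt_irrefl _ h⟩
    exact Finite.wellFounded_of_trans_of_irrefl _
  intro S
  induction S using wf.induction with
  | _ S ih =>
    intro hS h0
    by_cases hne : S = ∅
    · refine ⟨∅, Finset.empty_subset _, ?_⟩
      rw [hne, KK_empty, sm_empty]
    by_cases hcirc : Circ S
    swap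
    · -- a proper zero-sum subset
      unfold Circ at hcirc
      push Not at hcirc
      obtain ⟨X, hX, hX0, hXne, hXS⟩ := hcirc (Finset.nonempty_iff_ne_empty.mpr hne) h0
      have hsd : (S \ X).Nonempty := by
        rw [Finset.sdiff_nonempty]
        intro h
        exact hXS (Finset.Subset.antisymm hX h)
      have hpos : ∀ Y ⊆ S, Y.Nonempty → 0 < ∑ a ∈ Y, M.f a := by
        intro Y hY hYne
        apply Finset.sum_pos (fun a ha => M.f_pos (hS a (hY ha)).1) hYne
      have hsum : ∑ a ∈ S \ X, M.f a + ∑ a ∈ X, M.f a = ∑ a ∈ S, M.f a := Finset.sum_sdiff hX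
      have p1 := hpos _ Finset.sdiff_subset hsd
      have p2 := hpos _ hX hXne
      have hz : sm (S \ X) = 0 := by rw [sm_sdiff hX, h0, hX0, add_zero]
      obtain ⟨X1, hX1, hX1'⟩ := ih X (by linarith) (fun a ha => hS a (hX ha)) hX0
      obtain ⟨X2, hX2, hX2'⟩ := ih (S \ X) (by linarith)
        (fun a ha => hS a (Finset.sdiff_subset ha)) hz
      have hd : Disjoint X (S \ X) := Finset.disjoint_sdiff
      have hset : X ∆ (S \ X) = S := by
        rw [Disjoint.symmDiff_eq_sup hd]
        exact Finset.union_sdiff_of_subset hX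
      refine ⟨X1 ∪ X2, Finset.union_subset (hX1.trans hX) (hX2.trans Finset.sdiff_subset), ?_⟩
      rw [← hset, hadd _ _ hX0 hz, hX1', hX2', sm_union]
      exact Finset.disjoint_of_subset_left hX1 (Finset.disjoint_of_subset_right hX2 hd)
    -- circuits
    have hcard0 : S.card ≠ 0 := fun h => hne (Finset.card_eq_zero.mp h)
    by_cases hc1 : S.card = 1
    · obtain ⟨a, ha⟩ := Finset.card_eq_one.mp hc1
      exfalso
      apply (hS a (by rw [ha]; exact Finset.mem_singleton_self _)).1
      rw [ha] at h0
      unfold sm at h0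
      rwa [Finset.sum_singleton] at h0
    by_cases hc2 : S.card = 2
    · obtain ⟨a, b, hab, he⟩ := Finset.card_eq_two.mp hc2
      exfalso
      apply hab
      rw [he] at h0
      unfold sm at h0
      rw [Finset.sum_pair hab] at h0
      exact add_eq_zero_iff'.mp h0
    by_cases hc3 : S.card = 3
    · obtain ⟨a, b, c, hab, hac, hbc, he⟩ := Finset.card_eq_three.mp hc3
      have hsumf : ∀ g : V → ℝ, ∑ x ∈ S, g x = g a + g b + g c := by
        intro g
        rw [he, Finset.sum_insert, Finset.sum_pair hbc, add_assoc]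
        simp only [Finset.mem_insert, Finset.mem_singleton, not_or]
        exact ⟨hab, hac⟩
      have habc : a + b + c = 0 := by
        rw [he] at h0
        unfold sm at h0
        rw [Finset.sum_insert, Finset.sum_pair hbc, ← add_assoc] at h0
        · exact h0
        · simp only [Finset.mem_insert, Finset.mem_singleton, not_or]
          exact ⟨hab, hac⟩
      have sta : St M.f a := hS a (by rw [he]; simp)
      have stb : St M.f b := hS b (by rw [he]; simp)
      have stc : St M.f c := hS c (by rw [he]; simp)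
      have ih' : ∀ T : Finset V, (∀ x ∈ T, St M.f x) → sm T = 0 →
          ∑ x ∈ T, M.f x < M.f a + M.f b + M.f c → ∃ X ⊆ T, KK M M' T = sm X := by
        intro T h1 h2 h3
        exact ih T (by rw [hsumf M.f]; exact h3) h1 h2
      -- half sums
      have hM := half_sum M h0
      have hM' := half_sum M' h0
      have tM : TT M S = Λ.pr (Lat.half (∑ a ∈ S, M.y a)) := rfl
      have tM' : TT M' S = Λ'.pr (Lat.half (∑ a ∈ S, M'.y a)) := rfl
      set hh := Lat.half (∑ a ∈ S, M.y a) with hhdef
      set hh' := Lat.half (∑ a ∈ S, M'.y a) with hhdef'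
      have sumy : ∑ x ∈ S, M.y x = M.y a + M.y b + M.y c := by
        rw [he, Finset.sum_insert, Finset.sum_pair hbc, add_assoc]
        simp only [Finset.mem_insert, Finset.mem_singleton, not_or]
        exact ⟨hab, hac⟩
      have sumy' : ∑ x ∈ S, M'.y x = M'.y a + M'.y b + M'.y c := by
        rw [he, Finset.sum_insert, Finset.sum_pair hbc, add_assoc]
        simp only [Finset.mem_insert, Finset.mem_singleton, not_or]
        exact ⟨hab, hac⟩
      by_cases hin : Λ.pr hh = 0 ∨ Λ.pr hh = a ∨ Λ.pr hh = b ∨ Λ.pr hh = c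
      swap
      · push Not at hin
        obtain ⟨k0, k1, k2, k3⟩ := hin
        rw [he]
        exact K3 M sta stb stc habc hab (by rw [hM, sumy]) k0 k1 k2 k3 hadd ih'
      by_cases hin' : Λ'.pr hh' = 0 ∨ Λ'.pr hh' = a ∨ Λ'.pr hh' = b ∨ Λ'.pr hh' = c
      swap
      · push Not at hin'
        obtain ⟨k0, k1, k2, k3⟩ := hin'
        rw [he]
        exact K3 M' (by rw [hff]; exact sta) (by rw [hff]; exact stb) (by rw [hff]; exact stc)
          habc hab (by rw [hM', sumy']) k0 k1 k2 k3 hadd (by rw [hff]; exact ih')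
      have single : ∀ v : V, (v = 0 ∨ v = a ∨ v = b ∨ v = c) → ∃ X ⊆ S, v = sm X := by
        intro v hv
        have sing : ∀ x ∈ S, ∃ X ⊆ S, x = sm X := by
          intro x hx
          refine ⟨{x}, Finset.singleton_subset_iff.mpr hx, ?_⟩
          unfold sm; rw [Finset.sum_singleton]
        rcases hv with h | h | h | h
        · exact ⟨∅, Finset.empty_subset _, by rw [h, sm_empty]⟩
        · rw [h]; exact sing a (by rw [he]; simp)
        · rw [h]; exact sing b (by rw [he]; simp)
        · rw [h]; exact sing c (by rw [he]; simp)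
      obtain ⟨X, hX, hX'⟩ := single _ hin
      obtain ⟨Y, hY, hY'⟩ := single _ hin'
      refine ⟨X ∆ Y, ?_, ?_⟩
      · intro x hx
        rw [Finset.mem_symmDiff] at hx
        rcases hx with hx | hx
        · exact hX hx.1
        · exact hY hx.1
      · unfold KK
        rw [tM, tM', hX', hY', sm_symmDiff]
    -- at least four elements: use the chord
    obtain ⟨A, hA, hA2, hA2', hAst⟩ := hch S (by omega) hS hcirc
    set B := S \ A with hB
    have hBcard : 2 ≤ B.card := by
      rw [hB, Finset.card_sdiff_of_subset hA]; omega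
    have hsB : sm B = sm A := by rw [hB, sm_sdiff hA, h0, zero_add]
    have hdAB : Disjoint A B := Finset.disjoint_sdiff
    have hUn : A ∪ B = S := Finset.union_sdiff_of_subset hA
    have heS : sm A ∉ S := by
      intro heS
      rcases Finset.mem_union.mp (hUn.symm ▸ heS) with h | h
      · have h1 : sm A + sm (A.erase (sm A)) = sm A := by
          conv_rhs => unfold sm
          exact Finset.add_sum_erase A (fun a => a) h
        have h2 : sm (A.erase (sm A)) = 0 := add_eq_left.mp h1
        rcases hcirc.2.2 _ ((Finset.erase_subset _ _).trans hA) h2 with h3 | h3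
        · have h4 : (A.erase (sm A)).card = A.card - 1 := Finset.card_erase_of_mem h
          rw [h3, Finset.card_empty] at h4
          omega
        · have h4 : (A.erase (sm A)).card = A.card - 1 := Finset.card_erase_of_mem h
          rw [h3] at h4
          omega
      · have h1 : sm B + sm (B.erase (sm B)) = sm B := by
          conv_rhs => unfold sm
          exact Finset.add_sum_erase B (fun a => a) (by rw [hsB]; exact h)
        have h2 : sm (B.erase (sm B)) = 0 := add_eq_left.mp h1
        have h5 : sm B ∈ B := by rw [hsB]; exact h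
        have hBS : B ⊆ S := Finset.sdiff_subset
        have hBc : B.card + A.card = S.card := by
          rw [hB]; exact Finset.card_sdiff_add_card_eq_card hA
        rcases hcirc.2.2 _ ((Finset.erase_subset _ _).trans hBS) h2 with h3 | h3
        · have h4 : (B.erase (sm B)).card = B.card - 1 := Finset.card_erase_of_mem h5
          rw [h3, Finset.card_empty] at h4
          omega
        · have h4 : (B.erase (sm B)).card = B.card - 1 := Finset.card_erase_of_mem h5
          rw [h3] at h4
          omega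
    have heA : sm A ∉ A := fun h => heS (hA h)
    have heB : sm A ∉ B := fun h => heS (Finset.sdiff_subset h)
    have hBS : B ⊆ S := Finset.sdiff_subset
    have l1 := chord_lt M hA2 hAst (fun a ha => hS a (hA ha)) heA
    have l2 := chord_lt M (A := B) hBcard (by rw [hsB]; exact hAst)
      (fun a ha => hS a (hBS ha)) (by rw [hsB]; exact heB)
    rw [hsB] at l2
    have hsum : ∑ a ∈ A, M.f a + ∑ a ∈ B, M.f a = ∑ a ∈ S, M.f a := by
      rw [← Finset.sum_union hdAB, hUn]
    have gA : ∃ X ⊆ insert (sm A) A, KK M M' (insert (sm A) A) = sm X := by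
      apply ih
      · rw [Finset.sum_insert heA]; linarith
      · intro a ha
        rcases Finset.mem_insert.mp ha with h | h
        · rw [h]; exact hAst
        · exact hS a (hA h)
      · rw [sm_insert heA, self_add]
    have gB : ∃ X ⊆ insert (sm A) B, KK M M' (insert (sm A) B) = sm X := by
      apply ih
      · rw [Finset.sum_insert heB]; linarith
      · intro a ha
        rcases Finset.mem_insert.mp ha with h | h
        · rw [h]; exact hAst
        · exact hS a (hBS h)
      · rw [sm_insert heB, hsB, self_add]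
    have zA : sm (insert (sm A) A) = 0 := by rw [sm_insert heA, self_add]
    have zB : sm (insert (sm A) B) = 0 := by rw [sm_insert heB, hsB, self_add]
    have hsd : (insert (sm A) A) ∆ (insert (sm A) B) = A ∪ B := by
      ext y
      rw [Finset.mem_symmDiff, Finset.mem_insert, Finset.mem_insert, Finset.mem_union]
      constructor
      · rintro (⟨h4 | h4, h5⟩ | ⟨h4 | h4, h5⟩)
        · exact absurd (Or.inl h4) h5
        · exact Or.inl h4
        · exact absurd (Or.inl h4) h5
        · exact Or.inr h4
      · rintro (h4 | h4)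
        · left
          refine ⟨Or.inr h4, ?_⟩
          rintro (h5 | h5)
          · rw [h5] at h4; exact heA h4
          · exact Finset.disjoint_left.mp hdAB h4 h5
        · right
          refine ⟨Or.inr h4, ?_⟩
          rintro (h5 | h5)
          · rw [h5] at h4; exact heB h4
          · exact Finset.disjoint_left.mp hdAB h5 h4
    obtain ⟨Y, hY, hY', -⟩ := side (κ := KK M M') heA heB hdAB hsB gA gB (by
      rw [← hadd _ _ zA zB, hsd])
    rw [hUn] at hY hY'
    exact ⟨Y, hY, hY'⟩

/-- chordal lattices are determined by their vonorms -/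
theorem isometry_of_chordal (hf : ∀ v, M.f v = M'.f v) (hch : Chordal M.f) :
    ∃ e : L ≃+ L', ∀ z, Λ'.q (e z) = Λ.q z :=
  isometry_of_good M M' hf (all_good_of_chordal M M' hf hch)

end main

end Pool.Agent.Run7.h698.Von
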