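import Pool.Agent.K7.H30.VoG
import Pool.Agent.Run7.h698.VonG

set_option autoImplicit false
open Matrix

namespace Pool.Agent.Run7.h698.Von

open Pool.Agent.K7.H30.Vo

variable {n : ℕ}

/-- From an isometry of the two lattices to an integral equivalence of the two forms. -/
theorem matrix_of_isometry {A B : Matrix (Fin n) (Fin n) ℝ} (hA : A.PosDef) (hB : B.PosDef)
    (h : ∃ e : (Fin n → ℤ) ≃+ (Fin n → ℤ), ∀ z, (latOf hB).q (e z) = (latOf hA).q z) :
    ∃ U : Matrix (Fin n) (Fin n) ℤ, IsUnit U.det ∧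
        B = (U.map (Int.cast : ℤ → ℝ))ᵀ * A * U.map (Int.cast : ℤ → ℝ) := by
  obtain ⟨e, he⟩ := h
  set g : (Fin n → ℤ) ≃ₗ[ℤ] (Fin n → ℤ) := e.symm.toIntLinearEquiv with hg
  have hgq : ∀ z, (latOf hA).q (g z) = (latOf hB).q z := by
    intro z
    have h1 := he (e.symm z)
    rw [e.apply_symm_apply] at h1
    exact h1.symm
  have hgadd : ∀ x y, g (x + y) = g x + g y := fun x y => map_add g x y
  have hgb : ∀ x y, (latOf hB).b x y = (latOf hA).b (g x) (g y) := by
    intro x y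
    have h1 := hgq (x + y)
    rw [hgadd, Lat.q_add, Lat.q_add, hgq, hgq] at h1
    linarith
  refine ⟨LinearMap.toMatrix' (g : (Fin n → ℤ) →ₗ[ℤ] (Fin n → ℤ)), ?_, ?_⟩
  · rw [LinearMap.det_toMatrix']
    exact LinearEquiv.isUnit_det' g
  · ext i j
    have h1 := hgb (Pi.single i 1) (Pi.single j 1)
    have hc : ∀ k : Fin n, cv (Pi.single k 1 : Fin n → ℤ) = Pi.single k 1 := by
      intro k
      funext l
      unfold cv
      by_cases hkl : l = k
      · subst hkl; simp
      · simp [hkl]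
    have hB1 : (latOf hB).b (Pi.single i 1) (Pi.single j 1) = B i j := by
      show rb B (cv (Pi.single i 1)) (cv (Pi.single j 1)) = B i j
      rw [hc, hc]
      unfold rb
      rw [single_one_dotProduct, mulVec_single_one]
      rfl
    have hU : ∀ k : Fin n, cv (g (Pi.single k 1)) =
        ((LinearMap.toMatrix' (g : (Fin n → ℤ) →ₗ[ℤ] (Fin n → ℤ))).map
          (Int.cast : ℤ → ℝ)).col k := by
      intro k
      funext l
      simp [cv, LinearMap.toMatrix'_apply]
    have hA1 : (latOf hA).b (g (Pi.single i 1)) (g (Pi.single j 1)) =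
        (((LinearMap.toMatrix' (g : (Fin n → ℤ) →ₗ[ℤ] (Fin n → ℤ))).map
          (Int.cast : ℤ → ℝ))ᵀ * A * ((LinearMap.toMatrix' (g : (Fin n → ℤ) →ₗ[ℤ] (Fin n → ℤ))).map
          (Int.cast : ℤ → ℝ))) i j := by
      show rb A (cv (g (Pi.single i 1))) (cv (g (Pi.single j 1))) = _
      rw [hU, hU]
      unfold rb
      rw [Matrix.mul_assoc, Matrix.mul_apply]
      rfl
    rw [← hB1, h1, hA1]

/-- the vectors of least value in the class `c` of integral vectors mod 2 are a single pair -/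
def Uniq (A : Matrix (Fin n) (Fin n) ℝ) (c : Fin n → ZMod 2) : Prop :=
  ∀ x y : Fin n → ℤ, (∀ i, ((x i : ℤ) : ZMod 2) = c i) → (∀ i, ((y i : ℤ) : ZMod 2) = c i) →
    (∀ z : Fin n → ℤ, (∀ i, ((z i : ℤ) : ZMod 2) = c i) →
      rb A (cv x) (cv x) ≤ rb A (cv z) (cv z) ∧ rb A (cv y) (cv y) ≤ rb A (cv z) (cv z)) →
    y = x ∨ y = -x

lemma St_iff_uniq {A : Matrix (Fin n) (Fin n) ℝ} (hA : A.PosDef) (M : (latOf hA).MinSys)
    {c : Fin n → ZMod 2} (hc : c ≠ 0) : St M.f c ↔ Uniq A c := by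
  have hpr : ∀ x : Fin n → ℤ, (latOf hA).pr x = c ↔ ∀ i, ((x i : ℤ) : ZMod 2) = c i := by
    intro x
    constructor
    · intro h i
      rw [← latOf_pr hA x i, h]
    · intro h
      funext i
      rw [latOf_pr]; exact h i
  constructor
  · intro hst x y hx hy hmin
    have px := (hpr x).mpr hx
    have py := (hpr y).mpr hy
    have h1 := hmin (M.y c) ((hpr _).mp (M.pr_y c))
    have hx1 : (latOf hA).q x ≤ M.f c := h1.1
    have hy1 : (latOf hA).q y ≤ M.f c := h1.2
    rcases hst.uniq px hx1 with h2 | h2 <;> rcases hst.uniq py hy1 with h3 | h3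
    · left; rw [h2, h3]
    · right; rw [h2, h3]
    · right; rw [h2, h3, neg_neg]
    · left; rw [h2, h3]
  · intro hu
    apply St_of_uniq M hc
    intro z hz hq
    apply hu (M.y c) z ((hpr _).mp (M.pr_y c)) ((hpr _).mp hz)
    intro w hw
    have h1 : M.f c ≤ (latOf hA).q w := M.f_le' ((hpr w).mpr hw)
    exact ⟨h1, le_trans hq h1⟩

lemma f_eq_of_tcvp {A B : Matrix (Fin n) (Fin n) ℝ} (hA : A.PosDef) (hB : B.PosDef)
    (M : (latOf hA).MinSys) (N : (latOf hB).MinSys)
    (h : ∀ S : Finset (Fin n), S.Nonempty →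
        (⨅ x : Fin n → ℤ,
          dotProduct (fun i => (x i : ℝ) - (if i ∈ S then (1/2 : ℝ) else 0))
            (A.mulVec (fun i => (x i : ℝ) - (if i ∈ S then (1/2 : ℝ) else 0))))
        = (⨅ x : Fin n → ℤ,
          dotProduct (fun i => (x i : ℝ) - (if i ∈ S then (1/2 : ℝ) else 0))
            (B.mulVec (fun i => (x i : ℝ) - (if i ∈ S then (1/2 : ℝ) else 0))))) :
    ∀ v, M.f v = N.f v := by
  intro v
  obtain ⟨S, rfl⟩ := cls_surj v
  by_cases hS : S.Nonempty
  · have h1 := h S hS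
    rw [tcvp_eq hA M S, tcvp_eq hB N S] at h1
    linarith
  · rw [Finset.not_nonempty_iff_eq_empty] at hS
    have h0 : (cls S) = 0 := by
      funext i
      simp [cls, hS]
    rw [h0, M.f_zero, N.f_zero]

end Pool.Agent.Run7.h698.Von
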