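import Pool.Agent.Run7.h698.VonG

set_option autoImplicit false

open scoped symmDiff

namespace Pool.Agent.Run7.h698.Von

open Pool.Agent.K7.H30.Vo

section sv

variable {L V : Type} [AddCommGroup L] [AddCommGroup V] [Module (ZMod 2) V]
  {Λ : Lat L V} (M : Λ.MinSys)

/-- `x` is one of the two minimal vectors of a strict class -/
def Sv (x : L) : Prop := St M.f (Λ.pr x) ∧ Λ.q x ≤ M.f (Λ.pr x)

/-- `x` is a minimal vector of its class -/
def Mn (x : L) : Prop := Λ.q x ≤ M.f (Λ.pr x)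

variable {M}

lemma Mn.eq {x : L} (h : Mn M x) : Λ.q x = M.f (Λ.pr x) := le_antisymm h (M.f_le x)

lemma Mn.neg {x : L} (h : Mn M x) : Mn M (-x) := by
  unfold Mn at h ⊢; rw [Λ.q_neg, pr_neg]; exact h

lemma Sv.mn {x : L} (h : Sv M x) : Mn M x := h.2

lemma Sv.eq {x : L} (h : Sv M x) : Λ.q x = M.f (Λ.pr x) := le_antisymm h.2 (M.f_le x)

lemma Sv.neg {x : L} (h : Sv M x) : Sv M (-x) := by
  unfold Sv at h ⊢; rw [Λ.q_neg, pr_neg]; exact h

lemma Sv.y {a : V} (h : St M.f a) : Sv M (M.y a) := by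
  unfold Sv; rw [M.pr_y]; exact ⟨h, le_refl _⟩

lemma Sv.ne {x : L} (h : Sv M x) : x ≠ 0 := by
  intro h0
  apply h.1.1
  rw [h0, map_zero]

lemma Sv.uniq {x : L} (h : Sv M x) {x' : L} (hp : Λ.pr x' = Λ.pr x) (hq : Mn M x') :
    x' = x ∨ x' = -x := by
  unfold Mn at hq
  rw [hp] at hq
  rcases h.1.uniq rfl h.2 with h1 | h1 <;> rcases h.1.uniq hp hq with h2 | h2
  · left; rw [h2]; exact h1.symm
  · right; rw [h2]; congr 1; exact h1.symm
  · right; rw [h1, neg_neg, h2]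
  · left; rw [h2]; exact h1.symm

/-- splitting a class-minimal vector never gains energy -/
lemma Mn.split_le {x : L} (h : Mn M x) {r s : L} (hrs : r + s = x) :
    Λ.q x ≤ Λ.q r + Λ.q s := min_split M h hrs

lemma Sv.split {x : L} (h : Sv M x) {r s : L} (hrs : r + s = x)
    (hq : Λ.q r + Λ.q s ≤ Λ.q x) : r = 0 ∨ s = 0 := by
  have h1 := h.eq
  rcases h.1.uniq rfl h.2 with h2 | h2
  · exact h.1.split (by rw [hrs]; exact h2) (by linarith)
  · have h3 : (-r) + (-s) = M.y (Λ.pr x) := by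
      rw [← neg_add, hrs]
      nth_rw 1 [h2]
      rw [neg_neg]
    rcases h.1.split h3 (by rw [Λ.q_neg, Λ.q_neg]; linarith) with h4 | h4
    · left; exact neg_eq_zero.mp h4
    · right; exact neg_eq_zero.mp h4

/-- an orthogonal splitting of a class-minimal vector has class-minimal parts -/
lemma Mn.parts {x : L} (h : Mn M x) {r s : L} (hrs : r + s = x)
    (hq : Λ.q r + Λ.q s ≤ Λ.q x) : Mn M r ∧ Mn M s := by
  have h1 := M.f_le r
  have h2 := M.f_le s
  have h3 := f_sub M (Λ.pr r) (Λ.pr s)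
  rw [← map_add, hrs] at h3
  have h4 := h.eq
  unfold Mn
  constructor <;> linarith

/-- the product lemma for two strict vectors and a class-minimal vector -/
lemma prod2 {x1 x2 z h : L} (s1 : Sv M x1) (s2 : Sv M x2) (sz : Mn M z)
    (hh : h + h = x1 + x2 + z)
    (n1 : z ≠ x1 + x2) (n2 : z ≠ -(x1 + x2)) (n3 : z ≠ x1 - x2) (n4 : z ≠ x2 - x1)
    {p0 p1 p2 p3 q0 q1 q2 q3 : L} (e0 : p0 + q0 = h) (e1 : p1 + q1 = x1 - h)
    (e2 : p2 + q2 = x2 - h) (e3 : p3 + q3 = z - h)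
    (i0 : Λ.q p0 + Λ.q q0 ≤ Λ.q h) (i1 : Λ.q p1 + Λ.q q1 ≤ Λ.q (x1 - h))
    (i2 : Λ.q p2 + Λ.q q2 ≤ Λ.q (x2 - h)) (i3 : Λ.q p3 + Λ.q q3 ≤ Λ.q (z - h))
    (hpr : Λ.pr p0 + Λ.pr p1 + Λ.pr p2 + Λ.pr p3 = 0) :
    (p0 = 0 ∧ p1 = 0 ∧ p2 = 0 ∧ p3 = 0) ∨ (q0 = 0 ∧ q1 = 0 ∧ q2 = 0 ∧ q3 = 0) := by
  have hpr' : Λ.pr (p0 + p1 + p2 + p3) = 0 := by rw [map_add, map_add, map_add, hpr]
  obtain ⟨t, ht⟩ := Λ.ker _ hpr'
  have hq : q0 + q1 + q2 + q3 = (-t) + (-t) := by
    have h1 : (p0 + p1 + p2 + p3) + (q0 + q1 + q2 + q3) = 0 := by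
      have : (p0 + p1 + p2 + p3) + (q0 + q1 + q2 + q3) =
        (p0 + q0) + (p1 + q1) + (p2 + q2) + (p3 + q3) := by abel
      rw [this, e0, e1, e2, e3]
      have : h + (x1 - h) + (x2 - h) + (z - h) = (x1 + x2 + z) - (h + h) := by abel
      rw [this, hh, sub_self]
    rw [ht] at h1
    rw [← neg_add]
    exact (eq_neg_of_add_eq_zero_right h1)
  have F1 := four_term (Λ := Λ) ht
  have F2 := four_term (Λ := Λ) hq
  have E : Λ.q h + Λ.q (x1 - h) + Λ.q (x2 - h) + Λ.q (z - h) = Λ.q x1 + Λ.q x2 + Λ.q z := by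
    rw [Λ.q_sub, Λ.q_sub, Λ.q_sub]
    have k1 : Λ.b h (h + h) = Λ.b h x1 + Λ.b h x2 + Λ.b h z := by
      rw [hh, Λ.add_right, Λ.add_right]
    rw [Λ.add_right] at k1
    have k2 : Λ.b h h = Λ.q h := rfl
    rw [Λ.symm x1, Λ.symm x2, Λ.symm z]
    linarith
  have u1 : (p0 + p1 - t) + (q0 + q1 - -t) = x1 := by
    have : (p0 + p1 - t) + (q0 + q1 - -t) = (p0 + q0) + (p1 + q1) := by abel
    rw [this, e0, e1]; abel
  have u2 : (p0 + p2 - t) + (q0 + q2 - -t) = x2 := by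
    have : (p0 + p2 - t) + (q0 + q2 - -t) = (p0 + q0) + (p2 + q2) := by abel
    rw [this, e0, e2]; abel
  have u3 : (p0 + p3 - t) + (q0 + q3 - -t) = z := by
    have : (p0 + p3 - t) + (q0 + q3 - -t) = (p0 + q0) + (p3 + q3) := by abel
    rw [this, e0, e3]; abel
  have j1 := s1.mn.split_le u1
  have j2 := s2.mn.split_le u2
  have j3 := sz.split_le u3
  have k6 := Λ.q_neg t
  have ht0 : t = 0 := Λ.eq_zero_of_q (by linarith)
  have nt := Λ.q_nonneg t
  have c1 := s1.split u1 (by linarith)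
  have c2 := s2.split u2 (by linarith)
  obtain ⟨m1, m2⟩ := sz.parts u3 (by linarith)
  rw [ht0, neg_zero, sub_zero, sub_zero] at u1 u2 u3 c1 c2
  rw [ht0, sub_zero] at m1
  rw [ht0, neg_zero, sub_zero] at m2
  rw [ht0, add_zero] at ht
  rw [ht0, neg_zero, add_zero] at hq
  have twop : p0 + p0 = (p0 + p1) + (p0 + p2) + (p0 + p3) := by
    have : (p0 + p1) + (p0 + p2) + (p0 + p3) = (p0 + p0) + (p0 + p1 + p2 + p3) := by abel
    rw [this, ht, add_zero]
  have twoq : q0 + q0 = (q0 + q1) + (q0 + q2) + (q0 + q3) := by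
    have : (q0 + q1) + (q0 + q2) + (q0 + q3) = (q0 + q0) + (q0 + q1 + q2 + q3) := by abel
    rw [this, hq, add_zero]
  have full : ∀ {x y v : L}, x + y = v → y = 0 → x = v := by
    intro x y v hxy hy
    rw [← hxy, hy, add_zero]
  have full' : ∀ {x y v : L}, x + y = v → x = 0 → y = v := by
    intro x y v hxy hy
    rw [← hxy, hy, zero_add]
  have zero_of : ∀ {a c : L}, Mn M c → a + a = c → a = 0 ∧ c = 0 := by
    intro a c hc hac
    have h1 : Λ.pr c = 0 := by rw [← hac, map_add, self_add]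
    unfold Mn at hc
    rw [h1, M.f_zero] at hc
    have h2 := Λ.eq_zero_of_q hc
    rw [h2] at hac
    exact ⟨Λ.double_eq_zero hac, h2⟩
  have par : ∀ {a c x : L}, a + a = x + c → Λ.pr c = Λ.pr x := by
    intro a c x hac
    have h1 : Λ.pr x + Λ.pr c = 0 := by rw [← map_add, ← hac, map_add, self_add]
    exact (add_eq_zero_iff'.mp h1).symm
  have contra : ∀ {u v : L}, u + v = z → (u = x1 ∨ u = -x1) → (v = x2 ∨ v = -x2) → False := by
    intro u v huv hu hv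
    rcases hu with hu | hu <;> rcases hv with hv | hv
    · exact n1 (by rw [← huv, hu, hv])
    · exact n3 (by rw [← huv, hu, hv, sub_eq_add_neg])
    · exact n4 (by rw [← huv, hu, hv]; abel)
    · exact n2 (by rw [← huv, hu, hv]; abel)
  rcases c1 with c1 | c1 <;> rcases c2 with c2 | c2
  · left
    rw [c1, c2, zero_add, zero_add] at twop
    obtain ⟨h0, h3⟩ := zero_of m1 twop
    rw [h0, zero_add] at c1 c2 h3
    exact ⟨h0, c1, c2, h3⟩
  · exfalso
    have r2 := full u2 c2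
    have r1 := full' u1 c1
    rw [c1, r2, zero_add] at twop
    rw [c2, r1, add_zero] at twoq
    have h1 := s2.uniq (par twop) m1
    have h2 := s1.uniq (par twoq) m2
    exact contra (by rw [add_comm]; exact u3) h2 h1
  · exfalso
    have r1 := full u1 c1
    have r2 := full' u2 c2
    rw [c2, r1, add_zero] at twop
    rw [c1, r2, zero_add] at twoq
    have h1 := s1.uniq (par twop) m1
    have h2 := s2.uniq (par twoq) m2
    exact contra u3 h1 h2
  · right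
    rw [c1, c2, zero_add, zero_add] at twoq
    obtain ⟨h0, h3⟩ := zero_of m2 twoq
    rw [h0, zero_add] at c1 c2 h3
    exact ⟨h0, c1, c2, h3⟩

/-- energy of the four half vectors -/
lemma four_energy {x1 x2 z h : L} (hh : h + h = x1 + x2 + z) :
    Λ.q h + Λ.q (x1 - h) + Λ.q (x2 - h) + Λ.q (z - h) = Λ.q x1 + Λ.q x2 + Λ.q z := by
  rw [Λ.q_sub, Λ.q_sub, Λ.q_sub]
  have k1 : Λ.b h (h + h) = Λ.b h x1 + Λ.b h x2 + Λ.b h z := by
    rw [hh, Λ.add_right, Λ.add_right]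
  rw [Λ.add_right] at k1
  have k2 : Λ.b h h = Λ.q h := rfl
  rw [Λ.symm x1, Λ.symm x2, Λ.symm z]
  linarith

/-- the outer pair -/
lemma outer_energy {x1 x2 z h : L} (hh : h + h = x1 + x2 + z) :
    2 * (Λ.q h + Λ.q (z - h)) = Λ.q z + Λ.q (x1 + x2) := by
  have k1 : Λ.q (h + (z - h)) = Λ.q z := by congr 1; abel
  have k2 : Λ.q (h - (z - h)) = Λ.q (x1 + x2) := by
    have : h - (z - h) = (h + h) - z := by abel
    rw [this, hh]; congr 1; abel
  rw [Λ.q_add] at k1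
  rw [Λ.q_sub] at k2
  linarith

/-- the inner pair -/
lemma inner_energy {x1 x2 z h : L} (hh : h + h = x1 + x2 + z) :
    2 * (Λ.q (x1 - h) + Λ.q (x2 - h)) = Λ.q z + Λ.q (x1 - x2) := by
  have k1 : Λ.q ((x1 - h) + (x2 - h)) = Λ.q z := by
    have : (x1 - h) + (x2 - h) = -(z + (h + h - (x1 + x2 + z))) := by abel
    rw [this, hh, sub_self, add_zero, Λ.q_neg]
  have k2 : Λ.q ((x1 - h) - (x2 - h)) = Λ.q (x1 - x2) := by congr 1; abel
  rw [Λ.q_add] at k1
  rw [Λ.q_sub] at k2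
  linarith

end sv

end Pool.Agent.Run7.h698.Von
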