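import Pool.Agent.Run7.h698.VonI

set_option autoImplicit false

open scoped symmDiff

namespace Pool.Agent.Run7.h698.Von

open Pool.Agent.K7.H30.Vo

section cons

variable {V : Type} [AddCommGroup V] [Module (ZMod 2) V] [DecidableEq V]

/-- goodness of a cycle -/
def Gd (κ : Finset V → V) (S : Finset V) : Prop := ∃ X ⊆ S, κ S = sm X

/-- consistency of `κ` on `A ∆ B` with the sign set `Y` -/
def Cn (κ : Finset V → V) (Y A B : Finset V) : Prop := ∃ X ⊆ A, κ (A ∆ B) = sm X + sm (Y ∩ B)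

lemma inter_symmDiff' (Y B B' : Finset V) : Y ∩ (B ∆ B') = (Y ∩ B) ∆ (Y ∩ B') := by
  ext x
  simp only [Finset.mem_inter, Finset.mem_symmDiff]
  tauto

lemma symmDiff_of_disj {A B : Finset V} (h : Disjoint A B) : A ∆ B = A ∪ B := by
  rw [Disjoint.symmDiff_eq_sup h]; rfl

lemma Cn.add {κ : Finset V → V}
    (hadd : ∀ S S' : Finset V, sm S = 0 → sm S' = 0 → κ (S ∆ S') = κ S + κ S')
    {Y A A' B B' : Finset V} (hs : sm A = sm B) (hs' : sm A' = sm B') (hd : Disjoint A A')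
    (h : Cn κ Y A B) (h' : Cn κ Y A' B') : Cn κ Y (A ∪ A') (B ∆ B') := by
  obtain ⟨X, hX, h1⟩ := h
  obtain ⟨X', hX', h1'⟩ := h'
  refine ⟨X ∪ X', Finset.union_subset_union hX hX', ?_⟩
  have e1 : (A ∪ A') ∆ (B ∆ B') = (A ∆ B) ∆ (A' ∆ B') := by
    rw [← symmDiff_of_disj hd]
    rw [symmDiff_assoc, symmDiff_assoc]
    congr 1
    rw [← symmDiff_assoc, ← symmDiff_assoc, symmDiff_comm A' B]
  have z1 : sm (A ∆ B) = 0 := by rw [sm_symmDiff, hs, self_add]
  have z2 : sm (A' ∆ B') = 0 := by rw [sm_symmDiff, hs', self_add]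
  rw [e1, hadd _ _ z1 z2, h1, h1', inter_symmDiff', sm_symmDiff, sm_union]
  · abel
  · exact Finset.disjoint_of_subset_left hX (Finset.disjoint_of_subset_right hX' hd)

lemma Cn.gd {κ : Finset V → V} {Y S : Finset V} (h : Cn κ Y S ∅) : Gd κ S := by
  obtain ⟨X, hX, h1⟩ := h
  refine ⟨X, hX, ?_⟩
  rw [Finset.inter_empty, sm_empty, add_zero] at h1
  have e : S ∆ ∅ = S := symmDiff_bot S
  rw [e] at h1
  exact h1

/-- consistency from goodness -/
lemma cons_of_good {κ : Finset V → V}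
    (hadd : ∀ S S' : Finset V, sm S = 0 → sm S' = 0 → κ (S ∆ S') = κ S + κ S')
    {U Y A B : Finset V} (hAU : Disjoint A U) (hB : B ⊆ U) (hs : sm A = sm B) (hsU : sm U = 0)
    (hcirc : ∀ X ⊆ U, sm X = 0 → X = ∅ ∨ X = U) (hY : Y ⊆ U) (hYU : κ U = sm Y)
    (hW : ∀ W ⊆ A, (∃ B' ⊆ U, sm W = sm B') → sm W = 0 ∨ sm W = sm A)
    (g1 : Gd κ (A ∪ B)) (g2 : Gd κ (A ∪ (U \ B))) : Cn κ Y A B := by
  obtain ⟨X1, hX1, h1⟩ := g1
  obtain ⟨X2, hX2, h2⟩ := g2
  have dAB : Disjoint A B := Finset.disjoint_of_subset_right hB hAU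
  have dAB' : Disjoint A (U \ B) := Finset.disjoint_of_subset_right Finset.sdiff_subset hAU
  have DAU := Finset.disjoint_left.mp hAU
  have z1 : sm (A ∪ B) = 0 := by rw [sm_union dAB, hs, self_add]
  have z2 : sm (A ∪ (U \ B)) = 0 := by
    rw [sm_union dAB', sm_sdiff hB, hsU, zero_add, hs, self_add]
  have hU : (A ∪ B) ∆ (A ∪ (U \ B)) = U := by
    ext x
    simp only [Finset.mem_symmDiff, Finset.mem_union, Finset.mem_sdiff]
    have k1 := @DAU x
    have k2 := @hB x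
    tauto
  have s1 : sm X1 = sm (X1 ∩ A) + sm (X1 ∩ B) := by
    rw [← sm_union]
    · congr 1
      rw [← Finset.inter_union_distrib_left, Finset.inter_eq_left.mpr hX1]
    · exact Finset.disjoint_of_subset_left Finset.inter_subset_right
        (Finset.disjoint_of_subset_right Finset.inter_subset_right dAB)
  have s2 : sm X2 = sm (X2 ∩ A) + sm (X2 ∩ (U \ B)) := by
    rw [← sm_union]
    · congr 1
      rw [← Finset.inter_union_distrib_left, Finset.inter_eq_left.mpr hX2]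
    · exact Finset.disjoint_of_subset_left Finset.inter_subset_right
        (Finset.disjoint_of_subset_right Finset.inter_subset_right dAB')
  set W := (X1 ∩ A) ∆ (X2 ∩ A) with hWdef
  set Y1 := (X1 ∩ B) ∆ (X2 ∩ (U \ B)) with hY1
  have hWA : W ⊆ A := by
    intro x hx
    rw [hWdef, Finset.mem_symmDiff, Finset.mem_inter, Finset.mem_inter] at hx
    tauto
  have hY1U : Y1 ⊆ U := by
    intro x hx
    rw [hY1, Finset.mem_symmDiff, Finset.mem_inter, Finset.mem_inter, Finset.mem_sdiff] at hx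
    have k2 := @hB x
    tauto
  have hYY : Y ∆ Y1 ⊆ U := by
    intro x hx
    rw [Finset.mem_symmDiff] at hx
    rcases hx with h | h
    · exact hY h.1
    · exact hY1U h.1
  have hsW : sm W = sm (Y ∆ Y1) := by
    have e1 : sm Y = sm X1 + sm X2 := by rw [← hYU, ← hU, hadd _ _ z1 z2, h1, h2]
    rw [sm_symmDiff Y Y1, e1, s1, s2, hWdef, hY1, sm_symmDiff, sm_symmDiff]
    have : sm (X1 ∩ A) + sm (X1 ∩ B) + (sm (X2 ∩ A) + sm (X2 ∩ (U \ B))) +
      (sm (X1 ∩ B) + sm (X2 ∩ (U \ B))) = sm (X1 ∩ A) + sm (X2 ∩ A) +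
      (sm (X1 ∩ B) + sm (X1 ∩ B)) + (sm (X2 ∩ (U \ B)) + sm (X2 ∩ (U \ B))) := by abel
    rw [this, self_add, self_add, add_zero, add_zero]
  have hcase : (Y ∆ Y1) ∩ B = ∅ ∨ (Y ∆ Y1) ∩ B = B := by
    rcases hW W hWA ⟨_, hYY, hsW⟩ with h | h
    · rcases hcirc _ hYY (by rw [← hsW, h]) with h3 | h3
      · left; rw [h3, Finset.empty_inter]
      · right; rw [h3]; exact Finset.inter_eq_right.mpr hB
    · have h4 : sm ((Y ∆ Y1) ∆ B) = 0 := by rw [sm_symmDiff, ← hsW, h, hs, self_add]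
      have h5 : (Y ∆ Y1) ∆ B ⊆ U := by
        intro x hx
        rw [Finset.mem_symmDiff] at hx
        rcases hx with h | h
        · exact hYY h.1
        · exact hB h.1
      rcases hcirc _ h5 h4 with h3 | h3
      · right
        have h6 : Y ∆ Y1 = B := symmDiff_eq_bot.mp h3
        rw [h6, Finset.inter_self]
      · left
        rw [Finset.eq_empty_iff_forall_notMem]
        intro x hx
        rw [Finset.mem_inter] at hx
        have h7 : x ∈ (Y ∆ Y1) ∆ B := by rw [h3]; exact hB hx.2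
        rw [Finset.mem_symmDiff] at h7
        tauto
  have hY1B : (Y ∆ Y1) ∩ B = (Y ∩ B) ∆ (X1 ∩ B) := by
    ext x
    rw [hY1]
    simp only [Finset.mem_inter, Finset.mem_symmDiff, Finset.mem_sdiff]
    tauto
  have hAB : A ∆ B = A ∪ B := symmDiff_of_disj dAB
  rcases hcase with h | h
  · refine ⟨X1 ∩ A, Finset.inter_subset_right, ?_⟩
    rw [hAB, h1, s1]
    congr 1
    have h8 : sm ((Y ∩ B) ∆ (X1 ∩ B)) = 0 := by rw [← hY1B, h, sm_empty]
    rw [sm_symmDiff] at h8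
    exact (add_eq_zero_iff'.mp h8).symm
  · refine ⟨A \ (X1 ∩ A), Finset.sdiff_subset, ?_⟩
    rw [hAB, h1, s1, sm_sdiff Finset.inter_subset_right]
    have h8 : sm ((Y ∩ B) ∆ (X1 ∩ B)) = sm A := by rw [← hY1B, h, hs]
    rw [sm_symmDiff] at h8
    rw [← h8]
    have : sm (Y ∩ B) + sm (X1 ∩ B) + sm (X1 ∩ A) + sm (Y ∩ B) =
      sm (X1 ∩ A) + sm (X1 ∩ B) + (sm (Y ∩ B) + sm (Y ∩ B)) := by abel
    rw [this, self_add, add_zero]

lemma kappa_empty {κ : Finset V → V}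
    (hadd : ∀ S S' : Finset V, sm S = 0 → sm S' = 0 → κ (S ∆ S') = κ S + κ S') : κ ∅ = 0 := by
  have h := hadd ∅ ∅ sm_empty sm_empty
  rw [self_add] at h
  have e : (∅ : Finset V) ∆ ∅ = ∅ := symmDiff_self _
  rw [e] at h
  exact h

omit [AddCommGroup V] [Module (ZMod 2) V] in
lemma insert_symmDiff_insert {x : V} {E E' : Finset V} (h1 : x ∉ E) (h2 : x ∉ E')
    (h3 : Disjoint E E') : (insert x E) ∆ (insert x E') = E ∪ E' := by
  ext y
  rw [Finset.mem_symmDiff, Finset.mem_insert, Finset.mem_insert, Finset.mem_union]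
  constructor
  · rintro (⟨h4 | h4, h5⟩ | ⟨h4 | h4, h5⟩)
    · exact absurd (Or.inl h4) h5
    · exact Or.inl h4
    · exact absurd (Or.inl h4) h5
    · exact Or.inr h4
  · rintro (h4 | h4)
    · left
      refine ⟨Or.inr h4, ?_⟩
      rintro (h5 | h5)
      · rw [h5] at h4; exact h1 h4
      · exact Finset.disjoint_left.mp h3 h4 h5
    · right
      refine ⟨Or.inr h4, ?_⟩
      rintro (h5 | h5)
      · rw [h5] at h4; exact h2 h4
      · exact Finset.disjoint_left.mp h3 h5 h4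

/-- elements of the circuit itself -/
lemma cn_mem {κ : Finset V → V}
    (hadd : ∀ S S' : Finset V, sm S = 0 → sm S' = 0 → κ (S ∆ S') = κ S + κ S')
    {U Y B : Finset V} {u : V} (hu : u ∈ U) (hB : B ⊆ U) (hs : u = sm B)
    (hcirc : ∀ X ⊆ U, sm X = 0 → X = ∅ ∨ X = U) (hY : Y ⊆ U) (hYU : κ U = sm Y) :
    Cn κ Y {u} B := by
  have h0 : sm (({u} : Finset V) ∆ B) = 0 := by
    rw [sm_symmDiff, ← hs]
    have : sm ({u} : Finset V) = u := by unfold sm; rw [Finset.sum_singleton]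
    rw [this, self_add]
  have h1 : ({u} : Finset V) ∆ B ⊆ U := by
    intro x hx
    rw [Finset.mem_symmDiff, Finset.mem_singleton] at hx
    rcases hx with h | h
    · rw [h.1]; exact hu
    · exact hB h.1
  refine ⟨Y ∩ {u}, Finset.inter_subset_right, ?_⟩
  rcases hcirc _ h1 h0 with h | h
  · have h2 : ({u} : Finset V) = B := symmDiff_eq_bot.mp h
    rw [h, kappa_empty hadd, h2, self_add]
  · rw [h, hYU]
    have h3 : (Y ∩ {u}) ∆ (Y ∩ B) = Y := by
      rw [← inter_symmDiff', h]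
      exact Finset.inter_eq_left.mpr hY
    rw [← sm_symmDiff, h3]

end cons

section light

variable {L V : Type} [AddCommGroup L] [AddCommGroup V] [Module (ZMod 2) V] [Fintype V]
  [DecidableEq V] {Λ : Lat L V} (M : Λ.MinSys)

/-- a strict class outside the circuit is lighter than each of its representations -/
lemma light_rep {U B : Finset V} {u : V} (hst : St M.f u) (hU : ∀ a ∈ U, St M.f a) (hu : u ∉ U)
    (hB : B ⊆ U) (hs : sm B = u) : M.f u < ∑ a ∈ B, M.f a := by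
  have hc : 2 ≤ B.card := by
    by_contra hlt
    have h1 : B.card = 0 ∨ B.card = 1 := by omega
    rcases h1 with h1 | h1
    · rw [Finset.card_eq_zero] at h1
      rw [h1, sm_empty] at hs
      exact hst.1 hs.symm
    · obtain ⟨b, hb⟩ := Finset.card_eq_one.mp h1
      rw [hb] at hs hB
      unfold sm at hs
      rw [Finset.sum_singleton] at hs
      apply hu
      rw [← hs]
      exact hB (Finset.mem_singleton_self _)
  have := chord_lt M hc (by rw [hs]; exact hst) (fun a ha => hU a (hB ha))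
    (by rw [hs]; exact fun h => hu (hB h))
  rw [hs] at this
  exact this

/-- The configuration attached to two strict vectors and a class-minimal vector. -/
structure Cfg (κ : Finset V → V) (x1 x2 z h : L) where
  D : Fin 4 → Finset V
  μ : Fin 4 → V → ℤ
  Y : Finset V
  ne : ∀ i, (D i).Nonempty
  dis : ∀ i j, i ≠ j → Disjoint (D i) (D j)
  st : ∀ i, ∀ a ∈ D i, St M.f a
  s0 : sm (D 0) = Λ.pr h
  s1 : sm (D 1) = Λ.pr (x1 - h)
  s2 : sm (D 2) = Λ.pr (x2 - h)
  s3 : sm (D 3) = Λ.pr (z - h)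
  w0 : ∑ a ∈ D 0, M.f a ≤ Λ.q h
  w1 : ∑ a ∈ D 1, M.f a ≤ Λ.q (x1 - h)
  w2 : ∑ a ∈ D 2, M.f a ≤ Λ.q (x2 - h)
  w3 : ∑ a ∈ D 3, M.f a ≤ Λ.q (z - h)
  circ : ∀ X ⊆ (D 0 ∪ D 1) ∪ (D 2 ∪ D 3), sm X = 0 → X = ∅ ∨ X = (D 0 ∪ D 1) ∪ (D 2 ∪ D 3)
  c0 : cmb M (μ 0) = h
  c1 : cmb M (μ 1) = x1 - h
  c2 : cmb M (μ 2) = x2 - h
  c3 : cmb M (μ 3) = z - h
  μ1 : ∀ i, ∀ a ∈ D i, μ i a = 1 ∨ μ i a = -1
  μ0 : ∀ i, ∀ a, a ∉ D i → μ i a = 0
  n1 : Λ.pr x1 ∉ (D 0 ∪ D 1) ∪ (D 2 ∪ D 3)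
  n2 : Λ.pr x2 ∉ (D 0 ∪ D 1) ∪ (D 2 ∪ D 3)
  hY : Y ⊆ (D 0 ∪ D 1) ∪ (D 2 ∪ D 3)
  hYU : κ ((D 0 ∪ D 1) ∪ (D 2 ∪ D 3)) = sm Y
  cn1 : Cn κ Y {Λ.pr x1} (D 0 ∪ D 1)
  cn1' : Cn κ Y {Λ.pr x1} (D 2 ∪ D 3)
  cn2 : Cn κ Y {Λ.pr x2} (D 0 ∪ D 2)
  cn2' : Cn κ Y {Λ.pr x2} (D 1 ∪ D 3)

variable {M}

lemma sm_singleton (u : V) : sm ({u} : Finset V) = u := by unfold sm; rw [Finset.sum_singleton]

/-- light cycles through one outside class -/
lemma gd_single {κ : Finset V → V} {w : ℝ}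
    (ihl : ∀ Z : Finset V, (∀ x ∈ Z, St M.f x) → sm Z = 0 → ∑ x ∈ Z, M.f x < w → Gd κ Z)
    {U : Finset V} (hU : ∀ a ∈ U, St M.f a) (hsU : sm U = 0) (hUw : ∑ x ∈ U, M.f x ≤ w)
    {u : V} (hu : St M.f u) (huU : u ∉ U) {B : Finset V} (hB : B ⊆ U) (hs : sm B = u) :
    Gd κ ({u} ∪ B) := by
  have hd : Disjoint ({u} : Finset V) B := by
    rw [Finset.disjoint_singleton_left]; exact fun h => huU (hB h)
  apply ihl
  · intro x hx
    rcases Finset.mem_union.mp hx with h | h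
    · rw [Finset.mem_singleton.mp h]; exact hu
    · exact hU x (hB h)
  · rw [sm_union hd, sm_singleton, hs, self_add]
  · rw [Finset.sum_union hd, Finset.sum_singleton]
    have h1 : ∑ x ∈ U \ B, M.f x + ∑ x ∈ B, M.f x = ∑ x ∈ U, M.f x := Finset.sum_sdiff hB
    have h2 := light_rep M hu hU huU (B := U \ B) Finset.sdiff_subset
      (by rw [sm_sdiff hB, hsU, zero_add, hs])
    linarith

lemma cn_span {κ : Finset V → V}
    (hadd : ∀ S S' : Finset V, sm S = 0 → sm S' = 0 → κ (S ∆ S') = κ S + κ S') {w : ℝ}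
    (ihl : ∀ Z : Finset V, (∀ x ∈ Z, St M.f x) → sm Z = 0 → ∑ x ∈ Z, M.f x < w → Gd κ Z)
    {U Y : Finset V} (hU : ∀ a ∈ U, St M.f a) (hsU : sm U = 0) (hUw : ∑ x ∈ U, M.f x ≤ w)
    (hcirc : ∀ X ⊆ U, sm X = 0 → X = ∅ ∨ X = U) (hY : Y ⊆ U) (hYU : κ U = sm Y)
    {u : V} (hu : St M.f u) {B : Finset V} (hB : B ⊆ U) (hs : sm B = u) :
    Cn κ Y {u} B := by
  by_cases huU : u ∈ U
  · exact cn_mem hadd huU hB hs.symm hcirc hY hYU
  · apply cons_of_good hadd (by rw [Finset.disjoint_singleton_left]; exact huU) hB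
      (by rw [sm_singleton, hs]) hsU hcirc hY hYU
    · intro W hW _
      rcases Finset.subset_singleton_iff.mp hW with h | h
      · left; rw [h, sm_empty]
      · right; rw [h]
    · exact gd_single ihl hU hsU hUw hu huU hB hs
    · exact gd_single ihl hU hsU hUw hu huU Finset.sdiff_subset
        (by rw [sm_sdiff hB, hsU, zero_add, hs])

omit [Fintype V] in
/-- a vertex class is not in the circuit -/
lemma notin_part {U : Finset V} (hcirc : ∀ X ⊆ U, sm X = 0 → X = ∅ ∨ X = U) {x : V}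
    {E E' : Finset V} (hsub : E ∪ E' ⊆ U) (hs : sm (E ∪ E') = x) (hE : E.Nonempty)
    (hE' : E'.Nonempty) (hd : Disjoint E E') (hex : ∃ z ∈ U, z ∉ E ∪ E') : x ∉ E ∪ E' := by
  intro hx
  obtain ⟨z, hz, hz'⟩ := hex
  have h1 : sm ((E ∪ E').erase x) = 0 := by
    have h2 : x + sm ((E ∪ E').erase x) = sm (E ∪ E') := by
      unfold sm
      exact Finset.add_sum_erase (E ∪ E') (fun a => a) hx
    rw [hs] at h2
    exact add_eq_left.mp h2
  rcases hcirc _ ((Finset.erase_subset _ _).trans hsub) h1 with h2 | h2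
  · obtain ⟨e, he⟩ := hE
    obtain ⟨e', he'⟩ := hE'
    have h3 : e = x := by
      by_contra hne
      have : e ∈ (E ∪ E').erase x :=
        Finset.mem_erase.mpr ⟨hne, Finset.mem_union_left _ he⟩
      rw [h2] at this
      exact absurd this (Finset.notMem_empty _)
    have h4 : e' = x := by
      by_contra hne
      have : e' ∈ (E ∪ E').erase x :=
        Finset.mem_erase.mpr ⟨hne, Finset.mem_union_right _ he'⟩
      rw [h2] at this
      exact absurd this (Finset.notMem_empty _)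
    rw [h3] at he
    rw [h4] at he'
    exact Finset.disjoint_left.mp hd he he'
  · rw [← h2] at hz
    exact hz' (Finset.mem_of_mem_erase hz)

theorem exists_cfg {κ : Finset V → V}
    (hadd : ∀ S S' : Finset V, sm S = 0 → sm S' = 0 → κ (S ∆ S') = κ S + κ S') {w : ℝ}
    (ihl : ∀ Z : Finset V, (∀ x ∈ Z, St M.f x) → sm Z = 0 → ∑ x ∈ Z, M.f x < w → Gd κ Z)
    {x1 x2 z h : L} (s1 : Sv M x1) (s2 : Sv M x2) (sz : Mn M z) (hh : h + h = x1 + x2 + z)
    (n1 : z ≠ x1 + x2) (n2 : z ≠ -(x1 + x2)) (n3 : z ≠ x1 - x2) (n4 : z ≠ x2 - x1)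
    (hW : Λ.q x1 + Λ.q x2 + Λ.q z ≤ w) : Nonempty (Cfg M κ x1 x2 z h) := by
  set P : Fin 4 → L := ![h, x1 - h, x2 - h, z - h] with hPdef
  have P0 : P 0 = h := rfl
  have P1 : P 1 = x1 - h := rfl
  have P2 : P 2 = x2 - h := rfl
  have P3 : P 3 = z - h := rfl
  have hPne : ∀ i, P i ≠ 0 := by
    intro i
    fin_cases i
    · intro e
      have e' : h = 0 := e
      rw [e', add_zero] at hh
      exact n2 (eq_neg_of_add_eq_zero_right hh.symm)
    · intro e
      have e' : x1 - h = 0 := e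
      rw [← sub_eq_zero.mp e'] at hh
      apply n3
      have : z = (x1 + x2 + z) - (x1 + x2) := by abel
      rw [this, ← hh]; abel
    · intro e
      have e' : x2 - h = 0 := e
      rw [← sub_eq_zero.mp e'] at hh
      apply n4
      have : z = (x1 + x2 + z) - (x1 + x2) := by abel
      rw [this, ← hh]; abel
    · intro e
      have e' : z - h = 0 := e
      rw [← sub_eq_zero.mp e'] at hh
      exact n1 (add_right_cancel hh)
  obtain ⟨D, μ, hDne, hDdis, hDst, hDsm, hDw, hDc, hc, hμ1, hμ0⟩ :=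
    blocks' M (ι := Fin 4) (by simp) P hPne (by
    intro p q hpq hen hs
    rw [Fin.sum_univ_four] at hs
    have := prod2 s1 s2 sz hh n1 n2 n3 n4 (hpq 0) (hpq 1) (hpq 2) (hpq 3) (hen 0) (hen 1)
      (hen 2) (hen 3) hs
    rcases this with ⟨k0, k1, k2, k3⟩ | ⟨k0, k1, k2, k3⟩
    · left
      intro i
      fin_cases i
      · exact k0
      · exact k1
      · exact k2
      · exact k3
    · right
      intro i
      fin_cases i
      · exact k0
      · exact k1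
      · exact k2
      · exact k3)
  have d01 := hDdis 0 1 (by decide)
  have d02 := hDdis 0 2 (by decide)
  have d03 := hDdis 0 3 (by decide)
  have d12 := hDdis 1 2 (by decide)
  have d13 := hDdis 1 3 (by decide)
  have d23 := hDdis 2 3 (by decide)
  have D02 := Finset.disjoint_left.mp d02
  have D12 := Finset.disjoint_left.mp d12
  have D01 := Finset.disjoint_left.mp d01
  have D03 := Finset.disjoint_left.mp d03
  have t0 : sm (D 0) = Λ.pr h := hDsm 0
  have t1 : sm (D 1) = Λ.pr (x1 - h) := hDsm 1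
  have t2 : sm (D 2) = Λ.pr (x2 - h) := hDsm 2
  have t3 : sm (D 3) = Λ.pr (z - h) := hDsm 3
  have w0 : ∑ x ∈ D 0, M.f x ≤ Λ.q h := hDw 0
  have w1 : ∑ x ∈ D 1, M.f x ≤ Λ.q (x1 - h) := hDw 1
  have w2 : ∑ x ∈ D 2, M.f x ≤ Λ.q (x2 - h) := hDw 2
  have w3 : ∑ x ∈ D 3, M.f x ≤ Λ.q (z - h) := hDw 3
  set U : Finset V := (D 0 ∪ D 1) ∪ (D 2 ∪ D 3) with hUdef
  have dis2 : ∀ {A B C D : Finset V}, Disjoint A C → Disjoint A D → Disjoint B C → Disjoint B D →
      Disjoint (A ∪ B) (C ∪ D) := by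
    intro A B C D h1 h2 h3 h4
    rw [Finset.disjoint_union_left, Finset.disjoint_union_right, Finset.disjoint_union_right]
    exact ⟨⟨h1, h2⟩, ⟨h3, h4⟩⟩
  have hd0123 : Disjoint (D 0 ∪ D 1) (D 2 ∪ D 3) := dis2 d02 d03 d12 d13
  have hcirc : ∀ X ⊆ U, sm X = 0 → X = ∅ ∨ X = U := by
    intro X hX hs
    rcases hDc X (by
      intro x hx
      have := hX hx
      rw [hUdef] at this
      simp only [Finset.mem_union] at this
      rcases this with (h | h) | (h | h)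
      · exact ⟨0, h⟩
      · exact ⟨1, h⟩
      · exact ⟨2, h⟩
      · exact ⟨3, h⟩) hs with h | h
    · exact Or.inl h
    · right
      apply Finset.Subset.antisymm hX
      exact Finset.union_subset (Finset.union_subset (h 0) (h 1))
        (Finset.union_subset (h 2) (h 3))
  have hUst : ∀ a ∈ U, St M.f a := by
    intro a ha
    rw [hUdef] at ha
    simp only [Finset.mem_union] at ha
    rcases ha with (h | h) | (h | h)
    · exact hDst 0 a h
    · exact hDst 1 a h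
    · exact hDst 2 a h
    · exact hDst 3 a h
  have prh : ∀ x : L, Λ.pr h + Λ.pr (x - h) = Λ.pr x := by
    intro x
    rw [← map_add]; congr 1; abel
  have pr2 : Λ.pr x1 + Λ.pr x2 + Λ.pr z = 0 := by
    rw [← map_add, ← map_add, ← hh, map_add, self_add]
  have sA : sm (D 0 ∪ D 1) = Λ.pr x1 := by rw [sm_union d01, t0, t1, prh]
  have sB : sm (D 0 ∪ D 2) = Λ.pr x2 := by rw [sm_union d02, t0, t2, prh]
  have sA' : sm (D 2 ∪ D 3) = Λ.pr x1 := by
    rw [sm_union d23, t2, t3, map_sub, map_sub, sub_eq_add', sub_eq_add']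
    have : Λ.pr x2 + Λ.pr h + (Λ.pr z + Λ.pr h) = (Λ.pr x2 + Λ.pr z) +
      (Λ.pr h + Λ.pr h) := by abel
    rw [this, self_add, add_zero]
    rw [add_assoc] at pr2
    exact (add_eq_zero_iff'.mp pr2).symm
  have sB' : sm (D 1 ∪ D 3) = Λ.pr x2 := by
    rw [sm_union d13, t1, t3, map_sub, map_sub, sub_eq_add', sub_eq_add']
    have : Λ.pr x1 + Λ.pr h + (Λ.pr z + Λ.pr h) = (Λ.pr x1 + Λ.pr z) +
      (Λ.pr h + Λ.pr h) := by abel
    rw [this, self_add, add_zero]
    have : Λ.pr x1 + Λ.pr x2 + Λ.pr z = Λ.pr x2 + (Λ.pr x1 + Λ.pr z) := by abel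
    rw [this] at pr2
    exact (add_eq_zero_iff'.mp pr2).symm
  have hsU : sm U = 0 := by rw [hUdef, sm_union hd0123, sA, sA', self_add]
  have hUw : ∑ x ∈ U, M.f x ≤ w := by
    rw [hUdef, Finset.sum_union hd0123, Finset.sum_union d01, Finset.sum_union d23]
    have := four_energy (Λ := Λ) hh
    linarith
  have m0 : D 0 ⊆ U := fun x hx => by
    rw [hUdef]; simp only [Finset.mem_union]; exact Or.inl (Or.inl hx)
  have m1 : D 1 ⊆ U := fun x hx => by
    rw [hUdef]; simp only [Finset.mem_union]; exact Or.inl (Or.inr hx)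
  have m2 : D 2 ⊆ U := fun x hx => by
    rw [hUdef]; simp only [Finset.mem_union]; exact Or.inr (Or.inl hx)
  have m3 : D 3 ⊆ U := fun x hx => by
    rw [hUdef]; simp only [Finset.mem_union]; exact Or.inr (Or.inr hx)
  have a1 : Λ.pr x1 ∉ D 0 ∪ D 1 := by
    apply notin_part hcirc (Finset.union_subset m0 m1) sA (hDne 0) (hDne 1) d01
    obtain ⟨y, hy⟩ := hDne 2
    refine ⟨y, m2 hy, ?_⟩
    rw [Finset.mem_union]
    rintro (h | h)
    · exact D02 h hy
    · exact D12 h hy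
  have a2 : Λ.pr x1 ∉ D 2 ∪ D 3 := by
    apply notin_part hcirc (Finset.union_subset m2 m3) sA' (hDne 2) (hDne 3) d23
    obtain ⟨y, hy⟩ := hDne 0
    refine ⟨y, m0 hy, ?_⟩
    rw [Finset.mem_union]
    rintro (h | h)
    · exact D02 hy h
    · exact D03 hy h
  have b1 : Λ.pr x2 ∉ D 0 ∪ D 2 := by
    apply notin_part hcirc (Finset.union_subset m0 m2) sB (hDne 0) (hDne 2) d02
    obtain ⟨y, hy⟩ := hDne 1
    refine ⟨y, m1 hy, ?_⟩
    rw [Finset.mem_union]
    rintro (h | h)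
    · exact D01 h hy
    · exact D12 hy h
  have b2 : Λ.pr x2 ∉ D 1 ∪ D 3 := by
    apply notin_part hcirc (Finset.union_subset m1 m3) sB' (hDne 1) (hDne 3) d13
    obtain ⟨y, hy⟩ := hDne 0
    refine ⟨y, m0 hy, ?_⟩
    rw [Finset.mem_union]
    rintro (h | h)
    · exact D01 hy h
    · exact D03 hy h
  have hx1U : Λ.pr x1 ∉ U := by
    rw [hUdef, Finset.mem_union, not_or]; exact ⟨a1, a2⟩
  have hx2U : Λ.pr x2 ∉ U := by
    simp only [Finset.mem_union, not_or] at b1 b2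
    rw [hUdef]; simp only [Finset.mem_union, not_or]
    exact ⟨⟨b1.1, b2.1⟩, ⟨b1.2, b2.2⟩⟩
  -- the sign set
  have g1 := gd_single ihl hUst hsU hUw s1.1 hx1U (Finset.union_subset m0 m1) sA
  have g2 := gd_single ihl hUst hsU hUw s1.1 hx1U (Finset.union_subset m2 m3) sA'
  rw [← Finset.insert_eq] at g1 g2
  have hsymm := insert_symmDiff_insert a1 a2 hd0123
  have z1 : sm (insert (Λ.pr x1) (D 0 ∪ D 1)) = 0 := by rw [sm_insert a1, sA, self_add]
  have z2 : sm (insert (Λ.pr x1) (D 2 ∪ D 3)) = 0 := by rw [sm_insert a2, sA', self_add]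
  obtain ⟨Y, hY, hYU, -⟩ := side (κ := κ) a1 a2 hd0123 sA' g1 g2 (by
    rw [← hadd _ _ z1 z2, hsymm])
  exact ⟨⟨D, μ, Y, hDne, hDdis, hDst, t0, t1, t2, t3, w0, w1, w2, w3, hcirc, hc 0, hc 1, hc 2, hc 3,
    hμ1, hμ0, hx1U, hx2U, hY, hYU,
    cn_span hadd ihl hUst hsU hUw hcirc hY hYU s1.1 (Finset.union_subset m0 m1) sA,
    cn_span hadd ihl hUst hsU hUw hcirc hY hYU s1.1 (Finset.union_subset m2 m3) sA',
    cn_span hadd ihl hUst hsU hUw hcirc hY hYU s2.1 (Finset.union_subset m0 m2) sB,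
    cn_span hadd ihl hUst hsU hUw hcirc hY hYU s2.1 (Finset.union_subset m1 m3) sB'⟩⟩

end light

end Pool.Agent.Run7.h698.Von
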