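import Pool.Agent.Run7.h698.VonJ

set_option autoImplicit false

open scoped symmDiff

namespace Pool.Agent.Run7.h698.Von

open Pool.Agent.K7.H30.Vo

section bd

variable {V : Type} [AddCommGroup V] [Module (ZMod 2) V] [DecidableEq V]

/-- a bad cycle of weight `w` with four elements -/
def Bd (f : V → ℝ) (κ : Finset V → V) (w : ℝ) (Z : Finset V) : Prop :=
  (∀ x ∈ Z, St f x) ∧ sm Z = 0 ∧ ∑ x ∈ Z, f x = w ∧ Z.card = 4 ∧ ¬ Gd κ Z

/-- the inductive hypothesis -/
def IH (f : V → ℝ) (κ : Finset V → V) (w : ℝ) : Prop :=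
  ∀ Z : Finset V, (∀ x ∈ Z, St f x) → sm Z = 0 →
    (∑ x ∈ Z, f x < w ∨ (∑ x ∈ Z, f x = w ∧ 4 < Z.card)) → Gd κ Z

lemma IH.light {f : V → ℝ} {κ : Finset V → V} {w : ℝ} (h : IH f κ w) :
    ∀ Z : Finset V, (∀ x ∈ Z, St f x) → sm Z = 0 → ∑ x ∈ Z, f x < w → Gd κ Z :=
  fun Z h1 h2 h3 => h Z h1 h2 (Or.inl h3)

lemma IH.bd {f : V → ℝ} {κ : Finset V → V} {w : ℝ} (h : IH f κ w) {Z : Finset V}
    (h1 : ∀ x ∈ Z, St f x) (h2 : sm Z = 0) (h3 : ∑ x ∈ Z, f x ≤ w) (h4 : 4 ≤ Z.card)
    (h5 : ¬ Gd κ Z) : Bd f κ w Z := by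
  refine ⟨h1, h2, ?_, ?_, h5⟩
  · by_contra hne
    exact h5 (h Z h1 h2 (Or.inl (lt_of_le_of_ne h3 hne)))
  · by_contra hne
    rcases lt_or_eq_of_le h3 with h6 | h6
    · exact h5 (h Z h1 h2 (Or.inl h6))
    · exact h5 (h Z h1 h2 (Or.inr ⟨h6, by omega⟩))

lemma sm_four {i j k l : V} (hij : i ≠ j) (hik : i ≠ k) (hil : i ≠ l) (hjk : j ≠ k) (hjl : j ≠ l)
    (hkl : k ≠ l) : sm ({i, j, k, l} : Finset V) = i + j + k + l := by
  rw [sm_insert, sm_insert, sm_insert]
  · unfold sm; rw [Finset.sum_singleton]; abel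
  · simpa using hkl
  · simp only [Finset.mem_insert, Finset.mem_singleton, not_or]; exact ⟨hjk, hjl⟩
  · simp only [Finset.mem_insert, Finset.mem_singleton, not_or]; exact ⟨hij, hik, hil⟩

lemma sum_four (f : V → ℝ) {i j k l : V} (hij : i ≠ j) (hik : i ≠ k) (hil : i ≠ l) (hjk : j ≠ k)
    (hjl : j ≠ l) (hkl : k ≠ l) :
    ∑ x ∈ ({i, j, k, l} : Finset V), f x = f i + f j + f k + f l := by
  rw [Finset.sum_insert, Finset.sum_insert, Finset.sum_insert, Finset.sum_singleton]
  · ring
  · simpa using hkl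
  · simp only [Finset.mem_insert, Finset.mem_singleton, not_or]; exact ⟨hjk, hjl⟩
  · simp only [Finset.mem_insert, Finset.mem_singleton, not_or]; exact ⟨hij, hik, hil⟩

end bd

section T1

variable {L V : Type} [AddCommGroup L] [AddCommGroup V] [Module (ZMod 2) V] [Fintype V]
  [DecidableEq V] {Λ : Lat L V} {M : Λ.MinSys}

/-- The flip lemma. -/
theorem T1 {κ : Finset V → V}
    (hadd : ∀ S S' : Finset V, sm S = 0 → sm S' = 0 → κ (S ∆ S') = κ S + κ S') {w : ℝ}
    (ihw : IH M.f κ w) {i j k l : V} (hij : i ≠ j) (hik : i ≠ k) (hil : i ≠ l) (hjk : j ≠ k)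
    (hjl : j ≠ l) (hkl : k ≠ l) (hb : Bd M.f κ w {i, j, k, l}) {x1 x2 z h : L} (s1 : Sv M x1)
    (s2 : Sv M x2) (p1 : Λ.pr x1 = i) (p2 : Λ.pr x2 = j) (sz : Mn M z)
    (hh : h + h = x1 + x2 + z)
    (n1 : z ≠ x1 + x2) (n2 : z ≠ -(x1 + x2)) (n3 : z ≠ x1 - x2) (n4 : z ≠ x2 - x1) :
    (Λ.q (x1 - x2) ≤ M.f (i + j) ∧ Sv M h ∧ Sv M (z - h) ∧
      Bd M.f κ w {Λ.pr h, Λ.pr (z - h), k, l}) ∨
    (Λ.q (x1 + x2) ≤ M.f (i + j) ∧ Sv M (x1 - h) ∧ Sv M (x2 - h) ∧
      Bd M.f κ w {Λ.pr (x1 - h), Λ.pr (x2 - h), k, l}) := by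
  obtain ⟨hst, h0, hw, hcard, hng⟩ := hb
  rw [sm_four hij hik hil hjk hjl hkl] at h0
  rw [sum_four M.f hij hik hil hjk hjl hkl] at hw
  have sti : St M.f i := hst i (by simp)
  have stj : St M.f j := hst j (by simp)
  have stk : St M.f k := hst k (by simp)
  have stl : St M.f l := hst l (by simp)
  have hkl' : k + l = i + j := by
    have : (i + j) + (k + l) = 0 := by rw [← h0]; abel
    exact (add_eq_zero_iff'.mp this).symm
  have pz : Λ.pr z = i + j := by
    have : Λ.pr x1 + Λ.pr x2 + Λ.pr z = 0 := by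
      rw [← map_add, ← map_add, ← hh, map_add, self_add]
    rw [p1, p2] at this
    exact (add_eq_zero_iff'.mp this).symm
  have qz := sz.eq
  rw [pz] at qz
  have q1 := s1.eq
  rw [p1] at q1
  have q2 := s2.eq
  rw [p2] at q2
  have hfkl := f_sub M k l
  rw [hkl'] at hfkl
  obtain ⟨C⟩ := exists_cfg hadd ihw.light s1 s2 sz hh n1 n2 n3 n4 (w := w) (by linarith)
  have d01 := C.dis 0 1 (by decide)
  have d02 := C.dis 0 2 (by decide)
  have d03 := C.dis 0 3 (by decide)
  have d12 := C.dis 1 2 (by decide)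
  have d13 := C.dis 1 3 (by decide)
  have d23 := C.dis 2 3 (by decide)
  have D01 := Finset.disjoint_left.mp d01
  have D02 := Finset.disjoint_left.mp d02
  have D03 := Finset.disjoint_left.mp d03
  have D12 := Finset.disjoint_left.mp d12
  have D13 := Finset.disjoint_left.mp d13
  have D23 := Finset.disjoint_left.mp d23
  have cn1 := C.cn1
  have cn2 := C.cn2
  have hcirc := C.circ
  have hY := C.hY
  have hYU := C.hYU
  set U : Finset V := (C.D 0 ∪ C.D 1) ∪ (C.D 2 ∪ C.D 3) with hUdef
  rw [p1] at cn1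
  rw [p2] at cn2
  have dis2 : ∀ {A B C D : Finset V}, Disjoint A C → Disjoint A D → Disjoint B C → Disjoint B D →
      Disjoint (A ∪ B) (C ∪ D) := by
    intro A B C D h1 h2 h3 h4
    rw [Finset.disjoint_union_left, Finset.disjoint_union_right, Finset.disjoint_union_right]
    exact ⟨⟨h1, h2⟩, ⟨h3, h4⟩⟩
  have hd0123 : Disjoint (C.D 0 ∪ C.D 1) (C.D 2 ∪ C.D 3) := dis2 d02 d03 d12 d13
  have hUst : ∀ a ∈ U, St M.f a := by
    intro a ha
    rw [hUdef] at ha
    simp only [Finset.mem_union] at ha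
    rcases ha with (h | h) | (h | h)
    · exact C.st 0 a h
    · exact C.st 1 a h
    · exact C.st 2 a h
    · exact C.st 3 a h
  have prh : ∀ x : L, Λ.pr h + Λ.pr (x - h) = Λ.pr x := by
    intro x
    rw [← map_add]; congr 1; abel
  have sA : sm (C.D 0 ∪ C.D 1) = i := by rw [sm_union d01, C.s0, C.s1, prh, p1]
  have sB : sm (C.D 0 ∪ C.D 2) = j := by rw [sm_union d02, C.s0, C.s2, prh, p2]
  have sC : sm (C.D 1 ∪ C.D 2) = i + j := by
    rw [sm_union d12, C.s1, C.s2, map_sub, map_sub, sub_eq_add', sub_eq_add', p1, p2]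
    have : i + Λ.pr h + (j + Λ.pr h) = (i + j) + (Λ.pr h + Λ.pr h) := by abel
    rw [this, self_add, add_zero]
  have sD : sm (C.D 0 ∪ C.D 3) = i + j := by rw [sm_union d03, C.s0, C.s3, prh, pz]
  have sA' : sm (C.D 2 ∪ C.D 3) = i := by
    rw [sm_union d23, C.s2, C.s3, map_sub, map_sub, sub_eq_add', sub_eq_add', p2, pz]
    have : j + Λ.pr h + (i + j + Λ.pr h) = i + (j + j) + (Λ.pr h + Λ.pr h) := by abel
    rw [this, self_add, self_add, add_zero, add_zero]
  have hsU : sm U = 0 := by rw [hUdef, sm_union hd0123, sA, sA', self_add]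
  have w0 := C.w0
  have w1 := C.w1
  have w2 := C.w2
  have w3 := C.w3
  have hUw : ∑ x ∈ U, M.f x ≤ w := by
    rw [hUdef, Finset.sum_union hd0123, Finset.sum_union d01, Finset.sum_union d23]
    have := four_energy (Λ := Λ) hh
    linarith
  have m0 : C.D 0 ⊆ U := fun x hx => by
    rw [hUdef]; simp only [Finset.mem_union]; exact Or.inl (Or.inl hx)
  have m1 : C.D 1 ⊆ U := fun x hx => by
    rw [hUdef]; simp only [Finset.mem_union]; exact Or.inl (Or.inr hx)
  have m2 : C.D 2 ⊆ U := fun x hx => by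
    rw [hUdef]; simp only [Finset.mem_union]; exact Or.inr (Or.inl hx)
  have m3 : C.D 3 ⊆ U := fun x hx => by
    rw [hUdef]; simp only [Finset.mem_union]; exact Or.inr (Or.inr hx)
  have skl : sm ({k, l} : Finset V) = i + j := by
    rw [sm_insert (by simpa using hkl), sm_singleton, hkl']
  -- the pair k, l is not consistent
  have hncn : ¬ Cn κ C.Y {k, l} (C.D 1 ∪ C.D 2) := by
    intro hcn
    apply hng
    have e1 : (C.D 0 ∪ C.D 1) ∆ (C.D 0 ∪ C.D 2) = C.D 1 ∪ C.D 2 := by
      ext x
      simp only [Finset.mem_symmDiff, Finset.mem_union]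
      have r1 := @D01 x
      have r2 := @D02 x
      have r3 := @D12 x
      tauto
    have hd1 : Disjoint ({i} : Finset V) {j} := by
      rw [Finset.disjoint_singleton_left, Finset.mem_singleton]; exact hij
    have c1 := Cn.add hadd (by rw [sm_singleton, sA]) (by rw [sm_singleton, sB]) hd1 cn1 cn2
    rw [e1] at c1
    have hd2 : Disjoint (({i} : Finset V) ∪ {j}) {k, l} := by
      rw [Finset.disjoint_left]
      intro x hx hy
      simp only [Finset.mem_union, Finset.mem_singleton, Finset.mem_insert] at hx hy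
      rcases hx with hx | hx <;> rcases hy with hy | hy
      · exact hik (hx.symm.trans hy)
      · exact hil (hx.symm.trans hy)
      · exact hjk (hx.symm.trans hy)
      · exact hjl (hx.symm.trans hy)
    have c2 := Cn.add hadd (by rw [sm_union hd1, sm_singleton, sm_singleton, sC])
      (by rw [skl, sC]) hd2 c1 hcn
    have e2 : (C.D 1 ∪ C.D 2) ∆ (C.D 1 ∪ C.D 2) = ∅ := symmDiff_self _
    rw [e2] at c2
    have c3 := c2.gd
    have e3 : (({i} : Finset V) ∪ {j}) ∪ {k, l} = {i, j, k, l} := by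
      ext x
      simp only [Finset.mem_union, Finset.mem_singleton, Finset.mem_insert]
      tauto
    rw [e3] at c3
    exact c3
  have spl : ∀ a b : V, a ≠ b → a + b = i + j → ({a, b} : Finset V) = {k, l} → St M.f a →
      St M.f b → ∀ B ⊆ U, sm B ≠ a := by
    intro a b hab hs hset sta stb B hB hsB
    apply hncn
    have c1 := cn_span hadd ihw.light hUst hsU hUw hcirc hY hYU sta hB hsB
    have hB' : B ∆ (C.D 1 ∪ C.D 2) ⊆ U := by
      intro x hx
      rw [Finset.mem_symmDiff] at hx
      rcases hx with hx | hx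
      · exact hB hx.1
      · exact (Finset.union_subset m1 m2) hx.1
    have hsB' : sm (B ∆ (C.D 1 ∪ C.D 2)) = b := by
      rw [sm_symmDiff, hsB, sC, ← hs, add_add_cancel']
    have c2 := cn_span hadd ihw.light hUst hsU hUw hcirc hY hYU stb hB' hsB'
    have hd1 : Disjoint ({a} : Finset V) {b} := by
      rw [Finset.disjoint_singleton_left, Finset.mem_singleton]; exact hab
    have c3 := Cn.add hadd (by rw [sm_singleton, hsB]) (by rw [sm_singleton, hsB']) hd1 c1 c2
    have e1 : B ∆ (B ∆ (C.D 1 ∪ C.D 2)) = C.D 1 ∪ C.D 2 := symmDiff_symmDiff_cancel_left _ _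
    have e2 : ({a} : Finset V) ∪ {b} = {k, l} := by
      rw [← hset]; rfl
    rw [e1, e2] at c3
    exact c3
  have nk := spl k l hkl hkl' rfl stk stl
  have nl := spl l k (Ne.symm hkl) (by rw [add_comm, hkl']) (Finset.pair_comm l k) stl stk
  have hkU : k ∉ U := fun h => nk {k} (Finset.singleton_subset_iff.mpr h) (sm_singleton k)
  have hlU : l ∉ U := fun h => nl {l} (Finset.singleton_subset_iff.mpr h) (sm_singleton l)
  have hdkl : Disjoint ({k, l} : Finset V) U := by
    rw [Finset.disjoint_left]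
    intro x hx hy
    simp only [Finset.mem_insert, Finset.mem_singleton] at hx
    rcases hx with hx | hx
    · rw [hx] at hy; exact hkU hy
    · rw [hx] at hy; exact hlU hy
  have hcompl : U \ (C.D 1 ∪ C.D 2) = C.D 0 ∪ C.D 3 := by
    ext x
    rw [hUdef]
    simp only [Finset.mem_sdiff, Finset.mem_union]
    have r1 := @D01 x
    have r2 := @D02 x
    have r3 := @D12 x
    have r4 := @D13 x
    have r5 := @D23 x
    tauto
  have hor : ¬ Gd κ ({k, l} ∪ (C.D 1 ∪ C.D 2)) ∨ ¬ Gd κ ({k, l} ∪ (C.D 0 ∪ C.D 3)) := by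
    by_contra hno
    push Not at hno
    obtain ⟨g1, g2⟩ := hno
    apply hncn
    apply cons_of_good hadd hdkl (Finset.union_subset m1 m2) (by rw [skl, sC]) hsU hcirc hY hYU
    · intro W hW ⟨B', hB', hWB'⟩
      by_cases hk : k ∈ W <;> by_cases hl : l ∈ W
      · right
        congr 1
        apply Finset.Subset.antisymm hW
        intro x hx
        simp only [Finset.mem_insert, Finset.mem_singleton] at hx
        rcases hx with hx | hx
        · rw [hx]; exact hk
        · rw [hx]; exact hl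
      · exfalso
        have : W = {k} := by
          apply Finset.Subset.antisymm
          · intro x hx
            have := hW hx
            simp only [Finset.mem_insert, Finset.mem_singleton] at this ⊢
            rcases this with h | h
            · exact h
            · rw [h] at hx; exact absurd hx hl
          · exact Finset.singleton_subset_iff.mpr hk
        rw [this, sm_singleton] at hWB'
        exact nk B' hB' hWB'.symm
      · exfalso
        have : W = {l} := by
          apply Finset.Subset.antisymm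
          · intro x hx
            have := hW hx
            simp only [Finset.mem_insert, Finset.mem_singleton] at this ⊢
            rcases this with h | h
            · rw [h] at hx; exact absurd hx hk
            · exact h
          · exact Finset.singleton_subset_iff.mpr hl
        rw [this, sm_singleton] at hWB'
        exact nl B' hB' hWB'.symm
      · left
        have : W = ∅ := by
          rw [Finset.eq_empty_iff_forall_notMem]
          intro x hx
          have := hW hx
          simp only [Finset.mem_insert, Finset.mem_singleton] at this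
          rcases this with h | h
          · rw [h] at hx; exact hk hx
          · rw [h] at hx; exact hl hx
        rw [this, sm_empty]
    · exact g1
    · rw [hcompl]; exact g2
  have Ein := inner_energy (Λ := Λ) hh
  have Eout := outer_energy (Λ := Λ) hh
  have Efour := four_energy (Λ := Λ) hh
  have pp : M.f (i + j) ≤ Λ.q (x1 + x2) := M.f_le' (by rw [map_add, p1, p2])
  have pm : M.f (i + j) ≤ Λ.q (x1 - x2) := M.f_le' (by rw [map_sub, p1, p2, sub_eq_add'])
  -- general treatment of a bad pair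
  have fin : ∀ (E E' : Finset V) (P P' : L), E ⊆ U → E' ⊆ U → Disjoint E E' → E.Nonempty →
      E'.Nonempty → sm E = Λ.pr P → sm E' = Λ.pr P' → ∑ x ∈ E, M.f x ≤ Λ.q P →
      ∑ x ∈ E', M.f x ≤ Λ.q P' → Λ.pr P + Λ.pr P' = i + j → Λ.q P + Λ.q P' ≤ M.f i + M.f j →
      ¬ Gd κ ({k, l} ∪ (E ∪ E')) →
      M.f i + M.f j ≤ Λ.q P + Λ.q P' ∧ Sv M P ∧ Sv M P' ∧
        Bd M.f κ w {Λ.pr P, Λ.pr P', k, l} := by
    intro E E' P P' hE hE' hd hne hne' hs hs' hq hq' hp hle hngd
    have hdE : Disjoint ({k, l} : Finset V) (E ∪ E') :=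
      Finset.disjoint_of_subset_right (Finset.union_subset hE hE') hdkl
    have hsum : ∑ x ∈ {k, l} ∪ (E ∪ E'), M.f x =
        M.f k + M.f l + (∑ x ∈ E, M.f x + ∑ x ∈ E', M.f x) := by
      rw [Finset.sum_union hdE, Finset.sum_union hd, Finset.sum_pair hkl]
    have hcard2 : ({k, l} ∪ (E ∪ E') : Finset V).card = 2 + (E.card + E'.card) := by
      rw [Finset.card_union_of_disjoint hdE, Finset.card_union_of_disjoint hd,
        Finset.card_pair hkl]
    have c1 : 0 < E.card := Finset.card_pos.mpr hne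
    have c2 : 0 < E'.card := Finset.card_pos.mpr hne'
    have hbd : Bd M.f κ w ({k, l} ∪ (E ∪ E')) := by
      apply ihw.bd
      · intro x hx
        simp only [Finset.mem_union, Finset.mem_insert, Finset.mem_singleton] at hx
        rcases hx with (h | h) | (h | h)
        · rw [h]; exact stk
        · rw [h]; exact stl
        · exact hUst x (hE h)
        · exact hUst x (hE' h)
      · rw [sm_union hdE, sm_union hd, skl, hs, hs', hp, self_add]
      · rw [hsum]; linarith
      · rw [hcard2]; omega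
      · exact hngd
    have hw' := hbd.2.2.1
    have hc' := hbd.2.2.2.1
    rw [hsum] at hw'
    rw [hcard2] at hc'
    obtain ⟨d, hd1⟩ := Finset.card_eq_one.mp (show E.card = 1 by omega)
    obtain ⟨d', hd2⟩ := Finset.card_eq_one.mp (show E'.card = 1 by omega)
    rw [hd1, hd2, Finset.sum_singleton, Finset.sum_singleton] at hw'
    rw [hd1, Finset.sum_singleton] at hq
    rw [hd2, Finset.sum_singleton] at hq'
    rw [hd1, sm_singleton] at hs
    rw [hd2, sm_singleton] at hs'
    refine ⟨by linarith, ⟨?_, ?_⟩, ⟨?_, ?_⟩, ?_⟩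
    · rw [← hs]; exact hUst d (hE (by rw [hd1]; exact Finset.mem_singleton_self _))
    · rw [← hs]; linarith
    · rw [← hs']; exact hUst d' (hE' (by rw [hd2]; exact Finset.mem_singleton_self _))
    · rw [← hs']; linarith
    · have e : ({k, l} ∪ (E ∪ E') : Finset V) = {Λ.pr P, Λ.pr P', k, l} := by
        rw [hd1, hd2, ← hs, ← hs']
        ext x
        simp only [Finset.mem_union, Finset.mem_singleton, Finset.mem_insert]
        tauto
      rw [← e]; exact hbd
  rcases hor with hng1 | hng1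
  · right
    have := fin (C.D 1) (C.D 2) (x1 - h) (x2 - h) m1 m2 d12 (C.ne 1) (C.ne 2) C.s1 C.s2 w1 w2
      (by rw [← C.s1, ← C.s2, ← sm_union d12, sC]) (by linarith) hng1
    obtain ⟨h1, h2, h3, h4⟩ := this
    exact ⟨by linarith, h2, h3, h4⟩
  · left
    have := fin (C.D 0) (C.D 3) h (z - h) m0 m3 d03 (C.ne 0) (C.ne 3) C.s0 C.s3 w0 w3
      (by rw [← C.s0, ← C.s3, ← sm_union d03, sD]) (by linarith) hng1
    obtain ⟨h1, h2, h3, h4⟩ := this
    exact ⟨by linarith, h2, h3, h4⟩

end T1

end Pool.Agent.Run7.h698.Von
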