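import Pool.Agent.Run7.h698.VonK

set_option autoImplicit false

open scoped symmDiff

namespace Pool.Agent.Run7.h698.Von

open Pool.Agent.K7.H30.Vo

section perm

variable {V : Type} [AddCommGroup V] [Module (ZMod 2) V] [DecidableEq V]

omit [AddCommGroup V] [Module (ZMod 2) V] in
lemma card4_ne {i j k l : V} (h : ({i, j, k, l} : Finset V).card = 4) :
    i ≠ j ∧ i ≠ k ∧ i ≠ l ∧ j ≠ k ∧ j ≠ l ∧ k ≠ l := by
  have c3 : ∀ a b c : V, ({a, b, c} : Finset V).card ≤ 3 := fun a b c => Finset.card_le_three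
  have key : ∀ a b c : V, ({i, j, k, l} : Finset V) = {a, b, c} → False := by
    intro a b c e
    rw [e] at h
    have := c3 a b c
    omega
  refine ⟨?_, ?_, ?_, ?_, ?_, ?_⟩
  · intro e
    apply key j k l
    rw [e]; ext x; simp only [Finset.mem_insert, Finset.mem_singleton]; tauto
  · intro e
    apply key j k l
    rw [e]; ext x; simp only [Finset.mem_insert, Finset.mem_singleton]; tauto
  · intro e
    apply key j k l
    rw [e]; ext x; simp only [Finset.mem_insert, Finset.mem_singleton]; tauto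
  · intro e
    apply key i k l
    rw [e]; ext x; simp only [Finset.mem_insert, Finset.mem_singleton]; tauto
  · intro e
    apply key i k l
    rw [e]; ext x; simp only [Finset.mem_insert, Finset.mem_singleton]; tauto
  · intro e
    apply key i j l
    rw [e]; ext x; simp only [Finset.mem_insert, Finset.mem_singleton]; tauto

variable {f : V → ℝ} {κ : Finset V → V} {w : ℝ}

lemma Bd.ikjl {i j k l : V} (h : Bd f κ w {i, j, k, l}) : Bd f κ w {i, k, j, l} := by
  have e : ({i, j, k, l} : Finset V) = {i, k, j, l} := by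
    ext x; simp only [Finset.mem_insert, Finset.mem_singleton]; tauto
  rwa [e] at h

lemma Bd.iljk {i j k l : V} (h : Bd f κ w {i, j, k, l}) : Bd f κ w {i, l, j, k} := by
  have e : ({i, j, k, l} : Finset V) = {i, l, j, k} := by
    ext x; simp only [Finset.mem_insert, Finset.mem_singleton]; tauto
  rwa [e] at h

lemma Bd.jkil {i j k l : V} (h : Bd f κ w {i, j, k, l}) : Bd f κ w {j, k, i, l} := by
  have e : ({i, j, k, l} : Finset V) = {j, k, i, l} := by
    ext x; simp only [Finset.mem_insert, Finset.mem_singleton]; tauto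
  rwa [e] at h

lemma Bd.jlik {i j k l : V} (h : Bd f κ w {i, j, k, l}) : Bd f κ w {j, l, i, k} := by
  have e : ({i, j, k, l} : Finset V) = {j, l, i, k} := by
    ext x; simp only [Finset.mem_insert, Finset.mem_singleton]; tauto
  rwa [e] at h

lemma Bd.klij {i j k l : V} (h : Bd f κ w {i, j, k, l}) : Bd f κ w {k, l, i, j} := by
  have e : ({i, j, k, l} : Finset V) = {k, l, i, j} := by
    ext x; simp only [Finset.mem_insert, Finset.mem_singleton]; tauto
  rwa [e] at h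

lemma Bd.ijlk {i j k l : V} (h : Bd f κ w {i, j, k, l}) : Bd f κ w {i, j, l, k} := by
  have e : ({i, j, k, l} : Finset V) = {i, j, l, k} := by
    ext x; simp only [Finset.mem_insert, Finset.mem_singleton]; tauto
  rwa [e] at h

lemma Bd.ne {i j k l : V} (h : Bd f κ w {i, j, k, l}) :
    i ≠ j ∧ i ≠ k ∧ i ≠ l ∧ j ≠ k ∧ j ≠ l ∧ k ≠ l := card4_ne h.2.2.2.1

lemma Bd.st {i j k l : V} (h : Bd f κ w {i, j, k, l}) :
    St f i ∧ St f j ∧ St f k ∧ St f l :=
  ⟨h.1 i (by simp), h.1 j (by simp), h.1 k (by simp), h.1 l (by simp)⟩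

lemma Bd.kl {i j k l : V} (h : Bd f κ w {i, j, k, l}) : k + l = i + j := by
  obtain ⟨hij, hik, hil, hjk, hjl, hkl⟩ := h.ne
  have h0 := h.2.1
  rw [sm_four hij hik hil hjk hjl hkl] at h0
  have : (i + j) + (k + l) = 0 := by rw [← h0]; abel
  exact (add_eq_zero_iff'.mp this).symm

lemma Bd.wt {i j k l : V} (h : Bd f κ w {i, j, k, l}) : f i + f j + f k + f l = w := by
  obtain ⟨hij, hik, hil, hjk, hjl, hkl⟩ := h.ne
  have h0 := h.2.2.1
  rwa [sum_four f hij hik hil hjk hjl hkl] at h0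

/-- pair sums in a bad cycle are not strict -/
lemma Bd.nonstrict {i j k l : V} (h : Bd f κ w {i, j, k, l})
    (hadd : ∀ S S' : Finset V, sm S = 0 → sm S' = 0 → κ (S ∆ S') = κ S + κ S')
    (ihw : IH f κ w) : ¬ St f (i + j) := by
  intro hst
  obtain ⟨hij, hik, hil, hjk, hjl, hkl⟩ := h.ne
  obtain ⟨sti, stj, stk, stl⟩ := h.st
  have ekl := h.kl
  have hw := h.wt
  set c := i + j with hc
  have ci : c ≠ i := by
    intro e
    have : i + j = i + 0 := by rw [add_zero, ← hc, e]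
    exact stj.1 (add_left_cancel this)
  have cj : c ≠ j := by
    intro e
    have : j + i = j + 0 := by rw [add_zero, add_comm j i, ← hc, e]
    exact sti.1 (add_left_cancel this)
  have ck : c ≠ k := by
    intro e
    have : k + l = k + 0 := by rw [add_zero, ekl, e]
    exact stl.1 (add_left_cancel this)
  have cl : c ≠ l := by
    intro e
    have : l + k = l + 0 := by rw [add_zero, add_comm l k, ekl, e]
    exact stk.1 (add_left_cancel this)
  have l1 : f c < f i + f j := by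
    have := hst.2 i sti.1 ci.symm
    have e : c + i = j := by
      rw [hc]
      have : i + j + i = j + (i + i) := by abel
      rw [this, self_add, add_zero]
    rwa [e] at this
  have l2 : f c < f k + f l := by
    have := hst.2 k stk.1 ck.symm
    have e : c + k = l := by
      rw [← ekl]
      have : k + l + k = l + (k + k) := by abel
      rw [this, self_add, add_zero]
    rwa [e] at this
  have hcA : c ∉ ({i, j} : Finset V) := by
    simp only [Finset.mem_insert, Finset.mem_singleton, not_or]; exact ⟨ci, cj⟩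
  have hcB : c ∉ ({k, l} : Finset V) := by
    simp only [Finset.mem_insert, Finset.mem_singleton, not_or]; exact ⟨ck, cl⟩
  have sA : sm ({i, j} : Finset V) = c := by
    unfold sm; rw [Finset.sum_pair hij]
  have sB : sm ({k, l} : Finset V) = c := by
    unfold sm; rw [Finset.sum_pair hkl]; exact ekl
  have hd : Disjoint ({i, j} : Finset V) {k, l} := by
    rw [Finset.disjoint_left]
    intro x hx hy
    simp only [Finset.mem_singleton, Finset.mem_insert] at hx hy
    rcases hx with hx | hx <;> rcases hy with hy | hy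
    · exact hik (hx.symm.trans hy)
    · exact hil (hx.symm.trans hy)
    · exact hjk (hx.symm.trans hy)
    · exact hjl (hx.symm.trans hy)
  have zA : sm (insert c ({i, j} : Finset V)) = 0 := by rw [sm_insert hcA, sA, self_add]
  have zB : sm (insert c ({k, l} : Finset V)) = 0 := by rw [sm_insert hcB, sB, self_add]
  have gA : Gd κ (insert c {i, j}) := by
    apply ihw.light _ _ zA
    · rw [Finset.sum_insert hcA, Finset.sum_pair hij]; linarith
    · intro x hx
      simp only [Finset.mem_singleton, Finset.mem_insert] at hx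
      rcases hx with hx | hx | hx
      · rw [hx]; exact hst
      · rw [hx]; exact sti
      · rw [hx]; exact stj
  have gB : Gd κ (insert c {k, l}) := by
    apply ihw.light _ _ zB
    · rw [Finset.sum_insert hcB, Finset.sum_pair hkl]; linarith
    · intro x hx
      simp only [Finset.mem_singleton, Finset.mem_insert] at hx
      rcases hx with hx | hx | hx
      · rw [hx]; exact hst
      · rw [hx]; exact stk
      · rw [hx]; exact stl
  have hsd := insert_symmDiff_insert hcA hcB hd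
  obtain ⟨Y, hY, hY', -⟩ := side (κ := κ) hcA hcB hd sB gA gB (by
      rw [← hadd _ _ zA zB, hsd])
  have hUn : ({i, j} : Finset V) ∪ {k, l} = {i, j, k, l} := by
    ext x; simp only [Finset.mem_union, Finset.mem_insert, Finset.mem_singleton]; tauto
  rw [hUn] at hY hY'
  exact h.2.2.2.2 ⟨Y, hY, hY'⟩

end perm

section star

variable {L V : Type} [AddCommGroup L] [AddCommGroup V] [Module (ZMod 2) V] [Fintype V]
  [DecidableEq V] {Λ : Lat L V} {M : Λ.MinSys}

omit [Fintype V] [DecidableEq V] in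
lemma Sv.eq_y {x : L} (h : Sv M x) : x = M.y (Λ.pr x) ∨ x = - M.y (Λ.pr x) := h.1.uniq rfl h.2

/-- one of the two differences is class-minimal -/
theorem star {κ : Finset V → V}
    (hadd : ∀ S S' : Finset V, sm S = 0 → sm S' = 0 → κ (S ∆ S') = κ S + κ S') {w : ℝ}
    (ihw : IH M.f κ w) {i j k l : V} (hb : Bd M.f κ w {i, j, k, l}) {x1 x2 : L}
    (s1 : Sv M x1) (s2 : Sv M x2) (p1 : Λ.pr x1 = i) (p2 : Λ.pr x2 = j) :
    Λ.q (x1 - x2) ≤ M.f (i + j) ∨ Λ.q (x1 + x2) ≤ M.f (i + j) := by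
  obtain ⟨hij, hik, hil, hjk, hjl, hkl⟩ := hb.ne
  have hz : Λ.q (M.y (i + j)) = M.f (i + j) := rfl
  have hpz : Λ.pr (M.y (i + j)) = i + j := M.pr_y _
  set z := M.y (i + j) with hzdef
  by_cases n1 : z = x1 + x2
  · right; rw [← n1, hz]
  by_cases n2 : z = -(x1 + x2)
  · right; rw [← Λ.q_neg, ← n2, hz]
  by_cases n3 : z = x1 - x2
  · left; rw [← n3, hz]
  by_cases n4 : z = x2 - x1
  · left
    have : x1 - x2 = -(x2 - x1) := by abel
    rw [this, Λ.q_neg, ← n4, hz]
  have hp : Λ.pr (x1 + x2 + z) = 0 := by rw [map_add, map_add, p1, p2, hpz, self_add]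
  have hh := Λ.half_add hp
  rcases T1 hadd ihw hij hik hil hjk hjl hkl hb s1 s2 p1 p2 (z := z)
    (by unfold Mn; rw [hpz, hz]) hh n1 n2 n3 n4 with h | h
  · exact Or.inl h.1
  · exact Or.inr h.1

theorem star_sq {κ : Finset V → V}
    (hadd : ∀ S S' : Finset V, sm S = 0 → sm S' = 0 → κ (S ∆ S') = κ S + κ S') {w : ℝ}
    (ihw : IH M.f κ w) {i j k l : V} (hb : Bd M.f κ w {i, j, k, l}) {x1 x2 : L}
    (s1 : Sv M x1) (s2 : Sv M x2) (p1 : Λ.pr x1 = i) (p2 : Λ.pr x2 = j) :
    (2 * Λ.b x1 x2) ^ 2 = (M.f i + M.f j - M.f (i + j)) ^ 2 := by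
  have q1 := s1.eq
  have q2 := s2.eq
  rw [p1] at q1
  rw [p2] at q2
  rcases star hadd ihw hb s1 s2 p1 p2 with h | h
  · have h1 : M.f (i + j) ≤ Λ.q (x1 - x2) := M.f_le' (by rw [map_sub, p1, p2, sub_eq_add'])
    have h2 := le_antisymm h h1
    rw [Λ.q_sub, q1, q2] at h2
    rw [← h2]; ring
  · have h1 : M.f (i + j) ≤ Λ.q (x1 + x2) := M.f_le' (by rw [map_add, p1, p2])
    have h2 := le_antisymm h h1
    rw [Λ.q_add, q1, q2] at h2
    rw [← h2]; ring

/-- choice of signs -/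
theorem star_sign {κ : Finset V → V}
    (hadd : ∀ S S' : Finset V, sm S = 0 → sm S' = 0 → κ (S ∆ S') = κ S + κ S') {w : ℝ}
    (ihw : IH M.f κ w) {i j k l : V} (hb : Bd M.f κ w {i, j, k, l}) :
    ∃ x1 x2 : L, Sv M x1 ∧ Sv M x2 ∧ Λ.pr x1 = i ∧ Λ.pr x2 = j ∧
      Λ.q (x1 - x2) ≤ M.f (i + j) := by
  obtain ⟨sti, stj, stk, stl⟩ := hb.st
  rcases star hadd ihw hb (Sv.y sti) (Sv.y stj) (M.pr_y _) (M.pr_y _) with h | h
  · exact ⟨M.y i, M.y j, Sv.y sti, Sv.y stj, M.pr_y _, M.pr_y _, h⟩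
  · refine ⟨M.y i, - M.y j, Sv.y sti, (Sv.y stj).neg, M.pr_y _, ?_, ?_⟩
    · rw [pr_neg, M.pr_y]
    · rw [sub_neg_eq_add]; exact h

theorem stepA {κ : Finset V → V}
    (hadd : ∀ S S' : Finset V, sm S = 0 → sm S' = 0 → κ (S ∆ S') = κ S + κ S') {w : ℝ}
    (ihw : IH M.f κ w) {i j k l : V} (hb : Bd M.f κ w {i, j, k, l}) :
    ∃ i j k l, Bd M.f κ w {i, j, k, l} ∧ Λ.b (M.y i) (M.y j) ≠ 0 := by
  by_contra hno
  push Not at hno
  obtain ⟨hij, hik, hil, hjk, hjl, hkl⟩ := hb.ne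
  obtain ⟨sti, stj, stk, stl⟩ := hb.st
  have b1 := hno _ _ _ _ hb
  have b2 := hno _ _ _ _ hb.ikjl
  have b3 := hno _ _ _ _ hb.jkil
  have b4 := hno _ _ _ _ hb.klij
  have st1 := star_sq hadd ihw hb (Sv.y sti) (Sv.y stj) (M.pr_y _) (M.pr_y _)
  have st2 := star_sq hadd ihw hb.klij (Sv.y stk) (Sv.y stl) (M.pr_y _) (M.pr_y _)
  rw [b1] at st1
  rw [b4] at st2
  have e1 : M.f i + M.f j - M.f (i + j) = 0 := by
    have : (M.f i + M.f j - M.f (i + j)) ^ 2 = 0 := by rw [← st1]; ring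
    exact pow_eq_zero_iff (two_ne_zero) |>.mp this
  have e2 : M.f k + M.f l - M.f (k + l) = 0 := by
    have : (M.f k + M.f l - M.f (k + l)) ^ 2 = 0 := by rw [← st2]; ring
    exact pow_eq_zero_iff (two_ne_zero) |>.mp this
  have qk : Λ.q (M.y k) = M.f k := rfl
  have ql : Λ.q (M.y l) = M.f l := rfl
  have pk : 0 < M.f k := M.f_pos stk.1
  have mz : Mn M (M.y k + M.y l) := by
    unfold Mn
    rw [map_add, M.pr_y, M.pr_y, Λ.q_add, b4, qk, ql]
    linarith
  have bz : Λ.b (M.y k + M.y l) (M.y k) = M.f k := by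
    rw [Λ.add_left, Λ.symm (M.y l), b4]
    have : Λ.b (M.y k) (M.y k) = M.f k := rfl
    rw [this]; ring
  have nz : ∀ x : L, Λ.b x (M.y k) = 0 → M.y k + M.y l ≠ x := by
    intro x hx e
    rw [e, hx] at bz
    linarith
  have hp : Λ.pr (M.y i + M.y j + (M.y k + M.y l)) = 0 := by
    rw [map_add, map_add, map_add, M.pr_y, M.pr_y, M.pr_y, M.pr_y, hb.kl, self_add]
  have hh := Λ.half_add hp
  set h := Lat.half (M.y i + M.y j + (M.y k + M.y l)) with hhdef
  have bh : 2 * Λ.b h (M.y k) = M.f k := by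
    have h1 : Λ.b (h + h) (M.y k) = M.f k := by
      rw [hh, Λ.add_left, Λ.add_left, bz, b2, b3]; ring
    rw [Λ.add_left] at h1
    linarith
  have zer : ∀ x : L, Sv M x → ∀ r : V, Bd M.f κ w {Λ.pr x, r, k, l} → Λ.b x (M.y k) = 0 := by
    intro x hx r hbd
    have h1 := hno _ _ _ _ hbd.ikjl
    rcases hx.eq_y with h2 | h2
    · rw [h2]; exact h1
    · rw [h2, Λ.neg_left, h1, neg_zero]
  rcases T1 hadd ihw hij hik hil hjk hjl hkl hb (Sv.y sti) (Sv.y stj) (M.pr_y _) (M.pr_y _) mz hh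
    (nz _ (by rw [Λ.add_left, b2, b3, add_zero]))
    (nz _ (by rw [Λ.neg_left, Λ.add_left, b2, b3, add_zero, neg_zero]))
    (nz _ (by rw [Λ.sub_left, b2, b3, sub_zero]))
    (nz _ (by rw [Λ.sub_left, b2, b3, sub_zero])) with ⟨-, h1, -, h3⟩ | ⟨-, h1, -, h3⟩
  · have := zer h h1 _ h3
    linarith
  · have := zer _ h1 _ h3
    rw [Λ.sub_left, b2] at this
    linarith

theorem stepB {κ : Finset V → V}
    (hadd : ∀ S S' : Finset V, sm S = 0 → sm S' = 0 → κ (S ∆ S') = κ S + κ S') {w : ℝ}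
    (ihw : IH M.f κ w) {i j k l : V} (hb : Bd M.f κ w {i, j, k, l})
    (hne : Λ.b (M.y i) (M.y j) ≠ 0) :
    ∃ g1 g2 g3 g4 : L, Sv M g1 ∧ Sv M g2 ∧ Sv M g3 ∧ Sv M g4 ∧ g1 - g2 = g3 - g4 ∧
      0 < Λ.b g1 g2 ∧ Bd M.f κ w {Λ.pr g1, Λ.pr g2, Λ.pr g3, Λ.pr g4} := by
  obtain ⟨hij, hik, hil, hjk, hjl, hkl⟩ := hb.ne
  obtain ⟨sti, stj, stk, stl⟩ := hb.st
  -- signs for the first pair
  obtain ⟨x1, x2, s1, s2, p1, p2, hb12⟩ : ∃ x1 x2 : L, Sv M x1 ∧ Sv M x2 ∧ Λ.pr x1 = i ∧
      Λ.pr x2 = j ∧ 0 < Λ.b x1 x2 := by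
    rcases lt_or_gt_of_ne hne with h | h
    · exact ⟨M.y i, - M.y j, Sv.y sti, (Sv.y stj).neg, M.pr_y _, by rw [pr_neg, M.pr_y], by
        rw [Λ.neg_right]; linarith⟩
    · exact ⟨M.y i, M.y j, Sv.y sti, Sv.y stj, M.pr_y _, M.pr_y _, h⟩
  have pp : M.f (i + j) ≤ Λ.q (x1 + x2) := M.f_le' (by rw [map_add, p1, p2])
  have pm : M.f (i + j) ≤ Λ.q (x1 - x2) := M.f_le' (by rw [map_sub, p1, p2, sub_eq_add'])
  have qp := Λ.q_add x1 x2
  have qm := Λ.q_sub x1 x2
  have hmin : Λ.q (x1 - x2) ≤ M.f (i + j) := by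
    rcases star hadd ihw hb s1 s2 p1 p2 with h | h
    · exact h
    · linarith
  have hgt : M.f (i + j) < Λ.q (x1 + x2) := by linarith
  obtain ⟨x3, x4, s3, s4, p3, p4, hmin'⟩ := star_sign hadd ihw hb.klij
  have hkl' := hb.kl
  have pz : Λ.pr (x3 - x4) = i + j := by rw [map_sub, p3, p4, sub_eq_add', hkl']
  have mz : Mn M (x3 - x4) := by
    unfold Mn; rw [pz, ← hkl']; exact hmin'
  have qz : Λ.q (x3 - x4) ≤ M.f (i + j) := by rw [← hkl']; exact hmin'
  by_cases n3 : x3 - x4 = x1 - x2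
  · refine ⟨x1, x2, x3, x4, s1, s2, s3, s4, n3.symm, hb12, ?_⟩
    rw [p1, p2, p3, p4]; exact hb
  by_cases n4 : x3 - x4 = x2 - x1
  · refine ⟨x1, x2, x4, x3, s1, s2, s4, s3, ?_, hb12, ?_⟩
    · have : x1 - x2 = -(x2 - x1) := by abel
      rw [this, ← n4]; abel
    · rw [p1, p2, p3, p4]; exact hb.ijlk
  have n1 : x3 - x4 ≠ x1 + x2 := by
    intro e; rw [e] at qz; linarith
  have n2 : x3 - x4 ≠ -(x1 + x2) := by
    intro e; rw [e, Λ.q_neg] at qz; linarith
  have hp : Λ.pr (x1 + x2 + (x3 - x4)) = 0 := by rw [map_add, map_add, p1, p2, pz, self_add]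
  have hh := Λ.half_add hp
  set h := Lat.half (x1 + x2 + (x3 - x4)) with hhdef
  rcases T1 hadd ihw hij hik hil hjk hjl hkl hb s1 s2 p1 p2 mz hh n1 n2 n3 n4 with
    ⟨-, t1, t2, t3⟩ | ⟨t0, -, -, -⟩
  · refine ⟨h, -((x3 - x4) - h), x3, x4, t1, t2.neg, s3, s4, ?_, ?_, ?_⟩
    · abel
    · have e1 : Λ.b (h + h) (-((x3 - x4) - h) + -((x3 - x4) - h)) =
          Λ.b (x1 + x2 + (x3 - x4)) (x1 + x2 - (x3 - x4)) := by
        have : -((x3 - x4) - h) + -((x3 - x4) - h) = (h + h) - (x3 - x4) - (x3 - x4) := by abel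
        rw [this, hh]
        congr 1
        abel
      rw [Λ.add_left, Λ.add_right] at e1
      have e2 : Λ.b (x1 + x2 + (x3 - x4)) (x1 + x2 - (x3 - x4)) =
          Λ.q (x1 + x2) - Λ.q (x3 - x4) := by
        have gen : ∀ u v : L, Λ.b (u + v) (u - v) = Λ.q u - Λ.q v := by
          intro u v
          rw [Λ.add_left, Λ.sub_right, Λ.sub_right, Λ.symm v u]
          unfold Lat.q; ring
        exact gen _ _
      rw [e2] at e1
      linarith
    · rw [pr_neg, p3, p4]; exact t3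
  · exfalso; linarith

end star

end Pool.Agent.Run7.h698.Von
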