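import Pool.Agent.Run7.h698.VonL

set_option autoImplicit false

open scoped symmDiff

namespace Pool.Agent.Run7.h698.Von

open Pool.Agent.K7.H30.Vo

section box

variable {L V : Type} [AddCommGroup L] [AddCommGroup V] [Module (ZMod 2) V] [Fintype V]
  [DecidableEq V] {Λ : Lat L V} (N : Λ.MinSys)

/-- `μ` is a sign function on `D` -/
def Sg (D : Finset V) (μ : V → ℤ) : Prop :=
  (∀ a ∈ D, μ a = 1 ∨ μ a = -1) ∧ ∀ a, a ∉ D → μ a = 0

omit [AddCommGroup V] [Module (ZMod 2) V] [Fintype V] [DecidableEq V] in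
lemma Sg.neg {D : Finset V} {μ : V → ℤ} (h : Sg D μ) : Sg D (-μ) := by
  refine ⟨fun a ha => ?_, fun a ha => ?_⟩
  · rw [Pi.neg_apply]
    rcases h.1 a ha with h1 | h1
    · right; rw [h1]
    · left; rw [h1]; rfl
  · rw [Pi.neg_apply, h.2 a ha, neg_zero]

lemma Sg.pr {D : Finset V} {μ : V → ℤ} (h : Sg D μ) : Λ.pr (cmb N μ) = sm D := by
  rw [pr_cmb]
  unfold sm
  rw [← Finset.sum_subset (Finset.subset_univ D)]
  · exact Finset.sum_congr rfl (fun a ha => zsmul_odd (h.1 a ha) a)
  · intro a _ ha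
    rw [h.2 a ha, zero_zsmul]

lemma box (D : Finset V) : ∀ μ : V → ℤ, Sg D μ → ∑ a ∈ D, N.f a ≤ N.f (sm D) →
    Λ.q (cmb N μ) ≤ N.f (sm D) := by
  induction D using Finset.induction_on with
  | empty =>
    intro μ hμ _
    have : μ = 0 := by funext a; exact hμ.2 a (Finset.notMem_empty a)
    rw [this, cmb_zero, Λ.q_zero]
    exact N.f_nonneg _
  | insert a D ha ih =>
    intro μ hμ hs
    rw [Finset.sum_insert ha, sm_insert ha] at hs
    rw [sm_insert ha]
    have h1 := f_sub N a (sm D)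
    have h2 := f_sm N D
    set μ' : V → ℤ := μ - Pi.single a (μ a) with hμ'
    have hSg : Sg D μ' := by
      refine ⟨fun b hb => ?_, fun b hb => ?_⟩
      · have hba : b ≠ a := fun e => ha (e ▸ hb)
        rw [hμ', Pi.sub_apply, Pi.single_eq_of_ne hba, sub_zero]
        exact hμ.1 b (Finset.mem_insert_of_mem hb)
      · by_cases hba : b = a
        · rw [hμ', Pi.sub_apply, hba, Pi.single_eq_same, sub_self]
        · rw [hμ', Pi.sub_apply, Pi.single_eq_of_ne hba, sub_zero]
          apply hμ.2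
          rw [Finset.mem_insert, not_or]
          exact ⟨hba, hb⟩
    have h3 := ih μ' hSg (by linarith)
    have h4 : cmb N μ = μ a • N.y a + cmb N μ' := by
      rw [hμ', cmb_sub, cmb_single]; abel
    have h5 := hSg.pr N
    set v := cmb N μ' with hv
    have hpr : Λ.pr (μ a • N.y a) = a := by
      rw [map_zsmul, N.pr_y]
      exact zsmul_odd (hμ.1 a (Finset.mem_insert_self _ _)) a
    have hq : Λ.q (μ a • N.y a) = N.f a := by
      rcases hμ.1 a (Finset.mem_insert_self _ _) with h | h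
      · rw [h, one_zsmul]; rfl
      · rw [h, neg_one_zsmul, Λ.q_neg]; rfl
    have h6 : N.f (a + sm D) ≤ Λ.q (μ a • N.y a - v) :=
      N.f_le' (by rw [map_sub, hpr, h5, sub_eq_add'])
    rw [Λ.q_sub, hq] at h6
    rw [h4, Λ.q_add, hq]
    linarith

end box

section local4

variable {L L' V : Type} [AddCommGroup L] [AddCommGroup L'] [AddCommGroup V] [Module (ZMod 2) V]
  [Fintype V] [DecidableEq V] {Λ : Lat L V} {Λ' : Lat L' V} (M : Λ.MinSys) (N : Λ'.MinSys)

lemma mod4_local (m : V → ℤ) (S : Finset V) (hS : ∀ a, a ∈ S ↔ m a % 2 = 1)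
    (hT : TT N S = TT M S) (h0 : cmb M m = 0) :
    ∃ t : L', cmb N m = (t + t) + (t + t) := by
  classical
  set k : V → ℤ := fun a => m a / 2 with hk
  have hdec : ∀ a, m a = (if a ∈ S then 1 else 0) + (k a + k a) := by
    intro a
    simp only [hS, hk]
    have h1 := Int.mul_ediv_add_emod (m a) 2
    rcases Int.emod_two_eq_zero_or_one (m a) with h | h
    · rw [h] at h1; rw [h, if_neg (by decide)]; omega
    · rw [h] at h1; rw [h, if_pos rfl]; omega
  have hsplit : ∀ {L0 : Type} [AddCommGroup L0] (y : V → L0),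
      ∑ a, m a • y a = ∑ a ∈ S, y a + (∑ a, k a • y a + ∑ a, k a • y a) := by
    intro L0 _ y
    have e1 : ∑ a ∈ S, y a = ∑ a, (if a ∈ S then (1 : ℤ) else 0) • y a := by
      rw [← Finset.sum_subset (Finset.subset_univ S)]
      · apply Finset.sum_congr rfl
        intro a ha
        rw [if_pos ha, one_zsmul]
      · intro a _ ha
        rw [if_neg ha, zero_zsmul]
    rw [e1, ← Finset.sum_add_distrib, ← Finset.sum_add_distrib]
    apply Finset.sum_congr rfl
    intro a _
    rw [← add_zsmul, ← add_zsmul, ← hdec a]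
  have e1 := hsplit (fun a => M.y a)
  have e2 := hsplit (fun a => N.y a)
  have hc : ∑ a ∈ S, M.y a + (cmb M k + cmb M k) = 0 := by
    unfold cmb
    rw [← e1]; exact h0
  have hsm : sm S = 0 := by
    have h1 := congrArg Λ.pr hc
    rw [map_add, pr_sum, map_add, self_add, add_zero, map_zero] at h1
    exact h1
  have hM : (-cmb M k) + (-cmb M k) = ∑ a ∈ S, M.y a := by
    rw [eq_neg_of_add_eq_zero_left hc]; abel
  have h1 : TT M S = Λ.pr (cmb M k) := by rw [TT_eq M hM, pr_neg]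
  have h3 := half_sum N hsm
  set h' := Lat.half (∑ a ∈ S, N.y a) with hh'
  have h4 : TT N S = Λ'.pr h' := rfl
  have h5 : Λ'.pr (h' + cmb N k) = 0 := by
    rw [map_add, ← h4, hT, h1, pr_cmb, pr_cmb, self_add]
  obtain ⟨t, ht⟩ := Λ'.ker _ h5
  refine ⟨t, ?_⟩
  have h6 : cmb N m = (h' + cmb N k) + (h' + cmb N k) := by
    have : (h' + cmb N k) + (h' + cmb N k) = (h' + h') + (cmb N k + cmb N k) := by abel
    rw [this, h3]
    exact e2
  rw [h6, ht]

/-- transfer of one triangle -/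
lemma tri_transfer {u : V} {ε : ℤ} (hε : ε = 1 ∨ ε = -1) {A B : Finset V} (hAB : Disjoint A B)
    (hu : u ∉ A ∪ B) {μ ν : V → ℤ} (hμ : Sg A μ) (hν : Sg B ν)
    (hrel : ε • M.y u = cmb M μ + cmb M ν)
    (hT : TT N (insert u (A ∪ B)) = TT M (insert u (A ∪ B)))
    (hA : Λ'.q (cmb N μ) ≤ N.f (sm A)) (hB : Λ'.q (cmb N ν) ≤ N.f (sm B)) :
    ε • N.y u = cmb N μ + cmb N ν := by
  have hA' : u ∉ A := fun h => hu (Finset.mem_union_left _ h)
  have hB' : u ∉ B := fun h => hu (Finset.mem_union_right _ h)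
  obtain ⟨t, ht⟩ := mod4_local M N (Pi.single u ε - μ - ν) (insert u (A ∪ B)) (by
    intro a
    by_cases hau : a = u
    · have h1 : a ∈ insert u (A ∪ B) := by rw [hau]; exact Finset.mem_insert_self _ _
      refine ⟨fun _ => ?_, fun _ => h1⟩
      rw [Pi.sub_apply, Pi.sub_apply, hau, Pi.single_eq_same, hμ.2 u hA', hν.2 u hB']
      rcases hε with h | h <;> rw [h] <;> rfl
    · rw [Finset.mem_insert, Pi.sub_apply, Pi.sub_apply, Pi.single_eq_of_ne hau]
      by_cases haA : a ∈ A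
      · have haB : a ∉ B := Finset.disjoint_left.mp hAB haA
        rw [hν.2 a haB]
        refine ⟨fun _ => ?_, fun _ => Or.inr (Finset.mem_union_left _ haA)⟩
        rcases hμ.1 a haA with h | h <;> rw [h] <;> rfl
      · by_cases haB : a ∈ B
        · rw [hμ.2 a haA]
          refine ⟨fun _ => ?_, fun _ => Or.inr (Finset.mem_union_right _ haB)⟩
          rcases hν.1 a haB with h | h <;> rw [h] <;> rfl
        · rw [hμ.2 a haA, hν.2 a haB]
          constructor
          · rintro (h | h)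
            · exact absurd h hau
            · rcases Finset.mem_union.mp h with h | h
              · exact absurd h haA
              · exact absurd h haB
          · intro h
            exact absurd h (by decide)) hT
    (by rw [cmb_sub, cmb_sub, cmb_single, hrel]; abel)
  rw [cmb_sub, cmb_sub, cmb_single] at ht
  have q1 : Λ'.q (ε • N.y u) ≤ N.f (Λ'.pr (ε • N.y u)) := by
    rcases hε with h | h
    · rw [h, one_zsmul, N.pr_y]; exact le_refl _
    · rw [h, neg_one_zsmul, Λ'.q_neg, pr_neg, N.pr_y]; exact le_refl _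
  have q2 : Λ'.q (-cmb N μ) ≤ N.f (Λ'.pr (-cmb N μ)) := by
    rw [Λ'.q_neg, pr_neg, hμ.pr N]; exact hA
  have q3 : Λ'.q (-cmb N ν) ≤ N.f (Λ'.pr (-cmb N ν)) := by
    rw [Λ'.q_neg, pr_neg, hν.pr N]; exact hB
  have p1 := pair_le N q1 t
  have p2 := pair_le N q2 t
  have p3 := pair_le N q3 t
  have e : Λ'.b (ε • N.y u - cmb N μ - cmb N ν) t = 4 * Λ'.q t := by
    rw [ht, Λ'.add_left, Λ'.add_left]
    have : Λ'.b t t = Λ'.q t := rfl
    rw [this]; ring
  rw [Λ'.neg_left] at p2 p3
  rw [Λ'.sub_left, Λ'.sub_left] at e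
  have ht0 : t = 0 := Λ'.eq_zero_of_q (by linarith)
  rw [ht0] at ht
  have h1 : ε • N.y u - cmb N μ - cmb N ν = 0 := by rw [ht]; abel
  have h2 : ε • N.y u = (ε • N.y u - cmb N μ - cmb N ν) + (cmb N μ + cmb N ν) := by abel
  rw [h2, h1, zero_add]

end local4

section transfer

variable {L L' V : Type} [AddCommGroup L] [AddCommGroup L'] [AddCommGroup V] [Module (ZMod 2) V]
  [Fintype V] [DecidableEq V] {Λ : Lat L V} {Λ' : Lat L' V}

omit [Fintype V] in
lemma sm_flipset {U Y A X1 X2 : Finset V} {i j : V} (hi : i ∉ U) (hj : j ∉ U) (hij : i ≠ j)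
    (hA : A ⊆ U) (hY : Y ⊆ U) (h1 : X1 ⊆ {i}) (h2 : X2 ⊆ {j}) :
    sm ((({i} : Finset V) ∆ A) ∩ (Y ∪ (X1 ∪ X2))) = sm X1 + sm (Y ∩ A) := by
  have e : (({i} : Finset V) ∆ A) ∩ (Y ∪ (X1 ∪ X2)) = X1 ∪ (Y ∩ A) := by
    ext x
    have k1 : x ∈ X1 → x = i := fun h => Finset.mem_singleton.mp (h1 h)
    have k2 : x ∈ X2 → x = j := fun h => Finset.mem_singleton.mp (h2 h)
    have k3 := @hA x
    have k4 := @hY x
    have k5 : x ∈ U → x ≠ i := fun h e => hi (e ▸ h)
    have k6 : x ∈ U → x ≠ j := fun h e => hj (e ▸ h)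
    have k7 : ¬ (x = i ∧ x = j) := fun h => hij (h.1.symm.trans h.2)
    simp only [Finset.mem_inter, Finset.mem_symmDiff, Finset.mem_union, Finset.mem_singleton]
    tauto
  have hd : Disjoint X1 (Y ∩ A) := by
    rw [Finset.disjoint_left]
    intro x hx hy
    have := Finset.mem_singleton.mp (h1 hx)
    rw [Finset.mem_inter] at hy
    rw [this] at hy
    exact hi (hA hy.2)
  rw [e, sm_union hd]

lemma TT_flip_set (M : Λ.MinSys) (T : Finset V) {S : Finset V} (h : sm S = 0) :
    TT (M.flip (fun a => if a ∈ T then 1 else 0)) S = TT M S + sm (S ∩ T) := by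
  rw [TT_flip M _ h]
  congr 1
  unfold sm
  rw [← Finset.filter_mem_eq_inter, Finset.sum_filter]
  apply Finset.sum_congr rfl
  intro a _
  by_cases h : a ∈ T
  · rw [if_pos h, if_pos h, one_smul]
  · rw [if_neg h, if_neg h, zero_smul]

/-- the two sign sets agree -/
lemma same_X {κ : Finset V → V}
    (hadd : ∀ S S' : Finset V, sm S = 0 → sm S' = 0 → κ (S ∆ S') = κ S + κ S')
    {U Y A B : Finset V} {i : V} (hi0 : i ≠ 0) (hAB : Disjoint A B) (hU : A ∪ B = U)
    (hY : Y ⊆ U) (hYU : κ U = sm Y) (sA : sm A = i) (sB : sm B = i) {X X' : Finset V}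
    (hX : X ⊆ {i}) (hX' : X' ⊆ {i}) (h1 : κ (({i} : Finset V) ∆ A) = sm X + sm (Y ∩ A))
    (h2 : κ (({i} : Finset V) ∆ B) = sm X' + sm (Y ∩ B)) : X = X' := by
  have zA : sm (({i} : Finset V) ∆ A) = 0 := by
    rw [sm_symmDiff, sA]; unfold sm; rw [Finset.sum_singleton, self_add]
  have zB : sm (({i} : Finset V) ∆ B) = 0 := by
    rw [sm_symmDiff, sB]; unfold sm; rw [Finset.sum_singleton, self_add]
  have e : (({i} : Finset V) ∆ A) ∆ (({i} : Finset V) ∆ B) = U := by
    rw [← hU, ← symmDiff_of_disj hAB, symmDiff_comm ({i} : Finset V) A, symmDiff_assoc,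
      symmDiff_symmDiff_cancel_left]
  have h3 := hadd _ _ zA zB
  rw [e, hYU, h1, h2] at h3
  have hYs : sm Y = sm (Y ∩ A) + sm (Y ∩ B) := by
    rw [← sm_union]
    · rw [← Finset.inter_union_distrib_left, hU, Finset.inter_eq_left.mpr hY]
    · exact Finset.disjoint_of_subset_left Finset.inter_subset_right
        (Finset.disjoint_of_subset_right Finset.inter_subset_right hAB)
  have h4 : sm X + sm X' = 0 := by
    have : sm X + sm X' = (sm X + sm (Y ∩ A) + (sm X' + sm (Y ∩ B))) +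
        (sm (Y ∩ A) + sm (Y ∩ B)) := by
      have : (sm X + sm (Y ∩ A) + (sm X' + sm (Y ∩ B))) + (sm (Y ∩ A) + sm (Y ∩ B)) =
        sm X + sm X' + ((sm (Y ∩ A) + sm (Y ∩ A)) + (sm (Y ∩ B) + sm (Y ∩ B))) := by abel
      rw [this, self_add, self_add, add_zero, add_zero]
    rw [this, ← h3, hYs, self_add]
  have si : sm ({i} : Finset V) = i := by unfold sm; rw [Finset.sum_singleton]
  rcases Finset.subset_singleton_iff.mp hX with h | h <;>
    rcases Finset.subset_singleton_iff.mp hX' with h' | h'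
  · rw [h, h']
  · exfalso; rw [h, h', sm_empty, si, zero_add] at h4; exact hi0 h4
  · exfalso; rw [h, h', sm_empty, si, add_zero] at h4; exact hi0 h4
  · rw [h, h']

end transfer

end Pool.Agent.Run7.h698.Von
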