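import Pool.Agent.Run7.h698.VonM

set_option autoImplicit false

open scoped symmDiff

namespace Pool.Agent.Run7.h698.Von

open Pool.Agent.K7.H30.Vo

section transfer

variable {L L' V : Type} [AddCommGroup L] [AddCommGroup L'] [AddCommGroup V] [Module (ZMod 2) V]
  [Fintype V] [DecidableEq V] {Λ : Lat L V} {Λ' : Lat L' V}

/-- transfer of a configuration to the other lattice -/
theorem transfer {M : Λ.MinSys} {M' : Λ'.MinSys} (hf : ∀ v, M'.f v = M.f v) {x1 x2 z h : L'}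
    (s1 : Sv M' x1) (s2 : Sv M' x2) (hij : Λ'.pr x1 ≠ Λ'.pr x2) (hh : h + h = x1 + x2 + z)
    (m0 : Mn M' h) (m1 : Mn M' (x1 - h)) (m2 : Mn M' (x2 - h)) (m3 : Mn M' (z - h))
    (C : Cfg M' (KK M M') x1 x2 z h) :
    ∃ w1 w2 Q0 Q1 Q2 Q3 : L, Sv M w1 ∧ Sv M w2 ∧ Mn M Q0 ∧ Mn M Q1 ∧ Mn M Q2 ∧ Mn M Q3 ∧
      Λ.pr w1 = Λ'.pr x1 ∧ Λ.pr w2 = Λ'.pr x2 ∧ Λ.pr Q0 = Λ'.pr h ∧ Λ.pr Q1 = Λ'.pr (x1 - h) ∧
      Λ.pr Q2 = Λ'.pr (x2 - h) ∧ Λ.pr Q3 = Λ'.pr (z - h) ∧ w1 = Q0 + Q1 ∧ w1 = -(Q2 + Q3) ∧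
      w2 = Q0 + Q2 ∧ w2 = -(Q1 + Q3) := by
  have hff : M'.f = M.f := funext hf
  have hadd : ∀ S S' : Finset V, sm S = 0 → sm S' = 0 →
      KK M M' (S ∆ S') = KK M M' S + KK M M' S' := fun S S' h h' => KK_symmDiff M M' h h'
  have d01 := C.dis 0 1 (by decide)
  have d02 := C.dis 0 2 (by decide)
  have d03 := C.dis 0 3 (by decide)
  have d12 := C.dis 1 2 (by decide)
  have d13 := C.dis 1 3 (by decide)
  have d23 := C.dis 2 3 (by decide)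
  have hY := C.hY
  have hYU := C.hYU
  have n1 := C.n1
  have n2 := C.n2
  obtain ⟨X1, hX1, e1⟩ := C.cn1
  obtain ⟨X1', hX1', e1'⟩ := C.cn1'
  obtain ⟨X2, hX2, e2⟩ := C.cn2
  obtain ⟨X2', hX2', e2'⟩ := C.cn2'
  set Y := C.Y with hYdef
  set U : Finset V := (C.D 0 ∪ C.D 1) ∪ (C.D 2 ∪ C.D 3) with hUdef
  have dis2 : ∀ {A B C D : Finset V}, Disjoint A C → Disjoint A D → Disjoint B C → Disjoint B D →
      Disjoint (A ∪ B) (C ∪ D) := by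
    intro A B C D h1 h2 h3 h4
    rw [Finset.disjoint_union_left, Finset.disjoint_union_right, Finset.disjoint_union_right]
    exact ⟨⟨h1, h2⟩, ⟨h3, h4⟩⟩
  have hdA : Disjoint (C.D 0 ∪ C.D 1) (C.D 2 ∪ C.D 3) := dis2 d02 d03 d12 d13
  have hdB : Disjoint (C.D 0 ∪ C.D 2) (C.D 1 ∪ C.D 3) := dis2 d01 d03 d12.symm d23
  have hUB : (C.D 0 ∪ C.D 2) ∪ (C.D 1 ∪ C.D 3) = U := by
    rw [hUdef]; ext x; simp only [Finset.mem_union]; tauto
  have prh : ∀ x : L', Λ'.pr h + Λ'.pr (x - h) = Λ'.pr x := by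
    intro x
    rw [← map_add]; congr 1; abel
  have pr2 : Λ'.pr x1 + Λ'.pr x2 + Λ'.pr z = 0 := by
    rw [← map_add, ← map_add, ← hh, map_add, self_add]
  have sA : sm (C.D 0 ∪ C.D 1) = Λ'.pr x1 := by rw [sm_union d01, C.s0, C.s1, prh]
  have sB : sm (C.D 0 ∪ C.D 2) = Λ'.pr x2 := by rw [sm_union d02, C.s0, C.s2, prh]
  have sA' : sm (C.D 2 ∪ C.D 3) = Λ'.pr x1 := by
    rw [sm_union d23, C.s2, C.s3, map_sub, map_sub, sub_eq_add', sub_eq_add']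
    have : Λ'.pr x2 + Λ'.pr h + (Λ'.pr z + Λ'.pr h) = (Λ'.pr x2 + Λ'.pr z) +
      (Λ'.pr h + Λ'.pr h) := by abel
    rw [this, self_add, add_zero]
    rw [add_assoc] at pr2
    exact (add_eq_zero_iff'.mp pr2).symm
  have sB' : sm (C.D 1 ∪ C.D 3) = Λ'.pr x2 := by
    rw [sm_union d13, C.s1, C.s3, map_sub, map_sub, sub_eq_add', sub_eq_add']
    have : Λ'.pr x1 + Λ'.pr h + (Λ'.pr z + Λ'.pr h) = (Λ'.pr x1 + Λ'.pr z) +
      (Λ'.pr h + Λ'.pr h) := by abel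
    rw [this, self_add, add_zero]
    have : Λ'.pr x1 + Λ'.pr x2 + Λ'.pr z = Λ'.pr x2 + (Λ'.pr x1 + Λ'.pr z) := by abel
    rw [this] at pr2
    exact (add_eq_zero_iff'.mp pr2).symm
  have hX1eq := same_X hadd s1.1.1 hdA rfl hY hYU sA sA' hX1 hX1' e1 e1'
  have hX2eq := same_X hadd s2.1.1 hdB hUB hY hYU sB sB' hX2 hX2' e2 e2'
  rw [← hX1eq] at e1'
  rw [← hX2eq] at e2'
  set T : Finset V := Y ∪ (X1 ∪ X2) with hT
  set N := M.flip (fun a => if a ∈ T then 1 else 0) with hN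
  have hNf : ∀ v, N.f v = M.f v := fun v => flip_f M _ v
  have hNff : N.f = M.f := funext hNf
  -- TT agree on the four triangles
  have key : ∀ (i : V) (A : Finset V), sm A = i → TT M (({i} : Finset V) ∆ A) +
      sm ((({i} : Finset V) ∆ A) ∩ T) = TT M' (({i} : Finset V) ∆ A) →
      i ∉ A → TT N (insert i A) = TT M' (insert i A) := by
    intro i A hs hk hiA
    have hins : ({i} : Finset V) ∆ A = insert i A := by
      rw [symmDiff_of_disj (Finset.disjoint_singleton_left.mpr hiA)]; rfl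
    have hz : sm (({i} : Finset V) ∆ A) = 0 := by
      rw [sm_symmDiff, hs]; unfold sm; rw [Finset.sum_singleton, self_add]
    rw [← hins, hN, TT_flip_set M T hz, hk]
  have kk : ∀ (S : Finset V) (v : V), KK M M' S = v → TT M S + v = TT M' S := by
    intro S v hv
    rw [← hv]
    unfold KK
    rw [← add_assoc, self_add, zero_add]
  have swapT : T = Y ∪ (X2 ∪ X1) := by rw [hT, Finset.union_comm X1 X2]
  have m0U : C.D 0 ∪ C.D 1 ⊆ U := Finset.subset_union_left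
  have m1U : C.D 2 ∪ C.D 3 ⊆ U := Finset.subset_union_right
  have m2U : C.D 0 ∪ C.D 2 ⊆ U := by rw [← hUB]; exact Finset.subset_union_left
  have m3U : C.D 1 ∪ C.D 3 ⊆ U := by rw [← hUB]; exact Finset.subset_union_right
  have k1 := key (Λ'.pr x1) (C.D 0 ∪ C.D 1) sA (by
    rw [hT, sm_flipset n1 n2 hij m0U hY hX1 hX2]; exact kk _ _ e1) (fun h => n1 (m0U h))
  have k1' := key (Λ'.pr x1) (C.D 2 ∪ C.D 3) sA' (by
    rw [hT, sm_flipset n1 n2 hij m1U hY hX1 hX2]; exact kk _ _ e1') (fun h => n1 (m1U h))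
  have k2 := key (Λ'.pr x2) (C.D 0 ∪ C.D 2) sB (by
    rw [swapT, sm_flipset n2 n1 hij.symm m2U hY hX2 hX1]; exact kk _ _ e2) (fun h => n2 (m2U h))
  have k2' := key (Λ'.pr x2) (C.D 1 ∪ C.D 3) sB' (by
    rw [swapT, sm_flipset n2 n1 hij.symm m3U hY hX2 hX1]; exact kk _ _ e2') (fun h => n2 (m3U h))
  -- the four vectors
  have sg : ∀ i, Sg (C.D i) (C.μ i) := fun i => ⟨C.μ1 i, C.μ0 i⟩
  have min : ∀ (i : Fin 4) (P : L'), sm (C.D i) = Λ'.pr P → ∑ a ∈ C.D i, M'.f a ≤ Λ'.q P →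
      Mn M' P → Λ.q (cmb N (C.μ i)) ≤ N.f (sm (C.D i)) := by
    intro i P hs hw hm
    apply box N _ _ (sg i)
    rw [hNff, ← hff, hs]
    exact hw.trans hm
  have q0 := min 0 h C.s0 C.w0 m0
  have q1 := min 1 _ C.s1 C.w1 m1
  have q2 := min 2 _ C.s2 C.w2 m2
  have q3 := min 3 _ C.s3 C.w3 m3
  have sgn : ∀ x : L', Sv M' x → ∃ ε : ℤ, (ε = 1 ∨ ε = -1) ∧ ε • M'.y (Λ'.pr x) = x := by
    intro x hx
    rcases hx.eq_y with h | h
    · exact ⟨1, Or.inl rfl, by rw [one_zsmul]; exact h.symm⟩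
    · exact ⟨-1, Or.inr rfl, by rw [neg_one_zsmul]; exact h.symm⟩
  obtain ⟨ε1, hε1, hx1⟩ := sgn x1 s1
  obtain ⟨ε2, hε2, hx2⟩ := sgn x2 s2
  have qneg : ∀ i : Fin 4, Λ.q (cmb N (C.μ i)) ≤ N.f (sm (C.D i)) →
      Λ.q (cmb N (-C.μ i)) ≤ N.f (sm (C.D i)) := by
    intro i hi
    rw [cmb_neg, Λ.q_neg]; exact hi
  have r1 := tri_transfer M' N hε1 d01 (fun h => n1 (m0U h)) (sg 0) (sg 1)
    (by rw [hx1, C.c0, C.c1]; abel) k1 q0 q1
  have r1' := tri_transfer M' N hε1 d23 (fun h => n1 (m1U h)) (sg 2).neg (sg 3).neg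
    (by
      rw [hx1, cmb_neg, cmb_neg, C.c2, C.c3]
      have : x1 = (x1 + x2 + z) - (x2 + z) := by abel
      nth_rw 1 [this]
      rw [← hh]; abel) k1' (qneg 2 q2) (qneg 3 q3)
  have r2 := tri_transfer M' N hε2 d02 (fun h => n2 (m2U h)) (sg 0) (sg 2)
    (by rw [hx2, C.c0, C.c2]; abel) k2 q0 q2
  have r2' := tri_transfer M' N hε2 d13 (fun h => n2 (m3U h)) (sg 1).neg (sg 3).neg
    (by
      rw [hx2, cmb_neg, cmb_neg, C.c1, C.c3]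
      have : x2 = (x1 + x2 + z) - (x1 + z) := by abel
      nth_rw 1 [this]
      rw [← hh]; abel) k2' (qneg 1 q1) (qneg 3 q3)
  have svw : ∀ (ε : ℤ) (x : L'), (ε = 1 ∨ ε = -1) → Sv M' x →
      Sv M (ε • N.y (Λ'.pr x)) ∧ Λ.pr (ε • N.y (Λ'.pr x)) = Λ'.pr x := by
    intro ε x hε hx
    have hp : Λ.pr (ε • N.y (Λ'.pr x)) = Λ'.pr x := by
      rw [map_zsmul, N.pr_y]; exact zsmul_odd hε _
    refine ⟨⟨?_, ?_⟩, hp⟩
    · rw [hp, ← hff]; exact hx.1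
    · rw [hp, ← hNff]
      rcases hε with h | h
      · rw [h, one_zsmul]; exact le_refl _
      · rw [h, neg_one_zsmul, Λ.q_neg]; exact le_refl _
  have mn : ∀ i : Fin 4, Λ.q (cmb N (C.μ i)) ≤ N.f (sm (C.D i)) → Mn M (cmb N (C.μ i)) := by
    intro i hi
    unfold Mn
    rw [(sg i).pr N, ← hNff]; exact hi
  refine ⟨_, _, cmb N (C.μ 0), cmb N (C.μ 1), cmb N (C.μ 2), cmb N (C.μ 3),
    (svw ε1 x1 hε1 s1).1, (svw ε2 x2 hε2 s2).1, mn 0 q0, mn 1 q1, mn 2 q2, mn 3 q3,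
    (svw ε1 x1 hε1 s1).2, (svw ε2 x2 hε2 s2).2, ?_, ?_, ?_, ?_, r1, ?_, r2, ?_⟩
  · rw [(sg 0).pr N, C.s0]
  · rw [(sg 1).pr N, C.s1]
  · rw [(sg 2).pr N, C.s2]
  · rw [(sg 3).pr N, C.s3]
  · rw [r1', cmb_neg, cmb_neg]; abel
  · rw [r2', cmb_neg, cmb_neg]; abel

end transfer

end Pool.Agent.Run7.h698.Von
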