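import Pool.Agent.Run7.h698.VonN

set_option autoImplicit false

open scoped symmDiff

namespace Pool.Agent.Run7.h698.Von

open Pool.Agent.K7.H30.Vo

section rel

variable {L V : Type} [AddCommGroup L] [AddCommGroup V] [Module (ZMod 2) V]
  [DecidableEq V] {Λ : Lat L V} {M : Λ.MinSys}

lemma TT_rel {g1 g2 g3 g4 : L} (s1 : Sv M g1) (s2 : Sv M g2) (s3 : Sv M g3) (s4 : Sv M g4)
    {i j k l : V} (p1 : Λ.pr g1 = i) (p2 : Λ.pr g2 = j) (p3 : Λ.pr g3 = k) (p4 : Λ.pr g4 = l)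
    (hij : i ≠ j) (hik : i ≠ k) (hil : i ≠ l) (hjk : j ≠ k) (hjl : j ≠ l) (hkl : k ≠ l)
    (h : g1 + g2 + g3 + g4 = 0) : ∃ X ⊆ ({i, j, k, l} : Finset V), TT M {i, j, k, l} = sm X := by
  have key : ∀ (x : L) (v : V), Sv M x → Λ.pr x = v → ∃ c : L, ∃ X : Finset V, X ⊆ {v} ∧
      M.y v = x + (c + c) ∧ Λ.pr c = sm X := by
    intro x v hx hv
    rcases hx.eq_y with h | h
    · refine ⟨0, ∅, Finset.empty_subset _, ?_, ?_⟩
      · rw [← hv, ← h]; abel
      · rw [map_zero, sm_empty]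
    · refine ⟨-x, {v}, Finset.Subset.refl _, ?_, ?_⟩
      · rw [← hv]
        have : x + (-x + -x) = -x := by abel
        rw [this]
        nth_rw 2 [h]
        rw [neg_neg]
      · rw [pr_neg, hv]; unfold sm; rw [Finset.sum_singleton]
  obtain ⟨c1, X1, x1, y1, z1⟩ := key g1 i s1 p1
  obtain ⟨c2, X2, x2, y2, z2⟩ := key g2 j s2 p2
  obtain ⟨c3, X3, x3, y3, z3⟩ := key g3 k s3 p3
  obtain ⟨c4, X4, x4, y4, z4⟩ := key g4 l s4 p4
  refine ⟨(X1 ∆ X2) ∆ (X3 ∆ X4), ?_, ?_⟩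
  · intro x hx
    simp only [Finset.mem_symmDiff] at hx
    simp only [Finset.mem_insert, Finset.mem_singleton]
    have k1 : x ∈ X1 → x = i := fun h => Finset.mem_singleton.mp (x1 h)
    have k2 : x ∈ X2 → x = j := fun h => Finset.mem_singleton.mp (x2 h)
    have k3 : x ∈ X3 → x = k := fun h => Finset.mem_singleton.mp (x3 h)
    have k4 : x ∈ X4 → x = l := fun h => Finset.mem_singleton.mp (x4 h)
    tauto
  · rw [sm_symmDiff, sm_symmDiff, sm_symmDiff, ← z1, ← z2, ← z3, ← z4, ← map_add, ← map_add,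
      ← map_add]
    apply TT_eq M
    rw [Finset.sum_insert, Finset.sum_insert, Finset.sum_insert, Finset.sum_singleton, y1, y2, y3,
      y4]
    · have : c1 + c2 + (c3 + c4) + (c1 + c2 + (c3 + c4)) = (c1 + c2 + (c3 + c4)) +
        (c1 + c2 + (c3 + c4)) + (g1 + g2 + g3 + g4) := by rw [h, add_zero]
      rw [this]; abel
    · simpa using hkl
    · simp only [Finset.mem_insert, Finset.mem_singleton, not_or]; exact ⟨hjk, hjl⟩
    · simp only [Finset.mem_insert, Finset.mem_singleton, not_or]; exact ⟨hij, hik, hil⟩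

end rel

section nobd

variable {L L' V : Type} [AddCommGroup L] [AddCommGroup L'] [AddCommGroup V] [Module (ZMod 2) V]
  [Fintype V] [DecidableEq V] {Λ : Lat L V} {Λ' : Lat L' V}

/-- there is no bad cycle with four elements -/
theorem no_bd {M : Λ.MinSys} {M' : Λ'.MinSys} (hf : ∀ v, M'.f v = M.f v) {w : ℝ}
    (ihw : IH M.f (KK M M') w) {i0 j0 k0 l0 : V} : ¬ Bd M.f (KK M M') w {i0, j0, k0, l0} := by
  intro hb0
  have hff : M'.f = M.f := funext hf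
  have hadd : ∀ S S' : Finset V, sm S = 0 → sm S' = 0 →
      KK M M' (S ∆ S') = KK M M' S + KK M M' S' := fun S S' h h' => KK_symmDiff M M' h h'
  obtain ⟨i1, j1, k1, l1, hb1, hne1⟩ := stepA hadd ihw hb0
  obtain ⟨g1, g2, g3, g4, sg1, sg2, sg3, sg4, grel, gpos, hb⟩ := stepB hadd ihw hb1 hne1
  have ihw' : IH M'.f (KK M M') w := by rw [hff]; exact ihw
  obtain ⟨i, pi⟩ : ∃ i, Λ.pr g1 = i := ⟨_, rfl⟩
  obtain ⟨j, pj⟩ : ∃ j, Λ.pr g2 = j := ⟨_, rfl⟩
  obtain ⟨k, pk⟩ : ∃ k, Λ.pr g3 = k := ⟨_, rfl⟩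
  obtain ⟨l, pl⟩ : ∃ l, Λ.pr g4 = l := ⟨_, rfl⟩
  rw [pi, pj, pk, pl] at hb
  have hb' : Bd M'.f (KK M M') w {i, j, k, l} := by rw [hff]; exact hb
  obtain ⟨hij, hik, hil, hjk, hjl, hkl⟩ := hb.ne
  have hkl' := hb.kl
  -- no signed relation in the second lattice
  have norel : ∀ e1 e2 e3 e4 : L', Sv M' e1 → Sv M' e2 → Sv M' e3 → Sv M' e4 → Λ'.pr e1 = i →
      Λ'.pr e2 = j → Λ'.pr e3 = k → Λ'.pr e4 = l → e1 + e2 + e3 + e4 ≠ 0 := by
    intro e1 e2 e3 e4 h1 h2 h3 h4 q1 q2 q3 q4 hrel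
    obtain ⟨X, hX, hX'⟩ := TT_rel sg1 sg2.neg sg3.neg sg4 pi (by rw [pr_neg]; exact pj)
      (by rw [pr_neg]; exact pk) pl hij hik hil hjk hjl hkl (by
        have : g1 + -g2 + -g3 + g4 = (g1 - g2) - (g3 - g4) := by abel
        rw [this, grel, sub_self])
    obtain ⟨Y, hY, hY'⟩ := TT_rel h1 h2 h3 h4 q1 q2 q3 q4 hij hik hil hjk hjl hkl hrel
    apply hb.2.2.2.2
    refine ⟨X ∆ Y, ?_, ?_⟩
    · intro x hx
      rw [Finset.mem_symmDiff] at hx
      rcases hx with hx | hx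
      · exact hX hx.1
      · exact hY hx.1
    · unfold KK
      rw [hX', hY', sm_symmDiff]
  -- signs in the second lattice
  obtain ⟨e1, e2, se1, se2, pe1, pe2, he12⟩ := star_sign hadd ihw' hb'
  obtain ⟨e3, e4, se3, se4, pe3, pe4, he34⟩ := star_sign hadd ihw' hb'.klij
  rw [hff] at he12 he34
  rw [hkl'] at he34
  have le12 : M.f (i + j) ≤ Λ'.q (e1 + e2) := by
    rw [← hff]; exact M'.f_le' (by rw [map_add, pe1, pe2])
  have le12' : M.f (i + j) ≤ Λ'.q (e1 - e2) := by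
    rw [← hff]; exact M'.f_le' (by rw [map_sub, pe1, pe2, sub_eq_add'])
  have qe12 := Λ'.q_add e1 e2
  have qe12' := Λ'.q_sub e1 e2
  have ssq := star_sq hadd ihw hb sg1 sg2 pi pj
  have ssq' := star_sq hadd ihw' hb' se1 se2 pe1 pe2
  rw [hff] at ssq'
  have bpos : 0 < Λ'.b e1 e2 := by
    have h1 : 0 ≤ Λ'.b e1 e2 := by linarith
    have h2 : Λ'.b e1 e2 ≠ 0 := by
      intro h3
      rw [← ssq, h3] at ssq'
      have : 0 < (2 * Λ.b g1 g2) ^ 2 := by positivity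
      rw [← ssq'] at this
      norm_num at this
    exact lt_of_le_of_ne h1 h2.symm
  have gt12 : M.f (i + j) < Λ'.q (e1 + e2) := by linarith
  -- the flip in the second lattice
  have pz : Λ'.pr (e3 - e4) = i + j := by rw [map_sub, pe3, pe4, sub_eq_add', hkl']
  have mz : Mn M' (e3 - e4) := by unfold Mn; rw [pz, hff]; exact he34
  have hp : Λ'.pr (e1 + e2 + (e3 - e4)) = 0 := by rw [map_add, map_add, pe1, pe2, pz, self_add]
  have hh := Λ'.half_add hp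
  set h := Lat.half (e1 + e2 + (e3 - e4)) with hhdef
  have n1 : e3 - e4 ≠ e1 + e2 := by
    intro e
    apply norel e1 e2 (-e3) e4 se1 se2 se3.neg se4 pe1 pe2 (by rw [pr_neg, pe3]) pe4
    have : e1 + e2 + -e3 + e4 = (e1 + e2) - (e3 - e4) := by abel
    rw [this, e, sub_self]
  have n2 : e3 - e4 ≠ -(e1 + e2) := by
    intro e
    apply norel e1 e2 e3 (-e4) se1 se2 se3 se4.neg pe1 pe2 pe3 (by rw [pr_neg, pe4])
    have : e1 + e2 + e3 + -e4 = (e3 - e4) + (e1 + e2) := by abel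
    rw [this, e, neg_add_cancel]
  have n3 : e3 - e4 ≠ e1 - e2 := by
    intro e
    apply norel e1 (-e2) (-e3) e4 se1 se2.neg se3.neg se4 pe1 (by rw [pr_neg, pe2])
      (by rw [pr_neg, pe3]) pe4
    have : e1 + -e2 + -e3 + e4 = (e1 - e2) - (e3 - e4) := by abel
    rw [this, e, sub_self]
  have n4 : e3 - e4 ≠ e2 - e1 := by
    intro e
    apply norel e1 (-e2) e3 (-e4) se1 se2.neg se3 se4.neg pe1 (by rw [pr_neg, pe2]) pe3
      (by rw [pr_neg, pe4])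
    have : e1 + -e2 + e3 + -e4 = (e3 - e4) - (e2 - e1) := by abel
    rw [this, e, sub_self]
  obtain ⟨svh, svz, hbY⟩ : Sv M' h ∧ Sv M' (e3 - e4 - h) ∧
      Bd M'.f (KK M M') w {Λ'.pr h, Λ'.pr (e3 - e4 - h), k, l} := by
    rcases T1 hadd ihw' hij hik hil hjk hjl hkl hb' se1 se2 pe1 pe2 mz hh n1 n2 n3 n4 with
      ⟨-, t1, t2, t3⟩ | ⟨t0, -, -, -⟩
    · exact ⟨t1, t2, t3⟩
    · exfalso; rw [hff] at t0; linarith
  -- the inner vectors
  have Ein := inner_energy (Λ := Λ') hh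
  have pin : Λ'.pr (e1 - h) + Λ'.pr (e2 - h) = i + j := by
    rw [map_sub, map_sub, pe1, pe2, sub_eq_add', sub_eq_add']
    have : i + Λ'.pr h + (j + Λ'.pr h) = i + j + (Λ'.pr h + Λ'.pr h) := by abel
    rw [this, self_add, add_zero]
  have fin := f_sub M' (Λ'.pr (e1 - h)) (Λ'.pr (e2 - h))
  rw [pin, hf (i + j)] at fin
  have fl1 := M'.f_le (e1 - h)
  have fl2 := M'.f_le (e2 - h)
  have m1 : Mn M' (e1 - h) := by unfold Mn; linarith
  have m2 : Mn M' (e2 - h) := by unfold Mn; linarith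
  have wle : Λ'.q e1 + Λ'.q e2 + Λ'.q (e3 - e4) ≤ w := by
    have h1 := hb'.wt
    have h2 := f_sub M' k l
    have h3 := se1.eq
    have h4 := se2.eq
    have h5 := mz.eq
    rw [pe1] at h3
    rw [pe2] at h4
    rw [pz, ← hkl'] at h5
    linarith
  obtain ⟨C⟩ := exists_cfg hadd ihw'.light se1 se2 mz hh n1 n2 n3 n4 wle
  obtain ⟨w1, w2, Q0, Q1, Q2, Q3, sw1, sw2, mQ0, mQ1, mQ2, mQ3, pw1, pw2, pQ0, pQ1, pQ2, pQ3,
    rel1, rel1', rel2, rel2'⟩ := transfer hf se1 se2 (by rw [pe1, pe2]; exact hij) hh svh.mn m1 m2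
      svz.mn C
  rw [pe1] at pw1
  rw [pe2] at pw2
  have sQ0 : Sv M Q0 := ⟨by rw [pQ0, ← hff]; exact svh.1, mQ0⟩
  have sQ3 : Sv M Q3 := ⟨by rw [pQ3, ← hff]; exact svz.1, mQ3⟩
  have qQ1 : Λ.q Q1 = Λ'.q (e1 - h) := by rw [mQ1.eq, m1.eq, pQ1, hff]
  have qQ2 : Λ.q Q2 = Λ'.q (e2 - h) := by rw [mQ2.eq, m2.eq, pQ2, hff]
  have prQ : Λ.pr Q1 + Λ.pr Q2 = i + j := by rw [pQ1, pQ2, pin]
  have a1 : M.f (i + j) ≤ Λ.q (Q1 + Q2) := M.f_le' (by rw [map_add, prQ])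
  have a2 : M.f (i + j) ≤ Λ.q (Q1 - Q2) := M.f_le' (by rw [map_sub, sub_eq_add', prQ])
  have a3 := Λ.q_add Q1 Q2
  have a4 := Λ.q_sub Q1 Q2
  have qsum : Λ.q Q1 + Λ.q Q2 ≤ M.f (i + j) := by rw [qQ1, qQ2]; linarith
  have hw12 : w1 - w2 = Q1 - Q2 := by rw [rel1, rel2]; abel
  have qw12 : Λ.q (w1 - w2) ≤ M.f (i + j) := by rw [hw12]; linarith
  have gle : M.f (i + j) ≤ Λ.q (g1 - g2) := M.f_le' (by rw [map_sub, pi, pj, sub_eq_add'])
  have ga := Λ.q_add g1 g2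
  have gs := Λ.q_sub g1 g2
  have ggt : M.f (i + j) < Λ.q (g1 + g2) := by linarith
  -- the other pair
  obtain ⟨u3, u4, su3, su4, pu3, pu4, urel, wpos⟩ : ∃ u3 u4 : L, Sv M u3 ∧ Sv M u4 ∧
      Λ.pr u3 = k ∧ Λ.pr u4 = l ∧ w1 - w2 = u3 - u4 ∧ 0 < Λ.b w1 w2 := by
    rcases sg1.uniq (by rw [pw1, pi]) sw1.mn with c1 | c1 <;>
      rcases sg2.uniq (by rw [pw2, pj]) sw2.mn with c2 | c2
    · exact ⟨g3, g4, sg3, sg4, pk, pl, by rw [c1, c2, grel], by rw [c1, c2]; exact gpos⟩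
    · exfalso
      have : w1 - w2 = g1 + g2 := by rw [c1, c2]; abel
      rw [this] at qw12; linarith
    · exfalso
      have : w1 - w2 = -(g1 + g2) := by rw [c1, c2]; abel
      rw [this, Λ.q_neg] at qw12; linarith
    · refine ⟨-g3, -g4, sg3.neg, sg4.neg, by rw [pr_neg, pk], by rw [pr_neg, pl], ?_, ?_⟩
      · have h1 : w1 - w2 = -(g1 - g2) := by rw [c1, c2]; abel
        rw [h1, grel]; abel
      · rw [c1, c2, Λ.neg_left, Λ.neg_right, neg_neg]; exact gpos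
  have urel' : u3 - u4 = Q1 - Q2 := by rw [← urel, hw12]
  -- the product identity
  have lin : ∀ x : L, Λ.b w1 x = Λ.b Q0 x + Λ.b Q1 x ∧ Λ.b w2 x = Λ.b Q0 x + Λ.b Q2 x ∧
      Λ.b Q3 x = -(Λ.b Q0 x + Λ.b Q1 x + Λ.b Q2 x) := by
    intro x
    refine ⟨by rw [rel1, Λ.add_left], by rw [rel2, Λ.add_left], ?_⟩
    have h1 : Q3 = -(Q0 + Q1 + Q2) := by
      have h2 : Q0 + Q1 = -(Q2 + Q3) := by rw [← rel1, ← rel1']
      have h3 : Q3 = -(Q2 + (-(Q2 + Q3))) := by abel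
      rw [h3, ← h2]; abel
    rw [h1, Λ.neg_left, Λ.add_left, Λ.add_left]
  have lin' : ∀ x : L', Λ'.b e1 x = Λ'.b h x + Λ'.b (e1 - h) x ∧
      Λ'.b e2 x = Λ'.b h x + Λ'.b (e2 - h) x ∧
      Λ'.b (e3 - e4 - h) x = -(Λ'.b h x + Λ'.b (e1 - h) x + Λ'.b (e2 - h) x) := by
    intro x
    refine ⟨by rw [← Λ'.add_left]; congr 1; abel, by rw [← Λ'.add_left]; congr 1; abel, ?_⟩
    rw [← Λ'.add_left, ← Λ'.add_left, ← Λ'.neg_left]
    congr 1
    have : e3 - e4 - h = (e1 + e2 + (e3 - e4)) - (e1 + e2 + h) := by abel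
    rw [this, ← hh]; abel
  obtain ⟨l1, l2, l3⟩ := lin u3
  obtain ⟨l1', l2', l3'⟩ := lin' e3
  have S1 : Λ.b w1 u3 ^ 2 = Λ'.b e1 e3 ^ 2 := by
    have h1 := star_sq hadd ihw hb.ikjl sw1 su3 pw1 pu3
    have h2 := star_sq hadd ihw' hb'.ikjl se1 se3 pe1 pe3
    rw [hff, ← h1] at h2
    linarith
  have S2 : Λ.b w2 u3 ^ 2 = Λ'.b e2 e3 ^ 2 := by
    have h1 := star_sq hadd ihw hb.jkil sw2 su3 pw2 pu3
    have h2 := star_sq hadd ihw' hb'.jkil se2 se3 pe2 pe3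
    rw [hff, ← h1] at h2
    linarith
  have hbYM : Bd M.f (KK M M') w {Λ'.pr h, Λ'.pr (e3 - e4 - h), k, l} := by
    rw [← hff]; exact hbY
  have S3 : Λ.b Q0 u3 ^ 2 = Λ'.b h e3 ^ 2 := by
    have h1 := star_sq hadd ihw hbYM.ikjl sQ0 su3 pQ0 pu3
    have h2 := star_sq hadd ihw' hbY.ikjl svh se3 rfl pe3
    rw [hff, ← h1] at h2
    linarith
  have S4 : Λ.b Q3 u3 ^ 2 = Λ'.b (e3 - e4 - h) e3 ^ 2 := by
    have h1 := star_sq hadd ihw hbYM.jkil sQ3 su3 pQ3 pu3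
    have h2 := star_sq hadd ihw' hbY.jkil svz se3 rfl pe3
    rw [hff, ← h1] at h2
    linarith
  rw [l1, l1'] at S1
  rw [l2, l2'] at S2
  rw [l3, l3'] at S4
  have prod : Λ.b Q1 u3 * Λ.b Q2 u3 = Λ'.b (e1 - h) e3 * Λ'.b (e2 - h) e3 := by
    nlinarith [S1, S2, S3, S4]
  -- the second pair is not orthogonal
  have le34 : M.f (i + j) ≤ Λ.q (u3 + u4) := M.f_le' (by rw [map_add, pu3, pu4, hkl'])
  have le34' : M.f (i + j) ≤ Λ.q (u3 - u4) := M.f_le' (by rw [map_sub, pu3, pu4, sub_eq_add', hkl'])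
  have qu34 : Λ.q (u3 - u4) ≤ M.f (i + j) := by rw [← urel]; exact qw12
  have u3a := Λ.q_add u3 u4
  have u3s := Λ.q_sub u3 u4
  have wa := Λ.q_add w1 w2
  have ws := Λ.q_sub w1 w2
  have lew : M.f (i + j) ≤ Λ.q (w1 - w2) := by rw [urel]; exact le34'
  have wgt : M.f (i + j) < Λ.q (w1 + w2) := by linarith
  have ugt : M.f (i + j) < Λ.q (u3 + u4) := by
    by_contra hle
    have hle' := not_lt.mp hle
    have mz2 : Mn M (u3 + u4) := by unfold Mn; rw [map_add, pu3, pu4, hkl']; exact hle'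
    have hh2 : (w2 + u3) + (w2 + u3) = w1 + w2 + (u3 + u4) := by
      have h1 : w1 + w2 + (u3 + u4) = (w2 + u3) + (w2 + u3) + ((w1 - w2) - (u3 - u4)) := by abel
      rw [h1, urel, sub_self, add_zero]
    rcases T1 hadd ihw hij hik hil hjk hjl hkl hb sw1 sw2 pw1 pw2 mz2 hh2
      (by intro e; rw [e] at hle'; linarith)
      (by intro e; rw [e, Λ.q_neg] at hle'; linarith)
      (by
        intro e
        rw [urel] at e
        apply su4.ne
        apply Λ.double_eq_zero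
        have : u4 + u4 = (u3 + u4) - (u3 - u4) := by abel
        rw [this, e, sub_self])
      (by
        intro e
        have h1 : w2 - w1 = -(w1 - w2) := by abel
        rw [h1, urel] at e
        apply su3.ne
        apply Λ.double_eq_zero
        have : u3 + u3 = (u3 + u4) + (u3 - u4) := by abel
        rw [this, e, neg_add_cancel]) with ⟨-, t1, -, -⟩ | ⟨t0, -, -, -⟩
    · have h1 := t1.1
      rw [map_add, pw2, pu3] at h1
      exact hb.jkil.nonstrict hadd ihw h1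
    · linarith
  -- nonvanishing of the inner vectors
  have Q1ne : Q1 ≠ 0 := by
    intro h0
    rw [h0, Λ.q_zero] at qQ1
    have h1 : e1 - h = 0 := Λ'.eq_zero_of_q (by rw [← qQ1])
    apply n3
    have h2 : e3 - e4 = (e1 + e2 + (e3 - e4)) - (e1 + e2) := by abel
    rw [h2, ← hh, ← sub_eq_zero.mp h1]; abel
  have Q2ne : Q2 ≠ 0 := by
    intro h0
    rw [h0, Λ.q_zero] at qQ2
    have h1 : e2 - h = 0 := Λ'.eq_zero_of_q (by rw [← qQ2])
    apply n4
    have h2 : e3 - e4 = (e1 + e2 + (e3 - e4)) - (e1 + e2) := by abel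
    rw [h2, ← hh, ← sub_eq_zero.mp h1]; abel
  -- the flip of the second pair, first lattice
  have qz3 : Λ.q (-(Q1 + Q2)) ≤ M.f (i + j) := by rw [Λ.q_neg]; linarith
  have mz3 : Mn M (-(Q1 + Q2)) := by
    unfold Mn; rw [pr_neg, map_add, prQ]; exact qz3
  have hh3 : (u3 - Q1) + (u3 - Q1) = u3 + u4 + -(Q1 + Q2) := by
    have : u3 + u4 + -(Q1 + Q2) = (u3 - Q1) + (u3 - Q1) - ((u3 - u4) - (Q1 - Q2)) := by abel
    rw [this, urel', sub_self, sub_zero]
  obtain ⟨v1, v2⟩ : Sv M (u3 - Q1) ∧ Sv M (-(Q1 + Q2) - (u3 - Q1)) := by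
    rcases T1 hadd ihw hkl hik.symm hjk.symm hil.symm hjl.symm hij hb.klij su3 su4 pu3 pu4 mz3 hh3
      (by intro e; rw [e] at qz3; linarith)
      (by intro e; rw [e, Λ.q_neg] at qz3; linarith)
      (by
        intro e
        rw [urel'] at e
        apply Q1ne
        apply Λ.double_eq_zero
        have : Q1 + Q1 = (Q1 - Q2) - (-(Q1 + Q2)) := by abel
        rw [this, e, sub_self])
      (by
        intro e
        have h1 : u4 - u3 = -(u3 - u4) := by abel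
        rw [h1, urel'] at e
        apply Q2ne
        apply Λ.double_eq_zero
        have : Q2 + Q2 = -(Q1 - Q2) - (-(Q1 + Q2)) := by abel
        rw [this, e, sub_self]) with ⟨-, t1, t2, -⟩ | ⟨t0, -, -, -⟩
    · exact ⟨t1, t2⟩
    · exfalso; rw [hkl'] at t0; linarith
  -- the flip of the second pair, second lattice
  have le34e : M.f (i + j) ≤ Λ'.q (e3 - e4) := by
    rw [← hff]; exact M'.f_le' pz
  have e34a := Λ'.q_add e3 e4
  have e34s := Λ'.q_sub e3 e4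
  have le34ea : M.f (i + j) ≤ Λ'.q (e3 + e4) := by
    rw [← hff]; exact M'.f_le' (by rw [map_add, pe3, pe4, hkl'])
  have egt : M.f (i + j) < Λ'.q (e3 + e4) := by
    have h1 := star_sq hadd ihw hb.klij su3 su4 pu3 pu4
    have h2 := star_sq hadd ihw' hb'.klij se3 se4 pe3 pe4
    rw [hff, ← h1] at h2
    by_contra hle
    have hle' := not_lt.mp hle
    have h3 : Λ'.b e3 e4 = 0 := by linarith
    rw [h3] at h2
    have h4 : 0 < Λ.b u3 u4 := by linarith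
    have h5 : 0 < (2 * Λ.b u3 u4) ^ 2 := by positivity
    rw [← h2] at h5
    norm_num at h5
  have mz4 : Mn M' (e1 - e2) := by
    have pp : Λ'.pr (e1 - e2) = i + j := by rw [map_sub, pe1, pe2, sub_eq_add']
    unfold Mn; rw [pp, hff]; exact he12
  have hh4 : (e3 + (e1 - h)) + (e3 + (e1 - h)) = e3 + e4 + (e1 - e2) := by
    have : (e3 + (e1 - h)) + (e3 + (e1 - h)) = e3 + e3 + e1 + e1 - (h + h) := by abel
    rw [this, hh]; abel
  obtain ⟨v3, v4⟩ : Sv M' (e3 + (e1 - h)) ∧ Sv M' (e1 - e2 - (e3 + (e1 - h))) := by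
    rcases T1 hadd ihw' hkl hik.symm hjk.symm hil.symm hjl.symm hij hb'.klij se3 se4 pe3 pe4 mz4 hh4
      (by
        intro e
        apply norel e1 (-e2) (-e3) (-e4) se1 se2.neg se3.neg se4.neg pe1 (by rw [pr_neg, pe2])
          (by rw [pr_neg, pe3]) (by rw [pr_neg, pe4])
        have : e1 + -e2 + -e3 + -e4 = (e1 - e2) - (e3 + e4) := by abel
        rw [this, e, sub_self])
      (by
        intro e
        apply norel e1 (-e2) e3 e4 se1 se2.neg se3 se4 pe1 (by rw [pr_neg, pe2]) pe3 pe4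
        have : e1 + -e2 + e3 + e4 = (e1 - e2) + (e3 + e4) := by abel
        rw [this, e, neg_add_cancel])
      (fun e => n3 e.symm)
      (by
        intro e
        apply n4
        have h1 : e3 - e4 = -(e4 - e3) := by abel
        rw [h1, ← e]; abel) with ⟨-, t1, t2, -⟩ | ⟨t0, -, -, -⟩
    · exact ⟨t1, t2⟩
    · exfalso; rw [hff, hkl'] at t0; linarith
  -- comparison
  have c1 : -(Q1 + Q2) - (u3 - Q1) = -(Q2 + u3) := by abel
  have c2 : e1 - e2 - (e3 + (e1 - h)) = -((e2 - h) + e3) := by abel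
  rw [c1] at v2
  rw [c2] at v4
  have v2' := v2.neg
  have v4' := v4.neg
  rw [neg_neg] at v2' v4'
  have qk : Λ.q u3 = Λ'.q e3 := by rw [su3.eq, se3.eq, pu3, pe3, hff]
  have cmp1 : Λ.q (u3 - Q1) = Λ'.q (e3 + (e1 - h)) := by
    rw [v1.eq, v3.eq, map_sub, map_add, pu3, pe3, pQ1, sub_eq_add', hff]
  have cmp2 : Λ.q (Q2 + u3) = Λ'.q ((e2 - h) + e3) := by
    rw [v2'.eq, v4'.eq, map_add, map_add, pu3, pe3, pQ2, hff]
  rw [Λ.q_sub, Λ'.q_add, qk, qQ1, Λ.symm u3 Q1, Λ'.symm e3] at cmp1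
  rw [Λ.q_add, Λ'.q_add, qk, qQ2] at cmp2
  have pos1 : 0 < Λ.b Q1 u3 := by
    by_contra hle
    have hle' := not_lt.mp hle
    have h1 : Λ.q (u3 + Q1) ≤ Λ.q (u3 - Q1) := by
      rw [Λ.q_add, Λ.q_sub, Λ.symm u3 Q1]; linarith
    have h2 : Λ.pr (u3 + Q1) = Λ.pr (u3 - Q1) := by rw [map_add, map_sub, sub_eq_add']
    rcases v1.uniq h2 (by unfold Mn; rw [h2]; exact h1.trans v1.2) with h3 | h3
    · apply Q1ne
      apply Λ.double_eq_zero
      have : Q1 + Q1 = (u3 + Q1) - (u3 - Q1) := by abel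
      rw [this, h3, sub_self]
    · apply su3.ne
      apply Λ.double_eq_zero
      have : u3 + u3 = (u3 + Q1) + (u3 - Q1) := by abel
      rw [this, h3, neg_add_cancel]
  have neg2 : Λ.b Q2 u3 < 0 := by
    by_contra hle
    have hle' := not_lt.mp hle
    have h1 : Λ.q (Q2 - u3) ≤ Λ.q (Q2 + u3) := by
      rw [Λ.q_add, Λ.q_sub]; linarith
    have h2 : Λ.pr (Q2 - u3) = Λ.pr (Q2 + u3) := by rw [map_add, map_sub, sub_eq_add']
    rcases v2'.uniq h2 (by unfold Mn; rw [h2]; exact h1.trans v2'.2) with h3 | h3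
    · apply su3.ne
      apply Λ.double_eq_zero
      have : u3 + u3 = (Q2 + u3) - (Q2 - u3) := by abel
      rw [this, h3, sub_self]
    · apply Q2ne
      apply Λ.double_eq_zero
      have : Q2 + Q2 = (Q2 - u3) + (Q2 + u3) := by abel
      rw [this, h3, neg_add_cancel]
  have f1 : Λ'.b (e1 - h) e3 = - Λ.b Q1 u3 := by linarith
  have f2 : Λ'.b (e2 - h) e3 = Λ.b Q2 u3 := by linarith
  rw [f1, f2] at prod
  nlinarith [mul_neg_of_pos_of_neg pos1 neg2]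

end nobd

end Pool.Agent.Run7.h698.Von
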