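import Pool.Agent.Run7.h698.VonO
import Pool.Agent.Run7.h698.VonH

set_option autoImplicit false

open scoped symmDiff

namespace Pool.Agent.Run7.h698.Von

open Pool.Agent.K7.H30.Vo

section main5

variable {L L' V : Type} [AddCommGroup L] [AddCommGroup L'] [AddCommGroup V] [Module (ZMod 2) V]
  [Fintype V] [DecidableEq V] {Λ : Lat L V} {Λ' : Lat L' V} (M : Λ.MinSys) (M' : Λ'.MinSys)

/-- every circuit of at least five strict classes has a chord -/
def Chordal5 (f : V → ℝ) : Prop :=
  ∀ r : Finset V, 5 ≤ r.card → (∀ a ∈ r, St f a) → Circ r →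
    ∃ A ⊆ r, 2 ≤ A.card ∧ A.card + 2 ≤ r.card ∧ St f (sm A)

theorem all_good_of_chordal5 (hf : ∀ v, M.f v = M'.f v) (hch : Chordal5 M.f) :
    ∀ S : Finset V, (∀ a ∈ S, St M.f a) → sm S = 0 → ∃ X ⊆ S, KK M M' S = sm X := by
  have hff : M'.f = M.f := funext (fun v => (hf v).symm)
  have hadd : ∀ S S' : Finset V, sm S = 0 → sm S' = 0 →
      KK M M' (S ∆ S') = KK M M' S + KK M M' S' := fun S S' h h' => KK_symmDiff M M' h h'
  set R : Finset V → Finset V → Prop := fun p p' => ∑ a ∈ p, M.f a < ∑ a ∈ p', M.f a ∨
    (∑ a ∈ p, M.f a = ∑ a ∈ p', M.f a ∧ p'.card < p.card) with hR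
  have wf : WellFounded R := by
    have i1 : IsTrans (Finset V) R := by
      refine ⟨fun a b c h1 h2 => ?_⟩
      simp only [hR] at h1 h2 ⊢
      rcases h1 with h1 | h1 <;> rcases h2 with h2 | h2
      · left; exact lt_trans h1 h2
      · left; rw [← h2.1]; exact h1
      · left; rw [h1.1]; exact h2
      · right; exact ⟨h1.1.trans h2.1, lt_trans h2.2 h1.2⟩
    have i2 : Std.Irrefl R := by
      refine ⟨fun a h => ?_⟩
      simp only [hR] at h
      rcases h with h | h
      · exact lt_irrefl _ h
      · exact lt_irrefl _ h.2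
    exact Finite.wellFounded_of_trans_of_irrefl _
  intro S
  induction S using wf.induction with
  | _ S ih0 =>
    intro hS h0
    have ih : ∀ T : Finset V, ∑ a ∈ T, M.f a < ∑ a ∈ S, M.f a → (∀ a ∈ T, St M.f a) → sm T = 0 →
        ∃ X ⊆ T, KK M M' T = sm X := fun T h1 h2 h3 => ih0 T (Or.inl h1) h2 h3
    by_cases hne : S = ∅
    · refine ⟨∅, Finset.empty_subset _, ?_⟩
      rw [hne, KK_empty, sm_empty]
    by_cases hcirc : Circ S
    swap
    · -- a proper zero-sum subset
      unfold Circ at hcirc
      push Not at hcirc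
      obtain ⟨X, hX, hX0, hXne, hXS⟩ := hcirc (Finset.nonempty_iff_ne_empty.mpr hne) h0
      have hsd : (S \ X).Nonempty := by
        rw [Finset.sdiff_nonempty]
        intro h
        exact hXS (Finset.Subset.antisymm hX h)
      have hpos : ∀ Y ⊆ S, Y.Nonempty → 0 < ∑ a ∈ Y, M.f a := by
        intro Y hY hYne
        apply Finset.sum_pos (fun a ha => M.f_pos (hS a (hY ha)).1) hYne
      have hsum : ∑ a ∈ S \ X, M.f a + ∑ a ∈ X, M.f a = ∑ a ∈ S, M.f a := Finset.sum_sdiff hX
      have p1 := hpos _ Finset.sdiff_subset hsd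
      have p2 := hpos _ hX hXne
      have hz : sm (S \ X) = 0 := by rw [sm_sdiff hX, h0, hX0, add_zero]
      obtain ⟨X1, hX1, hX1'⟩ := ih X (by linarith) (fun a ha => hS a (hX ha)) hX0
      obtain ⟨X2, hX2, hX2'⟩ := ih (S \ X) (by linarith)
        (fun a ha => hS a (Finset.sdiff_subset ha)) hz
      have hd : Disjoint X (S \ X) := Finset.disjoint_sdiff
      have hset : X ∆ (S \ X) = S := by
        rw [Disjoint.symmDiff_eq_sup hd]
        exact Finset.union_sdiff_of_subset hX
      refine ⟨X1 ∪ X2, Finset.union_subset (hX1.trans hX) (hX2.trans Finset.sdiff_subset), ?_⟩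
      rw [← hset, hadd _ _ hX0 hz, hX1', hX2', sm_union]
      exact Finset.disjoint_of_subset_left hX1 (Finset.disjoint_of_subset_right hX2 hd)
    -- circuits
    have hcard0 : S.card ≠ 0 := fun h => hne (Finset.card_eq_zero.mp h)
    by_cases hc1 : S.card = 1
    · obtain ⟨a, ha⟩ := Finset.card_eq_one.mp hc1
      exfalso
      apply (hS a (by rw [ha]; exact Finset.mem_singleton_self _)).1
      rw [ha] at h0
      unfold sm at h0
      rwa [Finset.sum_singleton] at h0
    by_cases hc2 : S.card = 2
    · obtain ⟨a, b, hab, he⟩ := Finset.card_eq_two.mp hc2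
      exfalso
      apply hab
      rw [he] at h0
      unfold sm at h0
      rw [Finset.sum_pair hab] at h0
      exact add_eq_zero_iff'.mp h0
    by_cases hc3 : S.card = 3
    · obtain ⟨a, b, c, hab, hac, hbc, he⟩ := Finset.card_eq_three.mp hc3
      have hsumf : ∀ g : V → ℝ, ∑ x ∈ S, g x = g a + g b + g c := by
        intro g
        rw [he, Finset.sum_insert, Finset.sum_pair hbc, add_assoc]
        simp only [Finset.mem_insert, Finset.mem_singleton, not_or]
        exact ⟨hab, hac⟩
      have habc : a + b + c = 0 := by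
        rw [he] at h0
        unfold sm at h0
        rw [Finset.sum_insert, Finset.sum_pair hbc, ← add_assoc] at h0
        · exact h0
        · simp only [Finset.mem_insert, Finset.mem_singleton, not_or]
          exact ⟨hab, hac⟩
      have sta : St M.f a := hS a (by rw [he]; simp)
      have stb : St M.f b := hS b (by rw [he]; simp)
      have stc : St M.f c := hS c (by rw [he]; simp)
      have ih' : ∀ T : Finset V, (∀ x ∈ T, St M.f x) → sm T = 0 →
          ∑ x ∈ T, M.f x < M.f a + M.f b + M.f c → ∃ X ⊆ T, KK M M' T = sm X := by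
        intro T h1 h2 h3
        exact ih T (by rw [hsumf M.f]; exact h3) h1 h2
      -- half sums
      have hM := half_sum M h0
      have hM' := half_sum M' h0
      have tM : TT M S = Λ.pr (Lat.half (∑ a ∈ S, M.y a)) := rfl
      have tM' : TT M' S = Λ'.pr (Lat.half (∑ a ∈ S, M'.y a)) := rfl
      set hh := Lat.half (∑ a ∈ S, M.y a) with hhdef
      set hh' := Lat.half (∑ a ∈ S, M'.y a) with hhdef'
      have sumy : ∑ x ∈ S, M.y x = M.y a + M.y b + M.y c := by
        rw [he, Finset.sum_insert, Finset.sum_pair hbc, add_assoc]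
        simp only [Finset.mem_insert, Finset.mem_singleton, not_or]
        exact ⟨hab, hac⟩
      have sumy' : ∑ x ∈ S, M'.y x = M'.y a + M'.y b + M'.y c := by
        rw [he, Finset.sum_insert, Finset.sum_pair hbc, add_assoc]
        simp only [Finset.mem_insert, Finset.mem_singleton, not_or]
        exact ⟨hab, hac⟩
      by_cases hin : Λ.pr hh = 0 ∨ Λ.pr hh = a ∨ Λ.pr hh = b ∨ Λ.pr hh = c
      swap
      · push Not at hin
        obtain ⟨k0, k1, k2, k3⟩ := hin
        rw [he]
        exact K3 M sta stb stc habc hab (by rw [hM, sumy]) k0 k1 k2 k3 hadd ih'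
      by_cases hin' : Λ'.pr hh' = 0 ∨ Λ'.pr hh' = a ∨ Λ'.pr hh' = b ∨ Λ'.pr hh' = c
      swap
      · push Not at hin'
        obtain ⟨k0, k1, k2, k3⟩ := hin'
        rw [he]
        exact K3 M' (by rw [hff]; exact sta) (by rw [hff]; exact stb) (by rw [hff]; exact stc)
          habc hab (by rw [hM', sumy']) k0 k1 k2 k3 hadd (by rw [hff]; exact ih')
      have single : ∀ v : V, (v = 0 ∨ v = a ∨ v = b ∨ v = c) → ∃ X ⊆ S, v = sm X := by
        intro v hv
        have sing : ∀ x ∈ S, ∃ X ⊆ S, x = sm X := by
          intro x hx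
          refine ⟨{x}, Finset.singleton_subset_iff.mpr hx, ?_⟩
          unfold sm; rw [Finset.sum_singleton]
        rcases hv with h | h | h | h
        · exact ⟨∅, Finset.empty_subset _, by rw [h, sm_empty]⟩
        · rw [h]; exact sing a (by rw [he]; simp)
        · rw [h]; exact sing b (by rw [he]; simp)
        · rw [h]; exact sing c (by rw [he]; simp)
      obtain ⟨X, hX, hX'⟩ := single _ hin
      obtain ⟨Y, hY, hY'⟩ := single _ hin'
      refine ⟨X ∆ Y, ?_, ?_⟩
      · intro x hx
        rw [Finset.mem_symmDiff] at hx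
        rcases hx with hx | hx
        · exact hX hx.1
        · exact hY hx.1
      · unfold KK
        rw [tM, tM', hX', hY', sm_symmDiff]
    by_cases hc4 : S.card = 4
    · by_contra hng
      obtain ⟨i, S1, hi, he1, hc⟩ := Finset.card_eq_succ.mp hc4
      obtain ⟨j, k, l, -, -, -, he2⟩ := Finset.card_eq_three.mp hc
      rw [he2] at he1
      have hbd : Bd M.f (KK M M') (∑ a ∈ S, M.f a) S := ⟨hS, h0, rfl, hc4, hng⟩
      have hbd' : Bd M.f (KK M M') (∑ a ∈ S, M.f a) {i, j, k, l} := by
        rw [he1]; exact hbd
      apply no_bd (fun v => (hf v).symm) _ hbd'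
      intro Z h1 h2 h3
      apply ih0 Z _ h1 h2
      rw [← hc4] at h3
      exact h3
    -- at least five elements: use the chord
    obtain ⟨A, hA, hA2, hA2', hAst⟩ := hch S (by omega) hS hcirc
    set B := S \ A with hB
    have hBcard : 2 ≤ B.card := by
      rw [hB, Finset.card_sdiff_of_subset hA]; omega
    have hsB : sm B = sm A := by rw [hB, sm_sdiff hA, h0, zero_add]
    have hdAB : Disjoint A B := Finset.disjoint_sdiff
    have hUn : A ∪ B = S := Finset.union_sdiff_of_subset hA
    have heS : sm A ∉ S := by
      intro heS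
      rcases Finset.mem_union.mp (hUn.symm ▸ heS) with h | h
      · have h1 : sm A + sm (A.erase (sm A)) = sm A := by
          conv_rhs => unfold sm
          exact Finset.add_sum_erase A (fun a => a) h
        have h2 : sm (A.erase (sm A)) = 0 := add_eq_left.mp h1
        rcases hcirc.2.2 _ ((Finset.erase_subset _ _).trans hA) h2 with h3 | h3
        · have h4 : (A.erase (sm A)).card = A.card - 1 := Finset.card_erase_of_mem h
          rw [h3, Finset.card_empty] at h4
          omega
        · have h4 : (A.erase (sm A)).card = A.card - 1 := Finset.card_erase_of_mem h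
          rw [h3] at h4
          omega
      · have h1 : sm B + sm (B.erase (sm B)) = sm B := by
          conv_rhs => unfold sm
          exact Finset.add_sum_erase B (fun a => a) (by rw [hsB]; exact h)
        have h2 : sm (B.erase (sm B)) = 0 := add_eq_left.mp h1
        have h5 : sm B ∈ B := by rw [hsB]; exact h
        have hBS : B ⊆ S := Finset.sdiff_subset
        have hBc : B.card + A.card = S.card := by
          rw [hB]; exact Finset.card_sdiff_add_card_eq_card hA
        rcases hcirc.2.2 _ ((Finset.erase_subset _ _).trans hBS) h2 with h3 | h3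
        · have h4 : (B.erase (sm B)).card = B.card - 1 := Finset.card_erase_of_mem h5
          rw [h3, Finset.card_empty] at h4
          omega
        · have h4 : (B.erase (sm B)).card = B.card - 1 := Finset.card_erase_of_mem h5
          rw [h3] at h4
          omega
    have heA : sm A ∉ A := fun h => heS (hA h)
    have heB : sm A ∉ B := fun h => heS (Finset.sdiff_subset h)
    have hBS : B ⊆ S := Finset.sdiff_subset
    have l1 := chord_lt M hA2 hAst (fun a ha => hS a (hA ha)) heA
    have l2 := chord_lt M (A := B) hBcard (by rw [hsB]; exact hAst)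
      (fun a ha => hS a (hBS ha)) (by rw [hsB]; exact heB)
    rw [hsB] at l2
    have hsum : ∑ a ∈ A, M.f a + ∑ a ∈ B, M.f a = ∑ a ∈ S, M.f a := by
      rw [← Finset.sum_union hdAB, hUn]
    have gA : ∃ X ⊆ insert (sm A) A, KK M M' (insert (sm A) A) = sm X := by
      apply ih
      · rw [Finset.sum_insert heA]; linarith
      · intro a ha
        rcases Finset.mem_insert.mp ha with h | h
        · rw [h]; exact hAst
        · exact hS a (hA h)
      · rw [sm_insert heA, self_add]
    have gB : ∃ X ⊆ insert (sm A) B, KK M M' (insert (sm A) B) = sm X := by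
      apply ih
      · rw [Finset.sum_insert heB]; linarith
      · intro a ha
        rcases Finset.mem_insert.mp ha with h | h
        · rw [h]; exact hAst
        · exact hS a (hBS h)
      · rw [sm_insert heB, hsB, self_add]
    have zA : sm (insert (sm A) A) = 0 := by rw [sm_insert heA, self_add]
    have zB : sm (insert (sm A) B) = 0 := by rw [sm_insert heB, hsB, self_add]
    have hsd : (insert (sm A) A) ∆ (insert (sm A) B) = A ∪ B := by
      ext y
      rw [Finset.mem_symmDiff, Finset.mem_insert, Finset.mem_insert, Finset.mem_union]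
      constructor
      · rintro (⟨h4 | h4, h5⟩ | ⟨h4 | h4, h5⟩)
        · exact absurd (Or.inl h4) h5
        · exact Or.inl h4
        · exact absurd (Or.inl h4) h5
        · exact Or.inr h4
      · rintro (h4 | h4)
        · left
          refine ⟨Or.inr h4, ?_⟩
          rintro (h5 | h5)
          · rw [h5] at h4; exact heA h4
          · exact Finset.disjoint_left.mp hdAB h4 h5
        · right
          refine ⟨Or.inr h4, ?_⟩
          rintro (h5 | h5)
          · rw [h5] at h4; exact heB h4
          · exact Finset.disjoint_left.mp hdAB h5 h4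
    obtain ⟨Y, hY, hY', -⟩ := side (κ := KK M M') heA heB hdAB hsB gA gB (by
      rw [← hadd _ _ zA zB, hsd])
    rw [hUn] at hY hY'
    exact ⟨Y, hY, hY'⟩

/-- lattices whose circuits of at least five strict classes have chords are determined by their
vonorms -/
theorem isometry_of_chordal5 (hf : ∀ v, M.f v = M'.f v) (hch : Chordal5 M.f) :
    ∃ e : L ≃+ L', ∀ z, Λ'.q (e z) = Λ.q z :=
  isometry_of_good M M' hf (all_good_of_chordal5 M M' hf hch)

end main5

end Pool.Agent.Run7.h698.Von
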