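import Pool.Agent.Run7.h698.VonP

set_option autoImplicit false

open scoped symmDiff

namespace Pool.Agent.Run7.h698.Von

open Pool.Agent.K7.H30.Vo

/-- the average of `f` over the coset of `τ` modulo the span of `S` is at most a quarter of the
weight of `S` -/
def Elig {V : Type} [AddCommGroup V] [DecidableEq V] (f : V → ℝ) (S : Finset V) (τ : V) : Prop :=
  4 * ∑ X ∈ S.powerset, f (τ + sm X) ≤ 2 ^ S.card * ∑ a ∈ S, f a

/-- the sets generated, under symmetric differences, by the zero-sum sets of strict classes of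
weight less than `w` inside `H` -/
inductive Gen {V : Type} [AddCommGroup V] [DecidableEq V] (f : V → ℝ) (w : ℝ)
    (H : AddSubgroup V) : Finset V → Prop
  | base (Z : Finset V) : (∀ a ∈ Z, St f a) → (∀ a ∈ Z, a ∈ H) → sm Z = 0 →
      ∑ a ∈ Z, f a < w → Gen f w H Z
  | symm (Z Z' : Finset V) : Gen f w H Z → Gen f w H Z' → Gen f w H (Z ∆ Z')

/-- the covering condition for one set -/
def Cov {V : Type} [AddCommGroup V] [DecidableEq V] (f : V → ℝ) (r : Finset V) : Prop :=
  ∀ τ κ : V, (∀ X ⊆ r, κ ≠ sm X) → Elig f r τ → Elig f r (τ + κ) →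
    ∃ H : AddSubgroup V, κ ∉ H ∧ Gen f (∑ a ∈ r, f a) H r

/-- every circuit of at least five strict classes is covered -/
def Covered5 {V : Type} [AddCommGroup V] [DecidableEq V] (f : V → ℝ) : Prop :=
  ∀ r : Finset V, 5 ≤ r.card → (∀ a ∈ r, St f a) → Circ r → Cov f r

section elig

variable {L V : Type} [AddCommGroup L] [AddCommGroup V] [Module (ZMod 2) V]
  [DecidableEq V] {Λ : Lat L V} (M : Λ.MinSys)

lemma q_double (x : L) : Λ.q (x + x) = 4 * Λ.q x := by
  rw [Λ.q_add]
  have : Λ.b x x = Λ.q x := rfl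
  rw [this]; ring

/-- the parallelogram law over all sign choices -/
lemma para (S : Finset V) : ∀ g : L,
    ∑ X ∈ S.powerset, Λ.q (g + ∑ a ∈ S, M.y a - (∑ a ∈ X, M.y a + ∑ a ∈ X, M.y a)) =
      2 ^ S.card * (Λ.q g + ∑ a ∈ S, M.f a) := by
  induction S using Finset.induction_on with
  | empty => intro g; simp
  | insert a S ha ih =>
    intro g
    rw [Finset.sum_powerset_insert ha, Finset.sum_insert ha, Finset.sum_insert ha,
      Finset.card_insert_of_notMem ha]
    have e1 : ∀ X ∈ S.powerset,
        Λ.q (g + (M.y a + ∑ x ∈ S, M.y x) - (∑ x ∈ X, M.y x + ∑ x ∈ X, M.y x)) =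
        Λ.q ((g + M.y a) + ∑ x ∈ S, M.y x - (∑ x ∈ X, M.y x + ∑ x ∈ X, M.y x)) := by
      intro X _
      congr 1; abel
    have e2 : ∀ X ∈ S.powerset,
        Λ.q (g + (M.y a + ∑ x ∈ S, M.y x) -
          (∑ x ∈ insert a X, M.y x + ∑ x ∈ insert a X, M.y x)) =
        Λ.q ((g - M.y a) + ∑ x ∈ S, M.y x - (∑ x ∈ X, M.y x + ∑ x ∈ X, M.y x)) := by
      intro X hX
      have haX : a ∉ X := fun h => ha (Finset.mem_powerset.mp hX h)
      rw [Finset.sum_insert haX]
      congr 1; abel
    rw [Finset.sum_congr rfl e1, Finset.sum_congr rfl e2, ih, ih, Λ.q_add, Λ.q_sub]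
    have e3 : Λ.q (M.y a) = M.f a := rfl
    rw [e3, pow_succ]
    ring

/-- the half sums are short on average -/
lemma elig_TT {S : Finset V} (h0 : sm S = 0) : Elig M.f S (TT M S) := by
  have hh := half_sum M h0
  have tM : TT M S = Λ.pr (Lat.half (∑ a ∈ S, M.y a)) := rfl
  set h := Lat.half (∑ a ∈ S, M.y a) with hdef
  have hp := para M S 0
  rw [Λ.q_zero] at hp
  simp only [zero_add] at hp
  unfold Elig
  rw [← hp, Finset.mul_sum]
  apply Finset.sum_le_sum
  intro X _
  have e1 : ∑ a ∈ S, M.y a - (∑ a ∈ X, M.y a + ∑ a ∈ X, M.y a) =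
      (h - ∑ a ∈ X, M.y a) + (h - ∑ a ∈ X, M.y a) := by
    rw [← hh]; abel
  rw [e1, q_double]
  have e2 : Λ.pr (h - ∑ a ∈ X, M.y a) = TT M S + sm X := by
    rw [map_sub, pr_sum, sub_eq_add', tM]
  have := M.f_le' e2
  linarith

end elig

section cov5

variable {L L' V : Type} [AddCommGroup L] [AddCommGroup L'] [AddCommGroup V] [Module (ZMod 2) V]
  [Fintype V] [DecidableEq V] {Λ : Lat L V} {Λ' : Lat L' V} (M : Λ.MinSys) (M' : Λ'.MinSys)

theorem all_good_of_covered5 (hf : ∀ v, M.f v = M'.f v) (hch : Covered5 M.f) :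
    ∀ S : Finset V, (∀ a ∈ S, St M.f a) → sm S = 0 → ∃ X ⊆ S, KK M M' S = sm X := by
  have hff : M'.f = M.f := funext (fun v => (hf v).symm)
  have hadd : ∀ S S' : Finset V, sm S = 0 → sm S' = 0 →
      KK M M' (S ∆ S') = KK M M' S + KK M M' S' := fun S S' h h' => KK_symmDiff M M' h h'
  set R : Finset V → Finset V → Prop := fun p p' => ∑ a ∈ p, M.f a < ∑ a ∈ p', M.f a ∨
    (∑ a ∈ p, M.f a = ∑ a ∈ p', M.f a ∧ p'.card < p.card) with hR
  have wf : WellFounded R := by
    have i1 : IsTrans (Finset V) R := by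
      refine ⟨fun a b c h1 h2 => ?_⟩
      simp only [hR] at h1 h2 ⊢
      rcases h1 with h1 | h1 <;> rcases h2 with h2 | h2
      · left; exact lt_trans h1 h2
      · left; rw [← h2.1]; exact h1
      · left; rw [h1.1]; exact h2
      · right; exact ⟨h1.1.trans h2.1, lt_trans h2.2 h1.2⟩
    have i2 : Std.Irrefl R := by
      refine ⟨fun a h => ?_⟩
      simp only [hR] at h
      rcases h with h | h
      · exact lt_irrefl _ h
      · exact lt_irrefl _ h.2
    exact Finite.wellFounded_of_trans_of_irrefl _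
  intro S
  induction S using wf.induction with
  | _ S ih0 =>
    intro hS h0
    have ih : ∀ T : Finset V, ∑ a ∈ T, M.f a < ∑ a ∈ S, M.f a → (∀ a ∈ T, St M.f a) → sm T = 0 →
        ∃ X ⊆ T, KK M M' T = sm X := fun T h1 h2 h3 => ih0 T (Or.inl h1) h2 h3
    by_cases hne : S = ∅
    · refine ⟨∅, Finset.empty_subset _, ?_⟩
      rw [hne, KK_empty, sm_empty]
    by_cases hcirc : Circ S
    swap
    · -- a proper zero-sum subset
      unfold Circ at hcirc
      push Not at hcirc
      obtain ⟨X, hX, hX0, hXne, hXS⟩ := hcirc (Finset.nonempty_iff_ne_empty.mpr hne) h0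
      have hsd : (S \ X).Nonempty := by
        rw [Finset.sdiff_nonempty]
        intro h
        exact hXS (Finset.Subset.antisymm hX h)
      have hpos : ∀ Y ⊆ S, Y.Nonempty → 0 < ∑ a ∈ Y, M.f a := by
        intro Y hY hYne
        apply Finset.sum_pos (fun a ha => M.f_pos (hS a (hY ha)).1) hYne
      have hsum : ∑ a ∈ S \ X, M.f a + ∑ a ∈ X, M.f a = ∑ a ∈ S, M.f a := Finset.sum_sdiff hX
      have p1 := hpos _ Finset.sdiff_subset hsd
      have p2 := hpos _ hX hXne
      have hz : sm (S \ X) = 0 := by rw [sm_sdiff hX, h0, hX0, add_zero]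
      obtain ⟨X1, hX1, hX1'⟩ := ih X (by linarith) (fun a ha => hS a (hX ha)) hX0
      obtain ⟨X2, hX2, hX2'⟩ := ih (S \ X) (by linarith)
        (fun a ha => hS a (Finset.sdiff_subset ha)) hz
      have hd : Disjoint X (S \ X) := Finset.disjoint_sdiff
      have hset : X ∆ (S \ X) = S := by
        rw [Disjoint.symmDiff_eq_sup hd]
        exact Finset.union_sdiff_of_subset hX
      refine ⟨X1 ∪ X2, Finset.union_subset (hX1.trans hX) (hX2.trans Finset.sdiff_subset), ?_⟩
      rw [← hset, hadd _ _ hX0 hz, hX1', hX2', sm_union]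
      exact Finset.disjoint_of_subset_left hX1 (Finset.disjoint_of_subset_right hX2 hd)
    -- circuits
    have hcard0 : S.card ≠ 0 := fun h => hne (Finset.card_eq_zero.mp h)
    by_cases hc1 : S.card = 1
    · obtain ⟨a, ha⟩ := Finset.card_eq_one.mp hc1
      exfalso
      apply (hS a (by rw [ha]; exact Finset.mem_singleton_self _)).1
      rw [ha] at h0
      unfold sm at h0
      rwa [Finset.sum_singleton] at h0
    by_cases hc2 : S.card = 2
    · obtain ⟨a, b, hab, he⟩ := Finset.card_eq_two.mp hc2
      exfalso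
      apply hab
      rw [he] at h0
      unfold sm at h0
      rw [Finset.sum_pair hab] at h0
      exact add_eq_zero_iff'.mp h0
    by_cases hc3 : S.card = 3
    · obtain ⟨a, b, c, hab, hac, hbc, he⟩ := Finset.card_eq_three.mp hc3
      have hsumf : ∀ g : V → ℝ, ∑ x ∈ S, g x = g a + g b + g c := by
        intro g
        rw [he, Finset.sum_insert, Finset.sum_pair hbc, add_assoc]
        simp only [Finset.mem_insert, Finset.mem_singleton, not_or]
        exact ⟨hab, hac⟩
      have habc : a + b + c = 0 := by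
        rw [he] at h0
        unfold sm at h0
        rw [Finset.sum_insert, Finset.sum_pair hbc, ← add_assoc] at h0
        · exact h0
        · simp only [Finset.mem_insert, Finset.mem_singleton, not_or]
          exact ⟨hab, hac⟩
      have sta : St M.f a := hS a (by rw [he]; simp)
      have stb : St M.f b := hS b (by rw [he]; simp)
      have stc : St M.f c := hS c (by rw [he]; simp)
      have ih' : ∀ T : Finset V, (∀ x ∈ T, St M.f x) → sm T = 0 →
          ∑ x ∈ T, M.f x < M.f a + M.f b + M.f c → ∃ X ⊆ T, KK M M' T = sm X := by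
        intro T h1 h2 h3
        exact ih T (by rw [hsumf M.f]; exact h3) h1 h2
      -- half sums
      have hM := half_sum M h0
      have hM' := half_sum M' h0
      have tM : TT M S = Λ.pr (Lat.half (∑ a ∈ S, M.y a)) := rfl
      have tM' : TT M' S = Λ'.pr (Lat.half (∑ a ∈ S, M'.y a)) := rfl
      set hh := Lat.half (∑ a ∈ S, M.y a) with hhdef
      set hh' := Lat.half (∑ a ∈ S, M'.y a) with hhdef'
      have sumy : ∑ x ∈ S, M.y x = M.y a + M.y b + M.y c := by
        rw [he, Finset.sum_insert, Finset.sum_pair hbc, add_assoc]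
        simp only [Finset.mem_insert, Finset.mem_singleton, not_or]
        exact ⟨hab, hac⟩
      have sumy' : ∑ x ∈ S, M'.y x = M'.y a + M'.y b + M'.y c := by
        rw [he, Finset.sum_insert, Finset.sum_pair hbc, add_assoc]
        simp only [Finset.mem_insert, Finset.mem_singleton, not_or]
        exact ⟨hab, hac⟩
      by_cases hin : Λ.pr hh = 0 ∨ Λ.pr hh = a ∨ Λ.pr hh = b ∨ Λ.pr hh = c
      swap
      · push Not at hin
        obtain ⟨k0, k1, k2, k3⟩ := hin
        rw [he]
        exact K3 M sta stb stc habc hab (by rw [hM, sumy]) k0 k1 k2 k3 hadd ih'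
      by_cases hin' : Λ'.pr hh' = 0 ∨ Λ'.pr hh' = a ∨ Λ'.pr hh' = b ∨ Λ'.pr hh' = c
      swap
      · push Not at hin'
        obtain ⟨k0, k1, k2, k3⟩ := hin'
        rw [he]
        exact K3 M' (by rw [hff]; exact sta) (by rw [hff]; exact stb) (by rw [hff]; exact stc)
          habc hab (by rw [hM', sumy']) k0 k1 k2 k3 hadd (by rw [hff]; exact ih')
      have single : ∀ v : V, (v = 0 ∨ v = a ∨ v = b ∨ v = c) → ∃ X ⊆ S, v = sm X := by
        intro v hv
        have sing : ∀ x ∈ S, ∃ X ⊆ S, x = sm X := by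
          intro x hx
          refine ⟨{x}, Finset.singleton_subset_iff.mpr hx, ?_⟩
          unfold sm; rw [Finset.sum_singleton]
        rcases hv with h | h | h | h
        · exact ⟨∅, Finset.empty_subset _, by rw [h, sm_empty]⟩
        · rw [h]; exact sing a (by rw [he]; simp)
        · rw [h]; exact sing b (by rw [he]; simp)
        · rw [h]; exact sing c (by rw [he]; simp)
      obtain ⟨X, hX, hX'⟩ := single _ hin
      obtain ⟨Y, hY, hY'⟩ := single _ hin'
      refine ⟨X ∆ Y, ?_, ?_⟩
      · intro x hx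
        rw [Finset.mem_symmDiff] at hx
        rcases hx with hx | hx
        · exact hX hx.1
        · exact hY hx.1
      · unfold KK
        rw [tM, tM', hX', hY', sm_symmDiff]
    by_cases hc4 : S.card = 4
    · by_contra hng
      obtain ⟨i, S1, hi, he1, hc⟩ := Finset.card_eq_succ.mp hc4
      obtain ⟨j, k, l, -, -, -, he2⟩ := Finset.card_eq_three.mp hc
      rw [he2] at he1
      have hbd : Bd M.f (KK M M') (∑ a ∈ S, M.f a) S := ⟨hS, h0, rfl, hc4, hng⟩
      have hbd' : Bd M.f (KK M M') (∑ a ∈ S, M.f a) {i, j, k, l} := by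
        rw [he1]; exact hbd
      apply no_bd (fun v => (hf v).symm) _ hbd'
      intro Z h1 h2 h3
      apply ih0 Z _ h1 h2
      rw [← hc4] at h3
      exact h3
    -- at least five elements: use the covering
    by_contra hng
    push Not at hng
    have hk : KK M M' S = TT M S + TT M' S := rfl
    have e2 : TT M S + KK M M' S = TT M' S := by
      rw [hk, add_add_cancel']
    obtain ⟨H, hH, hG⟩ := hch S (by omega) hS hcirc (TT M S) (KK M M' S) hng (elig_TT M h0)
      (by rw [e2, ← hff]; exact elig_TT M' h0)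
    have key : ∀ Z : Finset V, Gen M.f (∑ a ∈ S, M.f a) H Z → sm Z = 0 ∧ KK M M' Z ∈ H := by
      intro Z hZ
      induction hZ with
      | base Z h1 h2 h3 h4 =>
        refine ⟨h3, ?_⟩
        obtain ⟨X, hX, hX'⟩ := ih Z h4 h1 h3
        rw [hX']
        unfold sm
        exact AddSubgroup.sum_mem H (fun c hc => h2 c (hX hc))
      | symm Z Z' _ _ i1 i2 =>
        refine ⟨by rw [sm_symmDiff, i1.1, i2.1, add_zero], ?_⟩
        rw [hadd _ _ i1.1 i2.1]
        exact H.add_mem i1.2 i2.2
    exact hH (key S hG).2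

/-- lattices whose circuits of at least five strict classes are covered are determined by their
vonorms -/
theorem isometry_of_covered5 (hf : ∀ v, M.f v = M'.f v) (hch : Covered5 M.f) :
    ∃ e : L ≃+ L', ∀ z, Λ'.q (e z) = Λ.q z :=
  isometry_of_good M M' hf (all_good_of_covered5 M M' hf hch)

end cov5

section chordcov

variable {L V : Type} [AddCommGroup L] [AddCommGroup V] [Module (ZMod 2) V] [Fintype V]
  [DecidableEq V] {Λ : Lat L V} (M : Λ.MinSys)

/-- the subset sums of a set of classes -/
def spanS {V : Type} [AddCommGroup V] [Module (ZMod 2) V] [DecidableEq V] (r : Finset V) :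
    AddSubgroup V where
  carrier := {v | ∃ X ⊆ r, v = sm X}
  add_mem' := by
    rintro a b ⟨X, hX, rfl⟩ ⟨Y, hY, rfl⟩
    refine ⟨X ∆ Y, ?_, ?_⟩
    · intro x hx
      rw [Finset.mem_symmDiff] at hx
      rcases hx with hx | hx
      · exact hX hx.1
      · exact hY hx.1
    · rw [sm_symmDiff]
  zero_mem' := ⟨∅, Finset.empty_subset _, by rw [sm_empty]⟩
  neg_mem' := by
    rintro a ⟨X, hX, rfl⟩
    exact ⟨X, hX, by rw [neg_eq]⟩

/-- chords give coverings -/
theorem covered_of_chordal5 (hch : Chordal5 M.f) : Covered5 M.f := by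
  intro S h5 hS hcirc τ κ hκ _ _
  have h0 := hcirc.2.1
  obtain ⟨A, hA, hA2, hA2', hAst⟩ := hch S h5 hS hcirc
  set B := S \ A with hB
  have hBcard : 2 ≤ B.card := by
    rw [hB, Finset.card_sdiff_of_subset hA]; omega
  have hsB : sm B = sm A := by rw [hB, sm_sdiff hA, h0, zero_add]
  have hdAB : Disjoint A B := Finset.disjoint_sdiff
  have hUn : A ∪ B = S := Finset.union_sdiff_of_subset hA
  have heS : sm A ∉ S := by
    intro heS
    rcases Finset.mem_union.mp (hUn.symm ▸ heS) with h | h
    · have h1 : sm A + sm (A.erase (sm A)) = sm A := by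
        conv_rhs => unfold sm
        exact Finset.add_sum_erase A (fun a => a) h
      have h2 : sm (A.erase (sm A)) = 0 := add_eq_left.mp h1
      rcases hcirc.2.2 _ ((Finset.erase_subset _ _).trans hA) h2 with h3 | h3
      · have h4 : (A.erase (sm A)).card = A.card - 1 := Finset.card_erase_of_mem h
        rw [h3, Finset.card_empty] at h4
        omega
      · have h4 : (A.erase (sm A)).card = A.card - 1 := Finset.card_erase_of_mem h
        rw [h3] at h4
        omega
    · have h1 : sm B + sm (B.erase (sm B)) = sm B := by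
        conv_rhs => unfold sm
        exact Finset.add_sum_erase B (fun a => a) (by rw [hsB]; exact h)
      have h2 : sm (B.erase (sm B)) = 0 := add_eq_left.mp h1
      have h5 : sm B ∈ B := by rw [hsB]; exact h
      have hBS : B ⊆ S := Finset.sdiff_subset
      have hBc : B.card + A.card = S.card := by
        rw [hB]; exact Finset.card_sdiff_add_card_eq_card hA
      rcases hcirc.2.2 _ ((Finset.erase_subset _ _).trans hBS) h2 with h3 | h3
      · have h4 : (B.erase (sm B)).card = B.card - 1 := Finset.card_erase_of_mem h5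
        rw [h3, Finset.card_empty] at h4
        omega
      · have h4 : (B.erase (sm B)).card = B.card - 1 := Finset.card_erase_of_mem h5
        rw [h3] at h4
        omega
  have heA : sm A ∉ A := fun h => heS (hA h)
  have heB : sm A ∉ B := fun h => heS (Finset.sdiff_subset h)
  have hBS : B ⊆ S := Finset.sdiff_subset
  have l1 := chord_lt M hA2 hAst (fun a ha => hS a (hA ha)) heA
  have l2 := chord_lt M (A := B) hBcard (by rw [hsB]; exact hAst)
    (fun a ha => hS a (hBS ha)) (by rw [hsB]; exact heB)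
  rw [hsB] at l2
  have hsum : ∑ a ∈ A, M.f a + ∑ a ∈ B, M.f a = ∑ a ∈ S, M.f a := by
    rw [← Finset.sum_union hdAB, hUn]
  have zA : sm (insert (sm A) A) = 0 := by rw [sm_insert heA, self_add]
  have zB : sm (insert (sm A) B) = 0 := by rw [sm_insert heB, hsB, self_add]
  have hsd : (insert (sm A) A) ∆ (insert (sm A) B) = A ∪ B := by
    ext y
    rw [Finset.mem_symmDiff, Finset.mem_insert, Finset.mem_insert, Finset.mem_union]
    constructor
    · rintro (⟨h4 | h4, h5⟩ | ⟨h4 | h4, h5⟩)
      · exact absurd (Or.inl h4) h5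
      · exact Or.inl h4
      · exact absurd (Or.inl h4) h5
      · exact Or.inr h4
    · rintro (h4 | h4)
      · left
        refine ⟨Or.inr h4, ?_⟩
        rintro (h5 | h5)
        · rw [h5] at h4; exact heA h4
        · exact Finset.disjoint_left.mp hdAB h4 h5
      · right
        refine ⟨Or.inr h4, ?_⟩
        rintro (h5 | h5)
        · rw [h5] at h4; exact heB h4
        · exact Finset.disjoint_left.mp hdAB h5 h4
  have mem : ∀ X ⊆ S, sm X ∈ spanS S := fun X hX => ⟨X, hX, rfl⟩
  have mem1 : ∀ a ∈ S, a ∈ spanS S := fun a ha =>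
    ⟨{a}, Finset.singleton_subset_iff.mpr ha, by unfold sm; rw [Finset.sum_singleton]⟩
  refine ⟨spanS S, ?_, ?_⟩
  · rintro ⟨X, hX, hX'⟩
    exact hκ X hX hX'
  · have g := Gen.symm (f := M.f) (w := ∑ a ∈ S, M.f a) (H := spanS S) (insert (sm A) A)
      (insert (sm A) B)
      (Gen.base _ (by
        intro a ha
        rcases Finset.mem_insert.mp ha with h | h
        · rw [h]; exact hAst
        · exact hS a (hA h)) (by
        intro a ha
        rcases Finset.mem_insert.mp ha with h | h
        · rw [h]; exact mem A hA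
        · exact mem1 a (hA h)) zA (by rw [Finset.sum_insert heA]; linarith))
      (Gen.base _ (by
        intro a ha
        rcases Finset.mem_insert.mp ha with h | h
        · rw [h]; exact hAst
        · exact hS a (hBS h)) (by
        intro a ha
        rcases Finset.mem_insert.mp ha with h | h
        · rw [h]; exact mem A hA
        · exact mem1 a (hBS h)) zB (by rw [Finset.sum_insert heB]; linarith))
    rw [hsd, hUn] at g
    exact g

end chordcov

end Pool.Agent.Run7.h698.Von
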